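import Mathlib
import Pool.Agent.Work.MP_b0497c_an.Dec.Defs

set_option autoImplicit false

/-!
The Euler equations on the torus with a set of triad interactions deleted.
-/

namespace Pool.Agent.Work.MP_b0497c_an.Tri

open Set MeasureTheory RealInnerProductSpace Pool.Agent.Work.MP_b0497c_an
open Pool.Agent.Work.MP_b0497c_an.Dec

/-- The Fourier coefficient `∫ exp (- i k · x) f_i (x) dx` over the torus. -/
noncomputable def fc (f : EuclideanSpace ℝ (Fin 3) → EuclideanSpace ℝ (Fin 3))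
    (k : Fin 3 → ℤ) (i : Fin 3) : ℂ :=
  ∫ x in cube, Complex.exp (-(Complex.I * (phase k x : ℂ))) * ((f x i : ℝ) : ℂ)

/-- The contribution of the Fourier modes `p, q, r` of `u, v, φ`, where `p + q + r = 0`, to
`∫ (u · ∇) v · φ`. -/
noncomputable def interact (u v φ : EuclideanSpace ℝ (Fin 3) → EuclideanSpace ℝ (Fin 3))
    (p q r : Fin 3 → ℤ) : ℝ :=
  (Complex.I * (∑ i, fc u p i * (q i : ℂ)) * (∑ j, fc v q j * fc φ r j)).re / (2 * Real.pi) ^ 6

/-- The contribution of the triads of `D` to `∫ (u · ∇) v · φ`. -/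
noncomputable def Del (D : Set ((Fin 3 → ℤ) × (Fin 3 → ℤ) × (Fin 3 → ℤ)))
    (u v φ : EuclideanSpace ℝ (Fin 3) → EuclideanSpace ℝ (Fin 3)) : ℝ :=
  ∑' z : D, interact u v φ z.1.1 z.1.2.1 z.1.2.2

/-- A `C¹` divergence free vector field on the torus. -/
structure IsField (v : EuclideanSpace ℝ (Fin 3) → EuclideanSpace ℝ (Fin 3)) : Prop where
  contDiff : ContDiff ℝ 1 v
  periodic : Periodic3 v
  div_free : ∀ x, LinearMap.trace ℝ (EuclideanSpace ℝ (Fin 3)) (fderiv ℝ v x) = 0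

/-- `u` is a classical solution on `[0, T)` of the Euler equations with the triad interactions
of `D` deleted: `u` is `C¹` in `(t, x)`, `u t` is a divergence free field on the torus, and
`∫ (∂ₜ u + (u · ∇) u) · φ` equals the contribution of the triads of `D` to `∫ (u · ∇) u · φ`,
for all `C¹` divergence free fields `φ` on the torus. -/
structure IsDeletedSolution (D : Set ((Fin 3 → ℤ) × (Fin 3 → ℤ) × (Fin 3 → ℤ))) (T : ℝ)
    (u : ℝ → EuclideanSpace ℝ (Fin 3) → EuclideanSpace ℝ (Fin 3)) : Prop where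
  contDiff_u : ContDiffOn ℝ 1 (fun z : ℝ × EuclideanSpace ℝ (Fin 3) => u z.1 z.2)
    (Ico 0 T ×ˢ univ)
  field : ∀ t ∈ Ico 0 T, IsField (u t)
  momentum : ∀ t ∈ Ico 0 T, ∀ φ, IsField φ →
    ∫ x in cube, ⟪derivWithin (fun s => u s x) (Ico 0 T) t + fderiv ℝ (u t) x (u t x), φ x⟫
      = Del D (u t) (u t) φ

/-- The deleted triads: two modes in the chain, the third one nonzero and not in the chain. -/
def DD (m : ℕ) : Set ((Fin 3 → ℤ) × (Fin 3 → ℤ) × (Fin 3 → ℤ)) :=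
  {z | z.1 + z.2.1 + z.2.2 = 0 ∧
    ((z.1 ∈ X m ∧ z.2.1 ∈ X m ∧ z.2.2 ∉ L m) ∨ (z.2.1 ∈ X m ∧ z.2.2 ∈ X m ∧ z.1 ∉ L m) ∨
      (z.2.2 ∈ X m ∧ z.1 ∈ X m ∧ z.2.1 ∉ L m))}

/-- The sine coefficients. -/
noncomputable def sc (φ : EuclideanSpace ℝ (Fin 3) → EuclideanSpace ℝ (Fin 3))
    (k : Fin 3 → ℤ) : EuclideanSpace ℝ (Fin 3) := ∫ x in cube, Real.sin (phase k x) • φ x

open Classical in
/-- The part of `S` in the set `A`. -/
noncomputable def cut (A : Set (Fin 3 → ℤ)) (S : (Fin 3 → ℤ) → EuclideanSpace ℝ (Fin 3))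
    (k : Fin 3 → ℤ) : EuclideanSpace ℝ (Fin 3) := if k ∈ A then S k else 0

/-- Size of a Fourier coefficient. -/
noncomputable def fn (f : EuclideanSpace ℝ (Fin 3) → EuclideanSpace ℝ (Fin 3))
    (k : Fin 3 → ℤ) : ℝ := Real.sqrt (∑ i, ‖fc f k i‖ ^ 2)

/-- The `L²` norm on the torus. -/
noncomputable def nL (f : EuclideanSpace ℝ (Fin 3) → EuclideanSpace ℝ (Fin 3)) : ℝ :=
  Real.sqrt (∫ x in cube, ‖f x‖ ^ 2)

/-- The `L²` norm of the gradient on the torus. -/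
noncomputable def nG (f : EuclideanSpace ℝ (Fin 3) → EuclideanSpace ℝ (Fin 3)) : ℝ :=
  Real.sqrt (∫ x in cube, ∑ i, ‖fderiv ℝ f x (e i)‖ ^ 2)

/-- The amplitude vector of the mode `p`. -/
noncomputable def alp (m : ℕ) (a : ℕ → ℝ → ℝ) (t : ℝ) (p : Fin 3 → ℤ) :
    EuclideanSpace ℝ (Fin 3) :=
  ∑' n, a n t • ∑ g : Sgn with act g (kk m n) = p, vec (act g (ev n))

end Pool.Agent.Work.MP_b0497c_an.Tri
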