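import Mathlib
import Pool.Agent.Work.MP_b0497c_an.Tri.Defs
import Pool.Agent.Work.MP_b0497c_an.Dec.CubeInt

set_option autoImplicit false

/-!
Bessel inequality for the Fourier coefficients on the torus, and integration by parts.
-/

namespace Pool.Agent.Work.MP_b0497c_an.Tri

open Set MeasureTheory RealInnerProductSpace Pool.Agent.Work.MP_b0497c_an Filter Topology
open Pool.Agent.Work.MP_b0497c_an.Dec
open scoped ContDiff

namespace Bes

/-- The character `exp (- i k · x)`. -/
noncomputable def ch (k : Fin 3 → ℤ) (x : EuclideanSpace ℝ (Fin 3)) : ℂ :=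
  Complex.exp (-(Complex.I * (phase k x : ℂ)))

/-- The Fourier coefficient of a scalar function. -/
noncomputable def gh (g : EuclideanSpace ℝ (Fin 3) → ℝ) (k : Fin 3 → ℤ) : ℂ :=
  ∫ x in cube, ch k x * ((g x : ℝ) : ℂ)

theorem ch_eq (k : Fin 3 → ℤ) (x : EuclideanSpace ℝ (Fin 3)) :
    ch k x = (Real.cos (phase k x) : ℂ) - Complex.I * (Real.sin (phase k x) : ℂ) := by
  unfold ch
  rw [show -(Complex.I * (phase k x : ℂ)) = (-(phase k x : ℂ)) * Complex.I by ring,
    Complex.exp_mul_I, Complex.cos_neg, Complex.sin_neg, Complex.ofReal_cos, Complex.ofReal_sin]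
  ring

theorem continuous_ch (k : Fin 3 → ℤ) : Continuous (ch k) := by
  unfold ch
  have := continuous_phase k
  fun_prop

theorem norm_ch (k : Fin 3 → ℤ) (x : EuclideanSpace ℝ (Fin 3)) : ‖ch k x‖ = 1 := by
  unfold ch
  rw [show -(Complex.I * (phase k x : ℂ)) = ((-(phase k x) : ℝ) : ℂ) * Complex.I by
    push_cast; ring]
  exact Complex.norm_exp_ofReal_mul_I _

theorem conj_ch_mul (k l : Fin 3 → ℤ) (x : EuclideanSpace ℝ (Fin 3)) :
    (starRingEnd ℂ) (ch k x) * ch l x = ch (l - k) x := by
  unfold ch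
  rw [← Complex.exp_conj, ← Complex.exp_add, phase_sub_left]
  congr 1
  simp only [map_neg, map_mul, Complex.conj_I, Complex.conj_ofReal]
  push_cast
  ring

theorem int_cube {E : Type*} [NormedAddCommGroup E] {f : EuclideanSpace ℝ (Fin 3) → E}
    (hf : Continuous f) : IntegrableOn f cube :=
  hf.continuousOn.integrableOn_compact cube_compact

theorem gh_eq {g : EuclideanSpace ℝ (Fin 3) → ℝ} (hg : Continuous g) (k : Fin 3 → ℤ) :
    gh g k = ((∫ x in cube, Real.cos (phase k x) * g x : ℝ) : ℂ) -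
      Complex.I * ((∫ x in cube, Real.sin (phase k x) * g x : ℝ) : ℂ) := by
  have hc : Continuous (fun x => Real.cos (phase k x) * g x) :=
    (Real.continuous_cos.comp (continuous_phase k)).mul hg
  have hs : Continuous (fun x => Real.sin (phase k x) * g x) :=
    (Real.continuous_sin.comp (continuous_phase k)).mul hg
  unfold gh
  rw [← integral_complex_ofReal, ← integral_complex_ofReal, ← integral_const_mul,
    ← integral_sub]
  · refine integral_congr_ae (Eventually.of_forall fun x => ?_)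
    simp only [ch_eq]
    push_cast
    ring
  · exact int_cube (Complex.continuous_ofReal.comp hc)
  · exact int_cube (continuous_const.mul (Complex.continuous_ofReal.comp hs))

theorem integral_ch (k : Fin 3 → ℤ) :
    ∫ x in cube, ch k x = if k = 0 then ((2 * Real.pi : ℝ) : ℂ) ^ 3 else 0 := by
  have h := gh_eq (g := fun _ => 1) continuous_const k
  unfold gh at h
  simp only [Complex.ofReal_one, mul_one] at h
  rw [h, Dec.integral_cos, Dec.integral_sin]
  split_ifs <;> simp

theorem memLp_two {f : EuclideanSpace ℝ (Fin 3) → ℂ} (hf : Continuous f) :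
    MemLp f 2 (volume.restrict cube) := by
  obtain ⟨C, hC⟩ := cube_compact.exists_bound_of_continuousOn hf.continuousOn
  have : IsFiniteMeasure (volume.restrict cube) :=
    ⟨by rw [Measure.restrict_apply_univ]; exact cube_compact.measure_lt_top⟩
  refine MemLp.of_bound hf.aestronglyMeasurable C ?_
  filter_upwards [ae_restrict_mem cube_compact.measurableSet] with x hx
  exact hC x hx

theorem inner_toLp {f g : EuclideanSpace ℝ (Fin 3) → ℂ} (hf : Continuous f) (hg : Continuous g) :
    inner ℂ ((memLp_two hf).toLp f) ((memLp_two hg).toLp g) =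
      ∫ x in cube, (starRingEnd ℂ) (f x) * g x := by
  rw [L2.inner_def]
  refine integral_congr_ae ?_
  filter_upwards [(memLp_two hf).coeFn_toLp, (memLp_two hg).coeFn_toLp] with x h1 h2
  rw [h1, h2, RCLike.inner_apply]
  ring

/-- Bessel inequality for a scalar function. -/
theorem bessel_scalar {g : EuclideanSpace ℝ (Fin 3) → ℝ} (hg : Continuous g)
    (F : Finset (Fin 3 → ℤ)) :
    ∑ k ∈ F, ‖gh g k‖ ^ 2 ≤ (2 * Real.pi) ^ 3 * ∫ x in cube, g x ^ 2 := by
  set c : ℝ := (Real.sqrt ((2 * Real.pi) ^ 3))⁻¹ with hc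
  have hpos : 0 < (2 * Real.pi) ^ 3 := by positivity
  have hc2 : c ^ 2 * (2 * Real.pi) ^ 3 = 1 := by
    rw [hc, inv_pow, Real.sq_sqrt hpos.le]
    exact inv_mul_cancel₀ hpos.ne'
  have hcont : ∀ k : Fin 3 → ℤ, Continuous fun x => (c : ℂ) * (starRingEnd ℂ) (ch k x) := fun k =>
    continuous_const.mul (Complex.continuous_conj.comp (continuous_ch k))
  have hgc : Continuous fun x => ((g x : ℝ) : ℂ) := Complex.continuous_ofReal.comp hg
  set v : (Fin 3 → ℤ) → Lp ℂ 2 (volume.restrict cube) := fun k =>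
    (memLp_two (hcont k)).toLp _ with hv
  have hon : Orthonormal ℂ v := by
    rw [orthonormal_iff_ite]
    intro k l
    simp only [hv]
    rw [inner_toLp (hcont k) (hcont l)]
    have h1 : ∀ x, (starRingEnd ℂ) ((c : ℂ) * (starRingEnd ℂ) (ch k x)) *
        ((c : ℂ) * (starRingEnd ℂ) (ch l x)) = ((c ^ 2 : ℝ) : ℂ) * ch (k - l) x := by
      intro x
      rw [← conj_ch_mul l k x, map_mul, Complex.conj_conj, Complex.conj_ofReal]
      push_cast
      ring
    simp only [h1]
    rw [integral_const_mul, integral_ch]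
    by_cases hkl : k = l
    · subst hkl
      simp only [sub_self, if_true]
      rw [← Complex.ofReal_pow, ← Complex.ofReal_mul, hc2, Complex.ofReal_one]
    · rw [if_neg (sub_ne_zero.2 hkl), if_neg hkl, mul_zero]
  have hb := hon.sum_inner_products_le ((memLp_two hgc).toLp _) (s := F)
  have h2 : ∀ k, inner ℂ (v k) ((memLp_two hgc).toLp _) = (c : ℂ) * gh g k := by
    intro k
    simp only [hv]
    rw [inner_toLp (hcont k) hgc]
    unfold gh
    rw [← integral_const_mul]
    refine integral_congr_ae (Eventually.of_forall fun x => ?_)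
    simp only [map_mul, Complex.conj_conj, Complex.conj_ofReal]
    ring
  have h3 : ‖(memLp_two hgc).toLp (fun x => ((g x : ℝ) : ℂ))‖ ^ 2 = ∫ x in cube, g x ^ 2 := by
    have h4 : ((‖(memLp_two hgc).toLp (fun x => ((g x : ℝ) : ℂ))‖ ^ 2 : ℝ) : ℂ) =
        ((∫ x in cube, g x ^ 2 : ℝ) : ℂ) := by
      rw [← integral_complex_ofReal]
      have h5 := inner_self_eq_norm_sq_to_K (𝕜 := ℂ)
        ((memLp_two hgc).toLp (fun x => ((g x : ℝ) : ℂ)))
      rw [inner_toLp hgc hgc] at h5
      push_cast
      refine Eq.trans h5.symm ?_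
      refine integral_congr_ae (Eventually.of_forall fun x => ?_)
      simp only [Complex.conj_ofReal]
      ring
    exact_mod_cast h4
  rw [h3] at hb
  have h6 : ∀ k, ‖inner ℂ (v k) ((memLp_two hgc).toLp (fun x => ((g x : ℝ) : ℂ)))‖ ^ 2 =
      c ^ 2 * ‖gh g k‖ ^ 2 := by
    intro k
    rw [h2, norm_mul, mul_pow, Complex.norm_real, Real.norm_eq_abs, sq_abs]
  simp only [h6] at hb
  rw [← Finset.mul_sum] at hb
  have h7 := mul_le_mul_of_nonneg_left hb hpos.le
  calc ∑ k ∈ F, ‖gh g k‖ ^ 2 = (2 * Real.pi) ^ 3 * (c ^ 2 * ∑ k ∈ F, ‖gh g k‖ ^ 2) := by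
        rw [← mul_assoc, mul_comm ((2 * Real.pi) ^ 3), hc2, one_mul]
    _ ≤ _ := h7

/-- The integral of a partial derivative of a periodic function vanishes. -/
theorem int_deriv_zero {h : EuclideanSpace ℝ (Fin 3) → ℝ} (hh : ContDiff ℝ 1 h)
    (hp : Periodic3 h) (j : Fin 3) : ∫ x in cube, fderiv ℝ h x (e j) = 0 := by
  have h1 := per_div_cube (G := fun x => h x • e j) (hh.smul contDiff_const)
    (fun i x => by
      have := hp i x
      simp only [this])
  rw [← h1]
  refine integral_congr_ae (Eventually.of_forall fun x => ?_)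
  have h2 : HasFDerivAt (fun x => h x • e j) ((fderiv ℝ h x).smulRight (e j)) x :=
    ((hh.differentiable (by norm_num) x).hasFDerivAt).smul_const _
  simp only [h2.fderiv]
  rw [trace_eq]
  simp only [ContinuousLinearMap.smulRight_apply, PiLp.smul_apply, smul_eq_mul]
  fin_cases j <;> simp [e]

theorem int_cos_deriv {g : EuclideanSpace ℝ (Fin 3) → ℝ} (hg : ContDiff ℝ 1 g)
    (hp : Periodic3 g) (k : Fin 3 → ℤ) (j : Fin 3) :
    ∫ x in cube, Real.cos (phase k x) * fderiv ℝ g x (e j) =
      (k j : ℝ) * ∫ x in cube, Real.sin (phase k x) * g x := by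
  have hc : ContDiff ℝ 1 fun x => Real.cos (phase k x) :=
    Real.contDiff_cos.comp ((contDiff_phase k).of_le (by exact_mod_cast le_top))
  have h0 := int_deriv_zero (h := fun x => Real.cos (phase k x) * g x) (hc.mul hg)
    (fun i x => by
      have h1 := cos_phase_periodic k i x
      simp only at h1
      simp only [h1, hp i x]) j
  have h1 : ∀ x, fderiv ℝ (fun x => Real.cos (phase k x) * g x) x (e j) =
      Real.cos (phase k x) * fderiv ℝ g x (e j) - (k j : ℝ) * (Real.sin (phase k x) * g x) := by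
    intro x
    have h2 : HasFDerivAt (fun x => Real.cos (phase k x) * g x)
        (Real.cos (phase k x) • fderiv ℝ g x + g x • -Real.sin (phase k x) •
          (innerSL ℝ) (vec k)) x :=
      ((hasFDerivAt_phase k x).cos).mul (hg.differentiable (by norm_num) x).hasFDerivAt
    rw [h2.fderiv]
    simp only [ContinuousLinearMap.add_apply, ContinuousLinearMap.smul_apply, smul_eq_mul,
      innerSL_apply_apply, vec_inner_e]
    ring
  simp only [h1] at h0
  have hs : Continuous fun x => Real.sin (phase k x) * g x :=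
    (Real.continuous_sin.comp (continuous_phase k)).mul hg.continuous
  have hd : Continuous fun x => Real.cos (phase k x) * fderiv ℝ g x (e j) :=
    hc.continuous.mul ((hg.continuous_fderiv (by norm_num)).clm_apply continuous_const)
  have hks : Continuous fun x => (k j : ℝ) * (Real.sin (phase k x) * g x) :=
    continuous_const.mul hs
  rw [integral_sub (int_cube hd) (int_cube hks), integral_const_mul] at h0
  linarith

theorem int_sin_deriv {g : EuclideanSpace ℝ (Fin 3) → ℝ} (hg : ContDiff ℝ 1 g)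
    (hp : Periodic3 g) (k : Fin 3 → ℤ) (j : Fin 3) :
    ∫ x in cube, Real.sin (phase k x) * fderiv ℝ g x (e j) =
      -((k j : ℝ) * ∫ x in cube, Real.cos (phase k x) * g x) := by
  have hc : ContDiff ℝ 1 fun x => Real.sin (phase k x) :=
    Real.contDiff_sin.comp ((contDiff_phase k).of_le (by exact_mod_cast le_top))
  have h0 := int_deriv_zero (h := fun x => Real.sin (phase k x) * g x) (hc.mul hg)
    (fun i x => by
      have h1 := sin_phase_periodic k i x
      simp only at h1
      simp only [h1, hp i x]) j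
  have h1 : ∀ x, fderiv ℝ (fun x => Real.sin (phase k x) * g x) x (e j) =
      Real.sin (phase k x) * fderiv ℝ g x (e j) + (k j : ℝ) * (Real.cos (phase k x) * g x) := by
    intro x
    have h2 : HasFDerivAt (fun x => Real.sin (phase k x) * g x)
        (Real.sin (phase k x) • fderiv ℝ g x + g x • Real.cos (phase k x) •
          (innerSL ℝ) (vec k)) x :=
      ((hasFDerivAt_phase k x).sin).mul (hg.differentiable (by norm_num) x).hasFDerivAt
    rw [h2.fderiv]
    simp only [ContinuousLinearMap.add_apply, ContinuousLinearMap.smul_apply, smul_eq_mul,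
      innerSL_apply_apply, vec_inner_e]
    ring
  simp only [h1] at h0
  have hs : Continuous fun x => Real.cos (phase k x) * g x :=
    (Real.continuous_cos.comp (continuous_phase k)).mul hg.continuous
  have hd : Continuous fun x => Real.sin (phase k x) * fderiv ℝ g x (e j) :=
    hc.continuous.mul ((hg.continuous_fderiv (by norm_num)).clm_apply continuous_const)
  have hks : Continuous fun x => (k j : ℝ) * (Real.cos (phase k x) * g x) :=
    continuous_const.mul hs
  rw [integral_add (int_cube hd) (int_cube hks), integral_const_mul] at h0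
  linarith

/-- Integration by parts for the Fourier coefficients of a periodic scalar function. -/
theorem gh_deriv {g : EuclideanSpace ℝ (Fin 3) → ℝ} (hg : ContDiff ℝ 1 g)
    (hp : Periodic3 g) (k : Fin 3 → ℤ) (j : Fin 3) :
    gh (fun x => fderiv ℝ g x (e j)) k = Complex.I * (k j : ℂ) * gh g k := by
  have hd : Continuous fun x => fderiv ℝ g x (e j) :=
    (hg.continuous_fderiv (by norm_num)).clm_apply continuous_const
  rw [gh_eq hd, gh_eq hg.continuous, int_cos_deriv hg hp, int_sin_deriv hg hp]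
  push_cast
  have hI : Complex.I * Complex.I = -1 := Complex.I_mul_I
  linear_combination ((k j : ℂ) * (∫ x in cube, Real.sin (phase k x) * g x : ℝ)) * hI

/-- The same for a component of a field. -/
theorem fc_deriv {f : EuclideanSpace ℝ (Fin 3) → EuclideanSpace ℝ (Fin 3)}
    (hf : ContDiff ℝ 1 f) (hp : Periodic3 f) (k : Fin 3 → ℤ) (i j : Fin 3) :
    fc (fun x => fderiv ℝ f x (e j)) k i = Complex.I * (k j : ℂ) * fc f k i := by
  have hfi : ContDiff ℝ 1 fun x => f x i := by
    have := (EuclideanSpace.proj i : EuclideanSpace ℝ (Fin 3) →L[ℝ] ℝ).contDiff (n := 1)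
    exact this.comp hf
  have hpi : Periodic3 fun x => f x i := by
    intro l x
    have := hp l x
    simp only [this]
  have h1 := gh_deriv hfi hpi k j
  have h2 : ∀ x, fderiv ℝ (fun x => f x i) x (e j) = (fderiv ℝ f x (e j)) i := by
    intro x
    have h3 : HasFDerivAt (fun x => f x i)
        ((EuclideanSpace.proj i : EuclideanSpace ℝ (Fin 3) →L[ℝ] ℝ).comp (fderiv ℝ f x)) x :=
      (EuclideanSpace.proj i : EuclideanSpace ℝ (Fin 3) →L[ℝ] ℝ).hasFDerivAt.comp x
        (hf.differentiable (by norm_num) x).hasFDerivAt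
    rw [h3.fderiv]
    rfl
  simp only [h2] at h1
  exact h1

theorem nL_sq {f : EuclideanSpace ℝ (Fin 3) → EuclideanSpace ℝ (Fin 3)} :
    nL f ^ 2 = ∫ x in cube, ‖f x‖ ^ 2 :=
  Real.sq_sqrt (integral_nonneg fun x => by positivity)

theorem nG_sq {f : EuclideanSpace ℝ (Fin 3) → EuclideanSpace ℝ (Fin 3)} :
    nG f ^ 2 = ∫ x in cube, ∑ i, ‖fderiv ℝ f x (e i)‖ ^ 2 :=
  Real.sq_sqrt (integral_nonneg fun x => by positivity)

theorem fn_sq (f : EuclideanSpace ℝ (Fin 3) → EuclideanSpace ℝ (Fin 3)) (k : Fin 3 → ℤ) :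
    fn f k ^ 2 = ∑ i, ‖fc f k i‖ ^ 2 :=
  Real.sq_sqrt (by positivity)

end Bes

open Bes

theorem bessel {f : EuclideanSpace ℝ (Fin 3) → EuclideanSpace ℝ (Fin 3)} (hf : Continuous f)
    (F : Finset (Fin 3 → ℤ)) : ∑ k ∈ F, fn f k ^ 2 ≤ (2 * Real.pi) ^ 3 * nL f ^ 2 := by
  have hfi : ∀ i : Fin 3, Continuous fun x => f x i := fun i =>
    (EuclideanSpace.proj i : EuclideanSpace ℝ (Fin 3) →L[ℝ] ℝ).continuous.comp hf
  simp only [fn_sq]
  rw [Finset.sum_comm, nL_sq]
  have h1 : ∀ i ∈ (Finset.univ : Finset (Fin 3)), ∑ k ∈ F, ‖fc f k i‖ ^ 2 ≤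
      (2 * Real.pi) ^ 3 * ∫ x in cube, f x i ^ 2 := fun i _ => bessel_scalar (hfi i) F
  refine (Finset.sum_le_sum h1).trans (le_of_eq ?_)
  have hi2 : ∀ i : Fin 3, Continuous fun x => f x i ^ 2 := fun i => (hfi i).pow 2
  rw [← Finset.mul_sum, ← integral_finsetSum _ fun i _ => int_cube (hi2 i)]
  congr 1
  refine integral_congr_ae (Eventually.of_forall fun x => ?_)
  simp only [norm_sq_eq, Fin.sum_univ_three]

theorem bessel_grad {f : EuclideanSpace ℝ (Fin 3) → EuclideanSpace ℝ (Fin 3)}
    (hf : ContDiff ℝ 1 f) (hp : Periodic3 f) (F : Finset (Fin 3 → ℤ)) :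
    ∑ k ∈ F, (‖vec k‖ * fn f k) ^ 2 ≤ (2 * Real.pi) ^ 3 * nG f ^ 2 := by
  have hd : ∀ j : Fin 3, Continuous fun x => fderiv ℝ f x (e j) := fun j =>
    (hf.continuous_fderiv (by norm_num)).clm_apply continuous_const
  have h1 : ∀ k : Fin 3 → ℤ, (‖vec k‖ * fn f k) ^ 2 =
      ∑ j, fn (fun x => fderiv ℝ f x (e j)) k ^ 2 := by
    intro k
    rw [mul_pow, fn_sq, norm_sq_eq]
    simp only [fn_sq, fc_deriv hf hp, norm_mul, Complex.norm_I, one_mul, mul_pow]
    simp only [Fin.sum_univ_three, Complex.norm_intCast, sq_abs]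
    simp [vec]
    ring
  simp only [h1]
  rw [Finset.sum_comm, nG_sq]
  refine (Finset.sum_le_sum fun j _ => bessel (hd j) F).trans (le_of_eq ?_)
  rw [← Finset.mul_sum]
  simp only [nL_sq]
  have hd2 : ∀ j : Fin 3, Continuous fun x => ‖fderiv ℝ f x (e j)‖ ^ 2 := fun j =>
    (hd j).norm.pow 2
  rw [← integral_finsetSum _ fun j _ => int_cube (hd2 j)]

theorem fc_div {f : EuclideanSpace ℝ (Fin 3) → EuclideanSpace ℝ (Fin 3)} (hf : IsField f)
    (k : Fin 3 → ℤ) : ∑ i, fc f k i * (k i : ℂ) = 0 := by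
  have hd : ∀ j : Fin 3, Continuous fun x => fderiv ℝ f x (e j) := fun j =>
    (hf.contDiff.continuous_fderiv (by norm_num)).clm_apply continuous_const
  have hdi : ∀ j : Fin 3, Continuous fun x => (fderiv ℝ f x (e j)) j := fun j =>
    (EuclideanSpace.proj j : EuclideanSpace ℝ (Fin 3) →L[ℝ] ℝ).continuous.comp (hd j)
  have h1 : ∑ i, fc (fun x => fderiv ℝ f x (e i)) k i = 0 := by
    have h2 : ∀ i, fc (fun x => fderiv ℝ f x (e i)) k i =
        ∫ x in cube, ch k x * (((fderiv ℝ f x (e i)) i : ℝ) : ℂ) := fun i => rfl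
    simp only [h2]
    have hci : ∀ i : Fin 3, Continuous fun x =>
        ch k x * (((fderiv ℝ f x (e i)) i : ℝ) : ℂ) := fun i =>
      (continuous_ch k).mul (Complex.continuous_ofReal.comp (hdi i))
    rw [← integral_finsetSum _ fun i _ => int_cube (hci i)]
    have h3 : ∀ x, ∑ i, ch k x * (((fderiv ℝ f x (e i)) i : ℝ) : ℂ) = 0 := by
      intro x
      have h4 := hf.div_free x
      rw [trace_eq] at h4
      rw [← Finset.mul_sum, ← Complex.ofReal_sum, Fin.sum_univ_three]
      have h5 : (fderiv ℝ f x (e 0)) 0 + (fderiv ℝ f x (e 1)) 1 + (fderiv ℝ f x (e 2)) 2 = 0 := h4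
      rw [h5]
      simp
    simp only [h3, integral_zero]
  simp only [fc_deriv hf.contDiff hf.periodic] at h1
  have h6 : Complex.I * ∑ i, fc f k i * (k i : ℂ) = 0 := by
    rw [← h1, Finset.mul_sum]
    refine Finset.sum_congr rfl fun i _ => ?_
    ring
  exact (mul_eq_zero.1 h6).resolve_left Complex.I_ne_zero

end Pool.Agent.Work.MP_b0497c_an.Tri
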