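import Mathlib
import Pool.Agent.Work.MP_b0497c_an.Tri.Defs
import Pool.Agent.Work.MP_b0497c_an.Bd.B25
import Pool.Agent.Work.MP_b0497c_an.Dec.Triad

set_option autoImplicit false

/-!
The number of representations of a vector as a sum of two modes of the chain.
-/

namespace Pool.Agent.Work.MP_b0497c_an.Tri

open Pool.Agent.Work.MP_b0497c_an.Dec

namespace MultAux

/-- `16 ^ (m + l)` is the exact power of `16` dividing `s`. -/
def V (m : ℕ) (s : Fin 3 → ℤ) (l : ℕ) : Prop :=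
  (∀ i, (16 : ℤ) ^ (m + l) ∣ s i) ∧ ¬ ∀ i, (16 : ℤ) ^ (m + l + 1) ∣ s i

/-- `s` has size about `16 ^ (m + l)`. -/
def W (m : ℕ) (s : Fin 3 → ℤ) (l : ℕ) : Prop :=
  (∀ i, |s i| ≤ 48 * (16 : ℤ) ^ (m + l)) ∧ ∃ i, (16 : ℤ) ^ (m + l) ≤ |s i|

theorem V_le {m : ℕ} {s : Fin 3 → ℤ} {l l' : ℕ} (h : V m s l) (h' : V m s l') : l' ≤ l := by
  by_contra hc
  refine h.2 fun i => (pow_dvd_pow 16 ?_).trans (h'.1 i)
  omega

theorem V_eq {m : ℕ} {s : Fin 3 → ℤ} {l l' : ℕ} (h : V m s l) (h' : V m s l') : l' = l :=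
  le_antisymm (V_le h h') (V_le h' h)

theorem W_le {m : ℕ} {s : Fin 3 → ℤ} {l l' : ℕ} (h : W m s l) (h' : W m s l') : l' ≤ l + 1 := by
  by_contra hc
  obtain ⟨i, hi⟩ := h'.2
  have h1 := h.1 i
  have h2 : (16 : ℤ) ^ (m + l + 2) ≤ 16 ^ (m + l') :=
    pow_le_pow_right₀ (by norm_num) (by omega)
  have h3 : (16 : ℤ) ^ (m + l + 2) = 256 * 16 ^ (m + l) := by ring
  have h4 : (0 : ℤ) < 16 ^ (m + l) := by positivity
  linarith

theorem V_of {m n n' : ℕ} {g g' : Sgn} {s : Fin 3 → ℤ}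
    (hs : act g (kk m n) + act g' (kk m n') = s) (h : n / 5 < n' / 5) : V m s (n / 5) := by
  subst hs
  obtain ⟨b, hb⟩ : ∃ b, n' / 5 = n / 5 + 1 + b := ⟨n' / 5 - n / 5 - 1, by omega⟩
  have e : ∀ i, (act g (kk m n) + act g' (kk m n')) i =
      16 ^ (m + n / 5) * (act g (kap n) i + 16 * (16 ^ b * act g' (kap n') i)) := by
    intro i
    rw [Pi.add_apply, act_kk, act_kk, hb]
    ring
  refine ⟨fun i => ⟨_, e i⟩, fun hc => ?_⟩
  obtain ⟨i, -, hi⟩ := TriadAux.exists_big' g n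
  refine hi ?_
  have h1 := hc i
  rw [e i, pow_succ] at h1
  have h2 := Int.dvd_of_mul_dvd_mul_left (by positivity) h1
  have h3 : (16 : ℤ) ∣ 16 * (16 ^ b * act g' (kap n') i) := Dvd.intro _ rfl
  exact (Int.dvd_add_left h3).1 h2

theorem W_of {m n n' : ℕ} {g g' : Sgn} {s : Fin 3 → ℤ} (hs0 : s ≠ 0)
    (hs : act g (kk m n) + act g' (kk m n') = s) (h : n / 5 = n' / 5) : W m s (n / 5) := by
  subst hs
  obtain ⟨i, hi, -⟩ := exists_ge m n n' g g' hs0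
  refine ⟨fun j => ?_, i, hi⟩
  have h1 := abs_act_kk_le m n g j
  have h2 := abs_act_kk_le m n' g' j
  rw [← h] at h2
  rw [Pi.add_apply]
  linarith [abs_add_le (act g (kk m n) j) (act g' (kk m n') j)]

end MultAux

open MultAux in
theorem mult (m : ℕ) (s : Fin 3 → ℤ) (hs : s ∉ L m)
    (F : Finset ((Fin 3 → ℤ) × (Fin 3 → ℤ)))
    (hF : ∀ z ∈ F, z.1 ∈ X m ∧ z.2 ∈ X m ∧ z.1 + z.2 = s) : F.card ≤ 1440 := by
  classical
  have hs0 : s ≠ 0 := fun h => hs (Or.inl h)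
  obtain ⟨l₁, hl₁⟩ : ∃ l₁, ∀ l, V m s l → l = l₁ := by
    by_cases h : ∃ l, V m s l
    · obtain ⟨l₁, h₁⟩ := h
      exact ⟨l₁, fun l hl => V_eq h₁ hl⟩
    · exact ⟨0, fun l hl => absurd ⟨l, hl⟩ h⟩
  obtain ⟨l₂, hl₂⟩ : ∃ l₂, ∀ l, W m s l → l = l₂ ∨ l = l₂ + 1 := by
    by_cases h : ∃ l, W m s l
    · refine ⟨Nat.find h, fun l hl => ?_⟩
      have h1 := Nat.find_min' h hl
      have h2 := W_le (Nat.find_spec h) hl
      omega
    · exact ⟨0, fun l hl => absurd ⟨l, hl⟩ h⟩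
  let f : Fin 4 × Fin 5 × Sgn → (Fin 3 → ℤ) × (Fin 3 → ℤ) := fun z =>
    match z.1 with
    | 0 => (act z.2.2 (kk m (5 * l₁ + z.2.1)), s - act z.2.2 (kk m (5 * l₁ + z.2.1)))
    | 1 => (s - act z.2.2 (kk m (5 * l₁ + z.2.1)), act z.2.2 (kk m (5 * l₁ + z.2.1)))
    | 2 => (act z.2.2 (kk m (5 * l₂ + z.2.1)), s - act z.2.2 (kk m (5 * l₂ + z.2.1)))
    | 3 => (act z.2.2 (kk m (5 * (l₂ + 1) + z.2.1)), s - act z.2.2 (kk m (5 * (l₂ + 1) + z.2.1)))
  have hsub : F ⊆ Finset.univ.image f := by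
    rintro ⟨p, q⟩ hz
    obtain ⟨⟨n, g, hp⟩, ⟨n', g', hq⟩, hpq⟩ := hF _ hz
    simp only at hp hq hpq
    have hq2 : q = s - p := by rw [← hpq]; abel
    have hp2 : p = s - q := by rw [← hpq]; abel
    rw [Finset.mem_image]
    rcases lt_trichotomy (n / 5) (n' / 5) with h | h | h
    · have h1 := hl₁ _ (V_of (by rw [← hp, ← hq]; exact hpq) h)
      refine ⟨(0, ⟨n % 5, Nat.mod_lt _ (by norm_num)⟩, g), Finset.mem_univ _, ?_⟩
      have h2 : 5 * l₁ + n % 5 = n := by omega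
      simp only [f, h2]
      rw [← hp, ← hq2]
    · rcases hl₂ _ (W_of hs0 (by rw [← hp, ← hq]; exact hpq) h) with h1 | h1
      · refine ⟨(2, ⟨n % 5, Nat.mod_lt _ (by norm_num)⟩, g), Finset.mem_univ _, ?_⟩
        have h2 : 5 * l₂ + n % 5 = n := by omega
        simp only [f, h2]
        rw [← hp, ← hq2]
      · refine ⟨(3, ⟨n % 5, Nat.mod_lt _ (by norm_num)⟩, g), Finset.mem_univ _, ?_⟩
        have h2 : 5 * (l₂ + 1) + n % 5 = n := by omega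
        simp only [f, h2]
        rw [← hp, ← hq2]
    · have h1 := hl₁ _ (V_of (by rw [← hp, ← hq, add_comm]; exact hpq) h)
      refine ⟨(1, ⟨n' % 5, Nat.mod_lt _ (by norm_num)⟩, g'), Finset.mem_univ _, ?_⟩
      have h2 : 5 * l₁ + n' % 5 = n' := by omega
      simp only [f, h2]
      rw [← hq, ← hp2]
  calc F.card ≤ (Finset.univ.image f).card := Finset.card_le_card hsub
    _ ≤ Fintype.card (Fin 4 × Fin 5 × Sgn) := Finset.card_image_le
    _ = 960 := by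
        rw [Fintype.card_prod, Fintype.card_prod, Fintype.card_fin, Fintype.card_fin, card_sgn]
    _ ≤ 1440 := by norm_num

end Pool.Agent.Work.MP_b0497c_an.Tri
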