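import Mathlib
import Pool.Agent.Work.MP_b0497c_an.Tri.Defs
import Pool.Agent.Work.MP_b0497c_an.Bd.B25
import Pool.Agent.Work.MP_b0497c_an.Tri.Mult

set_option autoImplicit false

/-!
The trilinear bound over the deleted triads.
-/

namespace Pool.Agent.Work.MP_b0497c_an.Tri

open Set MeasureTheory RealInnerProductSpace Pool.Agent.Work.MP_b0497c_an
open Pool.Agent.Work.MP_b0497c_an.Dec

namespace BoundAux

lemma core {ι Z : Type*} [DecidableEq ι] [DecidableEq Z] (F : Finset ι) (x y z : ι → Z)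
    (A B C : Z → ℝ) (a b c : ℝ) (ha : 0 ≤ a) (hb : 0 ≤ b) (hc : 0 ≤ c)
    (h1 : ∀ F : Finset Z, ∑ k ∈ F, A k ^ 2 ≤ a ^ 2)
    (h2 : ∀ F : Finset Z, ∑ k ∈ F, B k ^ 2 ≤ b ^ 2)
    (h3 : ∀ F : Finset Z, ∑ k ∈ F, C k ^ 2 ≤ c ^ 2)
    (hinj : ∀ i ∈ F, ∀ j ∈ F, x i = x j → y i = y j → i = j)
    (hmult : ∀ r, (F.filter fun i => z i = r).card ≤ 1440) :
    ∑ i ∈ F, A (x i) * B (y i) * C (z i) ≤ 40 * (a * b * c) := by
  have e1 : ∑ i ∈ F, (A (x i) * B (y i)) ^ 2 ≤ a ^ 2 * b ^ 2 := by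
    have hi : Set.InjOn (fun i => (x i, y i)) (F : Set ι) := by
      intro i hi j hj hij
      simp only [Prod.mk.injEq] at hij
      exact hinj i (by simpa using hi) j (by simpa using hj) hij.1 hij.2
    have e2 : ∑ i ∈ F, (A (x i) * B (y i)) ^ 2 =
        ∑ p ∈ F.image (fun i => (x i, y i)), (A p.1 * B p.2) ^ 2 := by
      rw [Finset.sum_image hi]
    rw [e2]
    calc ∑ p ∈ F.image (fun i => (x i, y i)), (A p.1 * B p.2) ^ 2
        ≤ ∑ p ∈ (F.image x) ×ˢ (F.image y), (A p.1 * B p.2) ^ 2 := by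
          refine Finset.sum_le_sum_of_subset_of_nonneg ?_ fun _ _ _ => sq_nonneg _
          intro p hp
          obtain ⟨i, hi, rfl⟩ := Finset.mem_image.mp hp
          exact Finset.mem_product.mpr
            ⟨Finset.mem_image_of_mem x hi, Finset.mem_image_of_mem y hi⟩
      _ = (∑ k ∈ F.image x, A k ^ 2) * ∑ k ∈ F.image y, B k ^ 2 := by
          rw [Finset.sum_product, Finset.sum_mul_sum]
          refine Finset.sum_congr rfl fun p _ => Finset.sum_congr rfl fun q _ => ?_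
          ring
      _ ≤ a ^ 2 * b ^ 2 :=
          mul_le_mul (h1 _) (h2 _) (Finset.sum_nonneg fun _ _ => sq_nonneg _) (sq_nonneg _)
  have e3 : ∑ i ∈ F, C (z i) ^ 2 ≤ 1440 * c ^ 2 := by
    have e4 : ∑ i ∈ F, C (z i) ^ 2 =
        ∑ r ∈ F.image z, ∑ i ∈ F with z i = r, C (z i) ^ 2 :=
      (Finset.sum_fiberwise_of_maps_to (fun i hi => Finset.mem_image_of_mem z hi) _).symm
    rw [e4]
    calc ∑ r ∈ F.image z, ∑ i ∈ F with z i = r, C (z i) ^ 2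
        ≤ ∑ r ∈ F.image z, 1440 * C r ^ 2 := by
          refine Finset.sum_le_sum fun r _ => ?_
          have e5 : ∑ i ∈ F with z i = r, C (z i) ^ 2 = ∑ i ∈ F with z i = r, C r ^ 2 := by
            refine Finset.sum_congr rfl fun i hi => ?_
            rw [(Finset.mem_filter.mp hi).2]
          rw [e5, Finset.sum_const, nsmul_eq_mul]
          refine mul_le_mul_of_nonneg_right ?_ (sq_nonneg _)
          exact_mod_cast hmult r
      _ = 1440 * ∑ r ∈ F.image z, C r ^ 2 := by rw [Finset.mul_sum]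
      _ ≤ 1440 * c ^ 2 := mul_le_mul_of_nonneg_left (h3 _) (by norm_num)
  have e6 := Finset.sum_mul_sq_le_sq_mul_sq F (fun i => A (x i) * B (y i)) (fun i => C (z i))
  have e7 : (∑ i ∈ F, A (x i) * B (y i) * C (z i)) ^ 2 ≤ (40 * (a * b * c)) ^ 2 := by
    calc (∑ i ∈ F, A (x i) * B (y i) * C (z i)) ^ 2
        ≤ (∑ i ∈ F, (A (x i) * B (y i)) ^ 2) * ∑ i ∈ F, C (z i) ^ 2 := e6
      _ ≤ (a ^ 2 * b ^ 2) * (1440 * c ^ 2) :=
          mul_le_mul e1 e3 (Finset.sum_nonneg fun _ _ => sq_nonneg _) (by positivity)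
      _ ≤ (40 * (a * b * c)) ^ 2 := by nlinarith [sq_nonneg (a * b * c)]
  exact le_of_abs_le (abs_le_of_sq_le_sq e7 (by positivity))

lemma neg_mem_L {m : ℕ} {k : Fin 3 → ℤ} (hk : -k ∈ L m) : k ∈ L m := by
  have h : act ((1 : Equiv.Perm (Fin 3)), fun _ => -1) k = -k := by
    ext i; simp [act]
  rw [← act_mem_L m ((1 : Equiv.Perm (Fin 3)), fun _ => -1) k, h]
  exact hk

/-- Multiplicity of the mode outside the chain. -/
lemma fiber {m : ℕ} {ι : Type*} [DecidableEq ι] (F : Finset ι) (x y z : ι → Fin 3 → ℤ)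
    (hF : ∀ i ∈ F, x i ∈ X m ∧ y i ∈ X m ∧ z i ∉ L m ∧ x i + y i + z i = 0)
    (hinj : ∀ i ∈ F, ∀ j ∈ F, x i = x j → y i = y j → i = j) (r : Fin 3 → ℤ) :
    (F.filter fun i => z i = r).card ≤ 1440 := by
  classical
  rcases (F.filter fun i => z i = r).eq_empty_or_nonempty with h0 | ⟨i0, hi0⟩
  · rw [h0]; simp
  · have hr : -r ∉ L m := by
      obtain ⟨h1, h2⟩ := Finset.mem_filter.mp hi0
      intro hcon
      exact (hF i0 h1).2.2.1 (h2 ▸ neg_mem_L hcon)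
    have hi : Set.InjOn (fun i => (x i, y i)) ((F.filter fun i => z i = r : Finset ι) : Set ι) := by
      intro i hi j hj hij
      simp only [Prod.mk.injEq] at hij
      have hi' := (Finset.mem_filter.mp (Finset.mem_coe.mp hi)).1
      have hj' := (Finset.mem_filter.mp (Finset.mem_coe.mp hj)).1
      exact hinj i hi' j hj' hij.1 hij.2
    rw [← Finset.card_image_of_injOn hi]
    refine mult m (-r) hr _ ?_
    intro p hp
    obtain ⟨i, hi, rfl⟩ := Finset.mem_image.mp hp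
    obtain ⟨hi1, hi2⟩ := Finset.mem_filter.mp hi
    obtain ⟨h1, h2, -, h4⟩ := hF i hi1
    refine ⟨h1, h2, ?_⟩
    rw [← hi2]
    exact eq_neg_of_add_eq_zero_left h4

end BoundAux

theorem DD_bound (m : ℕ) (A B C : (Fin 3 → ℤ) → ℝ) (hA : ∀ k, 0 ≤ A k) (hB : ∀ k, 0 ≤ B k)
    (hC : ∀ k, 0 ≤ C k) (a b c : ℝ) (ha : 0 ≤ a) (hb : 0 ≤ b) (hc : 0 ≤ c)
    (h1 : ∀ F : Finset (Fin 3 → ℤ), ∑ k ∈ F, A k ^ 2 ≤ a ^ 2)
    (h2 : ∀ F : Finset (Fin 3 → ℤ), ∑ k ∈ F, B k ^ 2 ≤ b ^ 2)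
    (h3 : ∀ F : Finset (Fin 3 → ℤ), ∑ k ∈ F, C k ^ 2 ≤ c ^ 2)
    (F : Finset ((Fin 3 → ℤ) × (Fin 3 → ℤ) × (Fin 3 → ℤ))) (hF : ∀ z ∈ F, z ∈ DD m) :
    ∑ z ∈ F, A z.1 * B z.2.1 * C z.2.2 ≤ 120 * (a * b * c) := by
  classical
  set F1 := F.filter fun z => z.1 ∈ X m ∧ z.2.1 ∈ X m ∧ z.2.2 ∉ L m with hF1
  set F2 := F.filter fun z => z.2.1 ∈ X m ∧ z.2.2 ∈ X m ∧ z.1 ∉ L m with hF2
  set F3 := F.filter fun z => z.2.2 ∈ X m ∧ z.1 ∈ X m ∧ z.2.1 ∉ L m with hF3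
  have hsum : ∀ z ∈ F, z.1 + z.2.1 + z.2.2 = 0 := fun z hz => (hF z hz).1
  have hnn : ∀ z : (Fin 3 → ℤ) × (Fin 3 → ℤ) × (Fin 3 → ℤ), 0 ≤ A z.1 * B z.2.1 * C z.2.2 :=
    fun z => mul_nonneg (mul_nonneg (hA _) (hB _)) (hC _)
  have hcov : ∑ z ∈ F, A z.1 * B z.2.1 * C z.2.2 ≤
      ∑ z ∈ F1, A z.1 * B z.2.1 * C z.2.2 + ∑ z ∈ F2, A z.1 * B z.2.1 * C z.2.2 +
        ∑ z ∈ F3, A z.1 * B z.2.1 * C z.2.2 := by
    rw [hF1, hF2, hF3, Finset.sum_filter, Finset.sum_filter, Finset.sum_filter,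
      ← Finset.sum_add_distrib, ← Finset.sum_add_distrib]
    refine Finset.sum_le_sum fun z hz => ?_
    have h0 := hnn z
    rcases (hF z hz).2 with h | h | h
    · rw [if_pos h]
      split_ifs <;> linarith
    · rw [if_pos h]
      split_ifs <;> linarith
    · rw [if_pos h]
      split_ifs <;> linarith
  -- the three parts
  have i1 : ∀ z ∈ F1, ∀ z' ∈ F1, z.1 = z'.1 → z.2.1 = z'.2.1 → z = z' := by
    intro z hz z' hz' e1 e2
    have s1 := hsum z (Finset.mem_filter.mp hz).1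
    have s2 := hsum z' (Finset.mem_filter.mp hz').1
    refine Prod.ext e1 (Prod.ext e2 ?_)
    rw [e1, e2, ← s2] at s1
    exact add_left_cancel s1
  have i2 : ∀ z ∈ F2, ∀ z' ∈ F2, z.2.1 = z'.2.1 → z.2.2 = z'.2.2 → z = z' := by
    intro z hz z' hz' e1 e2
    have s1 := hsum z (Finset.mem_filter.mp hz).1
    have s2 := hsum z' (Finset.mem_filter.mp hz').1
    refine Prod.ext ?_ (Prod.ext e1 e2)
    rw [e1, e2, ← s2] at s1
    exact add_right_cancel (add_right_cancel s1)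
  have i3 : ∀ z ∈ F3, ∀ z' ∈ F3, z.2.2 = z'.2.2 → z.1 = z'.1 → z = z' := by
    intro z hz z' hz' e1 e2
    have s1 := hsum z (Finset.mem_filter.mp hz).1
    have s2 := hsum z' (Finset.mem_filter.mp hz').1
    refine Prod.ext e2 (Prod.ext ?_ e1)
    rw [e1, e2, ← s2] at s1
    exact add_left_cancel (add_right_cancel s1)
  have b1 : ∑ z ∈ F1, A z.1 * B z.2.1 * C z.2.2 ≤ 40 * (a * b * c) := by
    refine BoundAux.core F1 (fun z => z.1) (fun z => z.2.1) (fun z => z.2.2) A B C a b c ha hb hc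
      h1 h2 h3 i1 (BoundAux.fiber (m := m) F1 _ _ _ ?_ i1)
    intro z hz
    obtain ⟨hz1, hz2, hz3, hz4⟩ := Finset.mem_filter.mp hz
    exact ⟨hz2, hz3, hz4, hsum z hz1⟩
  have b2 : ∑ z ∈ F2, A z.1 * B z.2.1 * C z.2.2 ≤ 40 * (a * b * c) := by
    have := BoundAux.core F2 (fun z => z.2.1) (fun z => z.2.2) (fun z => z.1) B C A b c a hb hc ha
      h2 h3 h1 i2 (BoundAux.fiber (m := m) F2 _ _ _ ?_ i2)
    · calc ∑ z ∈ F2, A z.1 * B z.2.1 * C z.2.2 = ∑ z ∈ F2, B z.2.1 * C z.2.2 * A z.1 :=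
            Finset.sum_congr rfl fun z _ => by ring
        _ ≤ 40 * (b * c * a) := this
        _ = _ := by ring
    · intro z hz
      obtain ⟨hz1, hz2, hz3, hz4⟩ := Finset.mem_filter.mp hz
      refine ⟨hz2, hz3, hz4, ?_⟩
      have := hsum z hz1
      rw [← this]; abel
  have b3 : ∑ z ∈ F3, A z.1 * B z.2.1 * C z.2.2 ≤ 40 * (a * b * c) := by
    have := BoundAux.core F3 (fun z => z.2.2) (fun z => z.1) (fun z => z.2.1) C A B c a b hc ha hb
      h3 h1 h2 i3 (BoundAux.fiber (m := m) F3 _ _ _ ?_ i3)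
    · calc ∑ z ∈ F3, A z.1 * B z.2.1 * C z.2.2 = ∑ z ∈ F3, C z.2.2 * A z.1 * B z.2.1 :=
            Finset.sum_congr rfl fun z _ => by ring
        _ ≤ 40 * (c * a * b) := this
        _ = _ := by ring
    · intro z hz
      obtain ⟨hz1, hz2, hz3, hz4⟩ := Finset.mem_filter.mp hz
      refine ⟨hz2, hz3, hz4, ?_⟩
      have := hsum z hz1
      rw [← this]; abel
  linarith

end Pool.Agent.Work.MP_b0497c_an.Tri
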