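import Pool.Agent.Work.MP_b0497c_an.Tri.Struct
import Pool.Agent.Work.MP_b0497c_an.Tri.Bound
import Pool.Agent.Work.MP_b0497c_an.Tri.Bessel

set_option autoImplicit false

/-!
The deleted form: summability and bounds.
-/

namespace Pool.Agent.Work.MP_b0497c_an.Tri

open Set MeasureTheory RealInnerProductSpace Pool.Agent.Work.MP_b0497c_an Filter Topology
open Pool.Agent.Work.MP_b0497c_an.Dec
open scoped ContDiff

namespace FormAux

theorem norm_vec_sq (k : Fin 3 → ℤ) : ‖vec k‖ ^ 2 = ∑ i, (k i : ℝ) ^ 2 := by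
  rw [EuclideanSpace.norm_sq_eq]
  refine Finset.sum_congr rfl (fun i _ => ?_)
  unfold vec
  fin_cases i <;> simp

theorem le_norm_vec {m : ℕ} {k : Fin 3 → ℤ} (h : ∃ i, 16 ^ m ≤ |k i|) :
    (16 : ℝ) ^ m ≤ ‖vec k‖ := by
  obtain ⟨i, hi⟩ := h
  have h1 : ((16 : ℝ) ^ m) ^ 2 ≤ ‖vec k‖ ^ 2 := by
    rw [norm_vec_sq]
    have h2 : ((16 : ℝ) ^ m) ≤ |(k i : ℝ)| := by exact_mod_cast hi
    calc ((16 : ℝ) ^ m) ^ 2 ≤ |(k i : ℝ)| ^ 2 := by gcongr
      _ = (k i : ℝ) ^ 2 := sq_abs _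
      _ ≤ ∑ i, (k i : ℝ) ^ 2 := Finset.single_le_sum (f := fun i => (k i : ℝ) ^ 2)
          (fun i _ => sq_nonneg _) (Finset.mem_univ i)
  exact le_of_sq_le_sq h1 (norm_nonneg _)

/-- Cauchy-Schwarz for complex sums. -/
theorem norm_sum_mul_le (a b : Fin 3 → ℂ) :
    ‖∑ i, a i * b i‖ ≤ Real.sqrt (∑ i, ‖a i‖ ^ 2) * Real.sqrt (∑ i, ‖b i‖ ^ 2) := by
  calc ‖∑ i, a i * b i‖ ≤ ∑ i, ‖a i * b i‖ := norm_sum_le _ _
    _ = ∑ i, ‖a i‖ * ‖b i‖ := by simp only [norm_mul]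
    _ ≤ _ := Real.sum_mul_le_sqrt_mul_sqrt _ _ _

theorem fn_nonneg (f : EuclideanSpace ℝ (Fin 3) → EuclideanSpace ℝ (Fin 3)) (k : Fin 3 → ℤ) :
    0 ≤ fn f k := Real.sqrt_nonneg _

theorem interact_le (u v φ : EuclideanSpace ℝ (Fin 3) → EuclideanSpace ℝ (Fin 3))
    (p q r : Fin 3 → ℤ) :
    |interact u v φ p q r| ≤ fn u p * (‖vec q‖ * fn v q) * fn φ r / (2 * Real.pi) ^ 6 := by
  have hpi : (0 : ℝ) < (2 * Real.pi) ^ 6 := by positivity
  unfold interact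
  rw [abs_div, abs_of_pos hpi]
  refine div_le_div_of_nonneg_right ?_ hpi.le
  refine (Complex.abs_re_le_norm _).trans ?_
  rw [norm_mul, norm_mul, Complex.norm_I, one_mul]
  have h1 : ‖∑ i, fc u p i * (q i : ℂ)‖ ≤ fn u p * ‖vec q‖ := by
    refine (norm_sum_mul_le _ _).trans ?_
    have h2 : Real.sqrt (∑ i, ‖((q i : ℤ) : ℂ)‖ ^ 2) = ‖vec q‖ := by
      rw [← Real.sqrt_sq (norm_nonneg (vec q)), norm_vec_sq]
      congr 1
      refine Finset.sum_congr rfl (fun i _ => ?_)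
      rw [Complex.norm_intCast, sq_abs]
    rw [h2]
    exact le_refl _
  have h3 : ‖∑ j, fc v q j * fc φ r j‖ ≤ fn v q * fn φ r := norm_sum_mul_le _ _
  calc ‖∑ i, fc u p i * (q i : ℂ)‖ * ‖∑ j, fc v q j * fc φ r j‖
      ≤ (fn u p * ‖vec q‖) * (fn v q * fn φ r) :=
        mul_le_mul h1 h3 (norm_nonneg _) (mul_nonneg (fn_nonneg _ _) (norm_nonneg _))
    _ = fn u p * (‖vec q‖ * fn v q) * fn φ r := by ring

theorem nL_nonneg (f : EuclideanSpace ℝ (Fin 3) → EuclideanSpace ℝ (Fin 3)) : 0 ≤ nL f :=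
  Real.sqrt_nonneg _

theorem nG_nonneg (f : EuclideanSpace ℝ (Fin 3) → EuclideanSpace ℝ (Fin 3)) : 0 ≤ nG f :=
  Real.sqrt_nonneg _

/-- The general bound. -/
theorem core (m : ℕ) (u v φ : EuclideanSpace ℝ (Fin 3) → EuclideanSpace ℝ (Fin 3)) (κ : ℝ)
    (hκ : 0 < κ) (A B C : (Fin 3 → ℤ) → ℝ) (hA : ∀ k, 0 ≤ A k) (hB : ∀ k, 0 ≤ B k)
    (hC : ∀ k, 0 ≤ C k) (a b c : ℝ) (ha : 0 ≤ a) (hb : 0 ≤ b) (hc : 0 ≤ c)
    (h1 : ∀ F : Finset (Fin 3 → ℤ), ∑ k ∈ F, A k ^ 2 ≤ (2 * Real.pi) ^ 3 * a ^ 2)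
    (h2 : ∀ F : Finset (Fin 3 → ℤ), ∑ k ∈ F, B k ^ 2 ≤ (2 * Real.pi) ^ 3 * b ^ 2)
    (h3 : ∀ F : Finset (Fin 3 → ℤ), ∑ k ∈ F, C k ^ 2 ≤ (2 * Real.pi) ^ 3 * c ^ 2)
    (hle : ∀ z ∈ DD m, κ * |interact u v φ z.1 z.2.1 z.2.2| ≤
      A z.1 * B z.2.1 * C z.2.2 / (2 * Real.pi) ^ 6) :
    Summable (fun z : DD m => interact u v φ z.1.1 z.1.2.1 z.1.2.2) ∧
      κ * |Del (DD m) u v φ| ≤ 120 * (a * b * c) := by
  set s : ℝ := Real.sqrt ((2 * Real.pi) ^ 3) with hs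
  have hpi1 : (1 : ℝ) ≤ 2 * Real.pi := by linarith [Real.pi_gt_three]
  have hs2 : s ^ 2 = (2 * Real.pi) ^ 3 := Real.sq_sqrt (by positivity)
  have hs1 : 1 ≤ s := by
    rw [hs]
    exact Real.one_le_sqrt.2 (one_le_pow₀ hpi1)
  have hs0 : 0 < s := by linarith
  have hpow : (2 * Real.pi) ^ 6 = s ^ 4 := by
    have : s ^ 4 = (s ^ 2) ^ 2 := by ring
    rw [this, hs2]
    ring
  have hfin : ∀ F : Finset (DD m),
      ∑ z ∈ F, κ * |interact u v φ z.1.1 z.1.2.1 z.1.2.2| ≤ 120 * (a * b * c) := by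
    intro F
    have hb1 := DD_bound m A B C hA hB hC (s * a) (s * b) (s * c) (by positivity) (by positivity)
      (by positivity) (fun F => by rw [mul_pow, hs2]; exact h1 F)
      (fun F => by rw [mul_pow, hs2]; exact h2 F) (fun F => by rw [mul_pow, hs2]; exact h3 F)
      (F.map (Function.Embedding.subtype _)) (fun z hz => by
        rw [Finset.mem_map] at hz
        obtain ⟨y, -, rfl⟩ := hz
        exact y.2)
    rw [Finset.sum_map] at hb1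
    calc ∑ z ∈ F, κ * |interact u v φ z.1.1 z.1.2.1 z.1.2.2|
        ≤ ∑ z ∈ F, A z.1.1 * B z.1.2.1 * C z.1.2.2 / (2 * Real.pi) ^ 6 :=
          Finset.sum_le_sum (fun z _ => hle z.1 z.2)
      _ = (∑ z ∈ F, A z.1.1 * B z.1.2.1 * C z.1.2.2) / (2 * Real.pi) ^ 6 := by
          rw [Finset.sum_div]
      _ ≤ (120 * (s * a * (s * b) * (s * c))) / (2 * Real.pi) ^ 6 := by
          refine div_le_div_of_nonneg_right hb1 (by positivity)
      _ = 120 * (a * b * c) / s := by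
          rw [hpow]
          field_simp
      _ ≤ 120 * (a * b * c) := div_le_self (by positivity) hs1
  have hsum : Summable (fun z : DD m => κ * |interact u v φ z.1.1 z.1.2.1 z.1.2.2|) :=
    summable_of_sum_le (fun z => by positivity) hfin
  have hsum' : Summable (fun z : DD m => |interact u v φ z.1.1 z.1.2.1 z.1.2.2|) :=
    (summable_mul_left_iff hκ.ne').1 hsum
  have hsum2 : Summable (fun z : DD m => interact u v φ z.1.1 z.1.2.1 z.1.2.2) :=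
    hsum'.of_abs
  refine ⟨hsum2, ?_⟩
  calc κ * |Del (DD m) u v φ| ≤ κ * ∑' z : DD m, |interact u v φ z.1.1 z.1.2.1 z.1.2.2| := by
        refine mul_le_mul_of_nonneg_left ?_ hκ.le
        have h := norm_tsum_le_tsum_norm (f := fun z : DD m =>
          interact u v φ z.1.1 z.1.2.1 z.1.2.2) (by simpa only [Real.norm_eq_abs] using hsum')
        simpa only [Real.norm_eq_abs, Del] using h
    _ = ∑' z : DD m, κ * |interact u v φ z.1.1 z.1.2.1 z.1.2.2| := tsum_mul_left.symm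
    _ ≤ 120 * (a * b * c) := hsum.tsum_le_of_sum_le hfin

end FormAux

open FormAux

theorem Del_summable (m : ℕ)
    {u v φ : EuclideanSpace ℝ (Fin 3) → EuclideanSpace ℝ (Fin 3)}
    (hu : Continuous u) (hv : ContDiff ℝ 1 v) (hv' : Periodic3 v) (hφ : Continuous φ) :
    Summable (fun z : DD m => interact u v φ z.1.1 z.1.2.1 z.1.2.2) :=
  (core m u v φ 1 one_pos (fn u) (fun k => ‖vec k‖ * fn v k) (fn φ) (fn_nonneg u)
    (fun k => mul_nonneg (norm_nonneg _) (fn_nonneg v k)) (fn_nonneg φ) (nL u) (nG v) (nL φ)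
    (nL_nonneg u) (nG_nonneg v) (nL_nonneg φ) (bessel hu) (bessel_grad hv hv') (bessel hφ)
    (fun z _ => by rw [one_mul]; exact interact_le u v φ z.1 z.2.1 z.2.2)).1

theorem Del_bound (m : ℕ) {u v φ : EuclideanSpace ℝ (Fin 3) → EuclideanSpace ℝ (Fin 3)}
    (hu : Continuous u) (hv : ContDiff ℝ 1 v) (hv' : Periodic3 v) (hφ : Continuous φ) :
    |Del (DD m) u v φ| ≤ 120 * (nL u * nG v * nL φ) := by
  have h := (core m u v φ 1 one_pos (fn u) (fun k => ‖vec k‖ * fn v k) (fn φ) (fn_nonneg u)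
    (fun k => mul_nonneg (norm_nonneg _) (fn_nonneg v k)) (fn_nonneg φ) (nL u) (nG v) (nL φ)
    (nL_nonneg u) (nG_nonneg v) (nL_nonneg φ) (bessel hu) (bessel_grad hv hv') (bessel hφ)
    (fun z _ => by rw [one_mul]; exact interact_le u v φ z.1 z.2.1 z.2.2)).2
  rwa [one_mul] at h

theorem Del_small (m : ℕ) {u v φ : EuclideanSpace ℝ (Fin 3) → EuclideanSpace ℝ (Fin 3)}
    (hu : ContDiff ℝ 1 u) (hu' : Periodic3 u) (hv : ContDiff ℝ 1 v) (hv' : Periodic3 v)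
    (hφ : Continuous φ) :
    16 ^ m * |Del (DD m) u v φ| ≤ 120 * (nG u * nG v * nL φ) := by
  refine (core m u v φ (16 ^ m) (by positivity) (fun k => ‖vec k‖ * fn u k)
    (fun k => ‖vec k‖ * fn v k) (fn φ) (fun k => mul_nonneg (norm_nonneg _) (fn_nonneg u k))
    (fun k => mul_nonneg (norm_nonneg _) (fn_nonneg v k)) (fn_nonneg φ) (nG u) (nG v) (nL φ)
    (nG_nonneg u) (nG_nonneg v) (nL_nonneg φ) (bessel_grad hu hu') (bessel_grad hv hv')
    (bessel hφ) (fun z hz => ?_)).2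
  have h1 := le_norm_vec (DD_large hz).1
  have h2 := interact_le u v φ z.1 z.2.1 z.2.2
  have hX : 0 ≤ fn u z.1 * (‖vec z.2.1‖ * fn v z.2.1) * fn φ z.2.2 / (2 * Real.pi) ^ 6 := by
    have := fn_nonneg u z.1
    have := fn_nonneg v z.2.1
    have := fn_nonneg φ z.2.2
    positivity
  calc (16 : ℝ) ^ m * |interact u v φ z.1 z.2.1 z.2.2|
      ≤ ‖vec z.1‖ * (fn u z.1 * (‖vec z.2.1‖ * fn v z.2.1) * fn φ z.2.2 / (2 * Real.pi) ^ 6) :=
        mul_le_mul h1 h2 (abs_nonneg _) (norm_nonneg _)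
    _ = _ := by ring

end Pool.Agent.Work.MP_b0497c_an.Tri
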