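import Pool.Agent.Work.MP_b0497c_an.Tri.Form
import Pool.Agent.Work.MP_b0497c_an.Dec.CubeInt

set_option autoImplicit false

/-!
The deleted form is antisymmetric in the last two arguments and trilinear.
-/

namespace Pool.Agent.Work.MP_b0497c_an.Tri

open Set MeasureTheory RealInnerProductSpace Pool.Agent.Work.MP_b0497c_an Filter Topology
open Pool.Agent.Work.MP_b0497c_an.Dec
open scoped ContDiff

namespace AntiAux

theorem integrable_fc {f : EuclideanSpace ℝ (Fin 3) → EuclideanSpace ℝ (Fin 3)}
    (hf : Continuous f) (k : Fin 3 → ℤ) (i : Fin 3) :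
    IntegrableOn (fun x => Complex.exp (-(Complex.I * (phase k x : ℂ))) * ((f x i : ℝ) : ℂ))
      cube := by
  refine ContinuousOn.integrableOn_compact cube_compact (Continuous.continuousOn ?_)
  have h1 : Continuous (fun x : EuclideanSpace ℝ (Fin 3) => phase k x) := by
    unfold phase
    fun_prop
  have h2 : Continuous (fun x : EuclideanSpace ℝ (Fin 3) => f x i) := by fun_prop
  fun_prop

theorem fc_sub {u v : EuclideanSpace ℝ (Fin 3) → EuclideanSpace ℝ (Fin 3)}
    (hu : Continuous u) (hv : Continuous v) (k : Fin 3 → ℤ) (i : Fin 3) :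
    fc (fun x => u x - v x) k i = fc u k i - fc v k i := by
  unfold fc
  rw [← integral_sub (integrable_fc hu k i) (integrable_fc hv k i)]
  congr 1
  funext x
  rw [PiLp.sub_apply]
  push_cast
  ring

/-- The involution `(p, q, r) ↦ (p, r, q)`. -/
def inv (m : ℕ) : DD m ≃ DD m where
  toFun z := ⟨(z.1.1, z.1.2.2, z.1.2.1), DD_cycle (DD_swap z.2)⟩
  invFun z := ⟨(z.1.1, z.1.2.2, z.1.2.1), DD_cycle (DD_swap z.2)⟩
  left_inv _ := rfl
  right_inv _ := rfl

theorem interact_swap {v : EuclideanSpace ℝ (Fin 3) → EuclideanSpace ℝ (Fin 3)}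
    (w : EuclideanSpace ℝ (Fin 3) → EuclideanSpace ℝ (Fin 3))
    (hv : IsField v) {p q r : Fin 3 → ℤ} (h : p + q + r = 0) :
    interact v w w p r q = - interact v w w p q r := by
  have h1 : ∑ i, fc v p i * (r i : ℂ) = - ∑ i, fc v p i * (q i : ℂ) := by
    have h2 := fc_div hv p
    have h3 : ∑ i, fc v p i * (r i : ℂ) + ∑ i, fc v p i * (q i : ℂ) +
        ∑ i, fc v p i * (p i : ℂ) = 0 := by
      rw [← Finset.sum_add_distrib, ← Finset.sum_add_distrib]
      refine Finset.sum_eq_zero (fun i _ => ?_)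
      have h4 : (p i : ℂ) + (q i : ℂ) + (r i : ℂ) = 0 := by
        have := congrFun h i
        simp only [Pi.add_apply, Pi.zero_apply] at this
        exact_mod_cast congrArg (fun z : ℤ => (z : ℂ)) this
      linear_combination (fc v p i) * h4
    rw [h2, add_zero] at h3
    exact eq_neg_of_add_eq_zero_left h3
  have h5 : ∑ j, fc w r j * fc w q j = ∑ j, fc w q j * fc w r j :=
    Finset.sum_congr rfl (fun j _ => mul_comm _ _)
  unfold interact
  rw [h1, h5, mul_neg, neg_mul, Complex.neg_re, neg_div]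

theorem interact_sub_left {u v : EuclideanSpace ℝ (Fin 3) → EuclideanSpace ℝ (Fin 3)}
    (hu : Continuous u) (hv : Continuous v)
    (w φ : EuclideanSpace ℝ (Fin 3) → EuclideanSpace ℝ (Fin 3)) (p q r : Fin 3 → ℤ) :
    interact (fun x => u x - v x) w φ p q r = interact u w φ p q r - interact v w φ p q r := by
  unfold interact
  rw [← sub_div, ← Complex.sub_re]
  congr 2
  have h1 : ∑ i, fc (fun x => u x - v x) p i * (q i : ℂ) =
      ∑ i, fc u p i * (q i : ℂ) - ∑ i, fc v p i * (q i : ℂ) := by
    rw [← Finset.sum_sub_distrib]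
    exact Finset.sum_congr rfl (fun i _ => by rw [fc_sub hu hv, sub_mul])
  rw [h1]
  ring

theorem interact_sub_mid {u v : EuclideanSpace ℝ (Fin 3) → EuclideanSpace ℝ (Fin 3)}
    (hu : Continuous u) (hv : Continuous v)
    (w φ : EuclideanSpace ℝ (Fin 3) → EuclideanSpace ℝ (Fin 3)) (p q r : Fin 3 → ℤ) :
    interact w (fun x => u x - v x) φ p q r = interact w u φ p q r - interact w v φ p q r := by
  unfold interact
  rw [← sub_div, ← Complex.sub_re]
  congr 2
  have h1 : ∑ j, fc (fun x => u x - v x) q j * fc φ r j =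
      ∑ j, fc u q j * fc φ r j - ∑ j, fc v q j * fc φ r j := by
    rw [← Finset.sum_sub_distrib]
    exact Finset.sum_congr rfl (fun i _ => by rw [fc_sub hu hv, sub_mul])
  rw [h1]
  ring

theorem isField_sub {u v : EuclideanSpace ℝ (Fin 3) → EuclideanSpace ℝ (Fin 3)}
    (hu : IsField u) (hv : IsField v) : IsField (fun x => u x - v x) where
  contDiff := hu.contDiff.sub hv.contDiff
  periodic := fun x i => by
    have h1 := hu.periodic x i
    have h2 := hv.periodic x i
    dsimp only
    rw [h1, h2]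
  div_free := fun x => by
    have h1 : fderiv ℝ (fun x => u x - v x) x = fderiv ℝ u x - fderiv ℝ v x :=
      fderiv_fun_sub (hu.contDiff.differentiable one_ne_zero x)
        (hv.contDiff.differentiable one_ne_zero x)
    rw [h1]
    have h2 := hu.div_free x
    have h3 := hv.div_free x
    have h4 : ((fderiv ℝ u x - fderiv ℝ v x : EuclideanSpace ℝ (Fin 3) →L[ℝ]
        EuclideanSpace ℝ (Fin 3)) : EuclideanSpace ℝ (Fin 3) →ₗ[ℝ] EuclideanSpace ℝ (Fin 3)) =
        (fderiv ℝ u x : EuclideanSpace ℝ (Fin 3) →ₗ[ℝ] EuclideanSpace ℝ (Fin 3)) -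
        (fderiv ℝ v x : EuclideanSpace ℝ (Fin 3) →ₗ[ℝ] EuclideanSpace ℝ (Fin 3)) := rfl
    rw [h4, map_sub, h2, h3, sub_zero]

end AntiAux

open AntiAux

theorem Del_anti (m : ℕ) {v w : EuclideanSpace ℝ (Fin 3) → EuclideanSpace ℝ (Fin 3)}
    (hv : IsField v) (hw : IsField w) : Del (DD m) v w w = 0 := by
  have h1 : ∑' z : DD m, interact v w w (inv m z).1.1 (inv m z).1.2.1 (inv m z).1.2.2 =
      Del (DD m) v w w :=
    (inv m).tsum_eq (fun z : DD m => interact v w w z.1.1 z.1.2.1 z.1.2.2)
  have h2 : ∑' z : DD m, interact v w w (inv m z).1.1 (inv m z).1.2.1 (inv m z).1.2.2 =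
      - Del (DD m) v w w := by
    unfold Del
    rw [← tsum_neg]
    refine tsum_congr (fun z => ?_)
    exact interact_swap w hv (DD_sum z.2)
  have h3 := h1.symm.trans h2
  linarith

theorem Del_diff (m : ℕ) {u v : EuclideanSpace ℝ (Fin 3) → EuclideanSpace ℝ (Fin 3)}
    (hu : IsField u) (hv : IsField v) :
    Del (DD m) u u (fun x => u x - v x) - Del (DD m) v v (fun x => u x - v x)
      = Del (DD m) (fun x => u x - v x) v (fun x => u x - v x) := by
  set w : EuclideanSpace ℝ (Fin 3) → EuclideanSpace ℝ (Fin 3) := fun x => u x - v x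
  have hwf : IsField w := isField_sub hu hv
  have hcu := hu.contDiff.continuous
  have hcv := hv.contDiff.continuous
  have hcw := hwf.contDiff.continuous
  have s1 := Del_summable m hcu hu.contDiff hu.periodic hcw
  have s2 := Del_summable m hcu hv.contDiff hv.periodic hcw
  have s3 := Del_summable m hcv hv.contDiff hv.periodic hcw
  have e1 : Del (DD m) u w w = Del (DD m) u u w - Del (DD m) u v w := by
    unfold Del
    rw [← s1.tsum_sub s2]
    exact tsum_congr (fun z => interact_sub_mid hcu hcv _ _ _ _ _)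
  have e2 : Del (DD m) w v w = Del (DD m) u v w - Del (DD m) v v w := by
    unfold Del
    rw [← s2.tsum_sub s3]
    exact tsum_congr (fun z => interact_sub_left hcu hcv _ _ _ _ _)
  have e3 := Del_anti m hu hwf
  rw [e1] at e3
  rw [e2]
  linarith

end Pool.Agent.Work.MP_b0497c_an.Tri
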