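import Mathlib
import Pool.Agent.Work.MP_b0497c_an.Tri.Defs
import Pool.Agent.Work.MP_b0497c_an.Bd.B25

set_option autoImplicit false

/-!
Easy facts on the set of deleted triads.
-/

namespace Pool.Agent.Work.MP_b0497c_an.Tri

open Set MeasureTheory RealInnerProductSpace Pool.Agent.Work.MP_b0497c_an Filter Topology
open Pool.Agent.Work.MP_b0497c_an.Dec
open scoped ContDiff

namespace StructAux

theorem X_large {m : ℕ} {k : Fin 3 → ℤ} (hk : k ∈ X m) : ∃ i, 16 ^ m ≤ |k i| := by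
  obtain ⟨n, g, rfl⟩ := hk
  obtain ⟨i, hi⟩ := exists_act_kk_ge m n g
  refine ⟨i, le_trans ?_ hi⟩
  have h2 : (16 : ℤ) ^ m ≤ 16 ^ (m + n / 5) := pow_le_pow_right₀ (by norm_num) (by omega)
  have h3 : (0 : ℤ) < 16 ^ (m + n / 5) := by positivity
  linarith

theorem compl_large {m : ℕ} {k : Fin 3 → ℤ} (hk : k ∉ L m) : ∃ i, 16 ^ m ≤ |k i| := by
  by_contra hc
  push Not at hc
  exact hk (mem_L_of_small m k hc)

theorem act_mem_X_iff (m : ℕ) (g : Sgn) (k : Fin 3 → ℤ) : act g k ∈ X m ↔ k ∈ X m := by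
  refine ⟨fun h => ?_, fun h => act_mem_X m g h⟩
  have h1 := act_mem_X m (inv' g) h
  rwa [act_inv] at h1

theorem act_eq_zero (g : Sgn) (k : Fin 3 → ℤ) : act g k = 0 ↔ k = 0 := by
  refine ⟨fun h => ?_, fun h => by rw [h, act_zero]⟩
  have h1 := act_inv g k
  rw [h, act_zero] at h1
  exact h1.symm

/-- The triad with two given modes. -/
def tri (j : Fin 3) (a b : Fin 3 → ℤ) : (Fin 3 → ℤ) × (Fin 3 → ℤ) × (Fin 3 → ℤ) :=
  match j with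
  | 0 => (a, b, -(a + b))
  | 1 => (-(a + b), a, b)
  | 2 => (b, -(a + b), a)

theorem X_level {m N : ℕ} {k : Fin 3 → ℤ} (hk : k ∈ X m) (hN : ∀ i, |k i| ≤ (N : ℤ)) :
    ∃ z : Fin (5 * (Nat.log 16 N + 1)) × Sgn, k = act z.2 (kk m z.1) := by
  obtain ⟨n, g, rfl⟩ := hk
  obtain ⟨i, hi⟩ := exists_act_kk_ge m n g
  have h3 : (0 : ℤ) < 16 ^ (m + n / 5) := by positivity
  have h4 : (16 : ℤ) ^ (m + n / 5) ≤ |act g (kk m n) i| := by linarith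
  exact ⟨(⟨n, level_le h4 (hN i)⟩, g), rfl⟩

end StructAux

open StructAux

theorem DD_sum {m : ℕ} {p q r : Fin 3 → ℤ} (h : (p, q, r) ∈ DD m) : p + q + r = 0 := h.1

theorem DD_large {m : ℕ} {p q r : Fin 3 → ℤ} (h : (p, q, r) ∈ DD m) :
    (∃ i, 16 ^ m ≤ |p i|) ∧ (∃ i, 16 ^ m ≤ |q i|) ∧ ∃ i, 16 ^ m ≤ |r i| := by
  rcases h.2 with ⟨h1, h2, h3⟩ | ⟨h1, h2, h3⟩ | ⟨h1, h2, h3⟩
  · exact ⟨X_large h1, X_large h2, compl_large h3⟩
  · exact ⟨compl_large h3, X_large h1, X_large h2⟩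
  · exact ⟨X_large h2, compl_large h3, X_large h1⟩

theorem DD_swap {m : ℕ} {p q r : Fin 3 → ℤ} (h : (p, q, r) ∈ DD m) : (q, p, r) ∈ DD m := by
  refine ⟨?_, ?_⟩
  · show q + p + r = 0
    rw [add_comm q p]
    exact h.1
  · rcases h.2 with ⟨h1, h2, h3⟩ | ⟨h1, h2, h3⟩ | ⟨h1, h2, h3⟩
    · exact Or.inl ⟨h2, h1, h3⟩
    · exact Or.inr (Or.inr ⟨h2, h1, h3⟩)
    · exact Or.inr (Or.inl ⟨h2, h1, h3⟩)

theorem DD_cycle {m : ℕ} {p q r : Fin 3 → ℤ} (h : (p, q, r) ∈ DD m) : (q, r, p) ∈ DD m := by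
  refine ⟨?_, ?_⟩
  · show q + r + p = 0
    have h0 : p + q + r = 0 := h.1
    rw [← h0]
    abel
  · rcases h.2 with ⟨h1, h2, h3⟩ | ⟨h1, h2, h3⟩ | ⟨h1, h2, h3⟩
    · exact Or.inr (Or.inr ⟨h1, h2, h3⟩)
    · exact Or.inl ⟨h1, h2, h3⟩
    · exact Or.inr (Or.inl ⟨h1, h2, h3⟩)

theorem DD_act (m : ℕ) (g : Sgn) (p q r : Fin 3 → ℤ) :
    (act g p, act g q, act g r) ∈ DD m ↔ (p, q, r) ∈ DD m := by
  show (act g p + act g q + act g r = 0 ∧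
      ((act g p ∈ X m ∧ act g q ∈ X m ∧ act g r ∉ L m) ∨
        (act g q ∈ X m ∧ act g r ∈ X m ∧ act g p ∉ L m) ∨
        (act g r ∈ X m ∧ act g p ∈ X m ∧ act g q ∉ L m))) ↔
    (p + q + r = 0 ∧
      ((p ∈ X m ∧ q ∈ X m ∧ r ∉ L m) ∨ (q ∈ X m ∧ r ∈ X m ∧ p ∉ L m) ∨
        (r ∈ X m ∧ p ∈ X m ∧ q ∉ L m)))
  rw [← act_add, ← act_add, act_eq_zero, act_mem_X_iff, act_mem_X_iff, act_mem_X_iff,
    act_mem_L, act_mem_L, act_mem_L]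

theorem card_DD (m N : ℕ) :
    {z : (Fin 3 → ℤ) × (Fin 3 → ℤ) × (Fin 3 → ℤ) | z ∈ DD m ∧
      ∀ i, |z.1 i| ≤ (N : ℤ) ∧ |z.2.1 i| ≤ (N : ℤ) ∧ |z.2.2 i| ≤ (N : ℤ)}.ncard
      ≤ 172800 * (Nat.log 16 N + 1) ^ 2 := by
  classical
  set l := 5 * (Nat.log 16 N + 1) with hl
  let f : Fin 3 × (Fin l × Sgn) × (Fin l × Sgn) →
      (Fin 3 → ℤ) × (Fin 3 → ℤ) × (Fin 3 → ℤ) := fun z =>
    tri z.1 (act z.2.1.2 (kk m z.2.1.1)) (act z.2.2.2 (kk m z.2.2.1))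
  have hsub : {z : (Fin 3 → ℤ) × (Fin 3 → ℤ) × (Fin 3 → ℤ) | z ∈ DD m ∧
      ∀ i, |z.1 i| ≤ (N : ℤ) ∧ |z.2.1 i| ≤ (N : ℤ) ∧ |z.2.2 i| ≤ (N : ℤ)} ⊆
      ((Finset.univ.image f : Finset ((Fin 3 → ℤ) × (Fin 3 → ℤ) × (Fin 3 → ℤ))) :
        Set ((Fin 3 → ℤ) × (Fin 3 → ℤ) × (Fin 3 → ℤ))) := by
    rintro ⟨p, q, r⟩ ⟨⟨h0, hz⟩, hb⟩
    rw [Finset.coe_image]
    have h0' : p + q + r = 0 := h0
    rcases hz with ⟨h1, h2, -⟩ | ⟨h1, h2, -⟩ | ⟨h1, h2, -⟩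
    · obtain ⟨a, ha⟩ := X_level (N := N) h1 (fun i => (hb i).1)
      obtain ⟨b, hb'⟩ := X_level (N := N) h2 (fun i => (hb i).2.1)
      refine ⟨(0, a, b), Finset.mem_coe.mpr (Finset.mem_univ _), ?_⟩
      show tri 0 (act a.2 (kk m a.1)) (act b.2 (kk m b.1)) = (p, q, r)
      rw [← ha, ← hb']
      show (p, q, -(p + q)) = (p, q, r)
      rw [neg_eq_of_add_eq_zero_right h0']
    · obtain ⟨a, ha⟩ := X_level (N := N) h1 (fun i => (hb i).2.1)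
      obtain ⟨b, hb'⟩ := X_level (N := N) h2 (fun i => (hb i).2.2)
      refine ⟨(1, a, b), Finset.mem_coe.mpr (Finset.mem_univ _), ?_⟩
      show tri 1 (act a.2 (kk m a.1)) (act b.2 (kk m b.1)) = (p, q, r)
      rw [← ha, ← hb']
      show (-(q + r), q, r) = (p, q, r)
      have h3 : q + r + p = 0 := by rw [← h0']; abel
      rw [neg_eq_of_add_eq_zero_right h3]
    · obtain ⟨a, ha⟩ := X_level (N := N) h1 (fun i => (hb i).2.2)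
      obtain ⟨b, hb'⟩ := X_level (N := N) h2 (fun i => (hb i).1)
      refine ⟨(2, a, b), Finset.mem_coe.mpr (Finset.mem_univ _), ?_⟩
      show tri 2 (act a.2 (kk m a.1)) (act b.2 (kk m b.1)) = (p, q, r)
      rw [← ha, ← hb']
      show (p, -(r + p), r) = (p, q, r)
      have h3 : r + p + q = 0 := by rw [← h0']; abel
      rw [neg_eq_of_add_eq_zero_right h3]
  calc _ ≤ ((Finset.univ.image f : Finset ((Fin 3 → ℤ) × (Fin 3 → ℤ) × (Fin 3 → ℤ))) :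
        Set ((Fin 3 → ℤ) × (Fin 3 → ℤ) × (Fin 3 → ℤ))).ncard :=
        Set.ncard_le_ncard hsub (Finset.finite_toSet _)
    _ = (Finset.univ.image f :
        Finset ((Fin 3 → ℤ) × (Fin 3 → ℤ) × (Fin 3 → ℤ))).card := Set.ncard_coe_finset _
    _ ≤ Fintype.card (Fin 3 × (Fin l × Sgn) × (Fin l × Sgn)) := Finset.card_image_le
    _ = 172800 * (Nat.log 16 N + 1) ^ 2 := by
        rw [Fintype.card_prod, Fintype.card_prod, Fintype.card_prod, Fintype.card_fin,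
          Fintype.card_fin, card_sgn, hl]
        ring

end Pool.Agent.Work.MP_b0497c_an.Tri
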