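import Mathlib
import Pool.Agent.Work.MP_b0497c_an.Tri.Defs
import Pool.Agent.Work.MP_b0497c_an.Tri.Struct
import Pool.Agent.Work.MP_b0497c_an.Tri.Form
import Pool.Agent.Work.MP_b0497c_an.Algebra
import Pool.Agent.Work.MP_b0497c_an.Dec.CubeInt

set_option autoImplicit false

/-!
The deleted interactions do not change the helicity.
-/

namespace Pool.Agent.Work.MP_b0497c_an.Tri

open Set MeasureTheory RealInnerProductSpace Pool.Agent.Work.MP_b0497c_an Filter Topology
open Pool.Agent.Work.MP_b0497c_an.Dec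
open scoped ContDiff

namespace Hel

/-! ### Fourier coefficients of a derivative -/

theorem integrable_cube' {F : Type} [NormedAddCommGroup F] [NormedSpace ℝ F]
    {f : EuclideanSpace ℝ (Fin 3) → F} (hf : Continuous f) : IntegrableOn f cube :=
  hf.continuousOn.integrableOn_compact cube_compact

/-- Fourier coefficient of a real function. -/
noncomputable def ci (g : EuclideanSpace ℝ (Fin 3) → ℝ) (k : Fin 3 → ℤ) : ℂ :=
  ∫ x in cube, Complex.exp (-(Complex.I * (phase k x : ℂ))) * ((g x : ℝ) : ℂ)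

theorem fc_eq (f : EuclideanSpace ℝ (Fin 3) → EuclideanSpace ℝ (Fin 3)) (k : Fin 3 → ℤ)
    (i : Fin 3) : fc f k i = ci (fun x => f x i) k := rfl

theorem exp_phase (t : ℝ) :
    Complex.exp (-(Complex.I * (t : ℂ))) = (Real.cos t : ℂ) - Complex.I * (Real.sin t : ℂ) := by
  have h : -(Complex.I * (t : ℂ)) = ((-t : ℝ) : ℂ) * Complex.I := by
    push_cast
    ring
  rw [h, Complex.exp_mul_I, ← Complex.ofReal_cos, ← Complex.ofReal_sin, Real.cos_neg,
    Real.sin_neg]
  push_cast
  ring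

theorem ci_eq {g : EuclideanSpace ℝ (Fin 3) → ℝ} (hg : Continuous g) (k : Fin 3 → ℤ) :
    ci g k = ((∫ x in cube, Real.cos (phase k x) * g x : ℝ) : ℂ)
      - Complex.I * ((∫ x in cube, Real.sin (phase k x) * g x : ℝ) : ℂ) := by
  have hc : Continuous (fun x => Real.cos (phase k x) * g x) :=
    (Real.continuous_cos.comp (continuous_phase k)).mul hg
  have hs : Continuous (fun x => Real.sin (phase k x) * g x) :=
    (Real.continuous_sin.comp (continuous_phase k)).mul hg
  unfold ci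
  have h : ∀ x, Complex.exp (-(Complex.I * (phase k x : ℂ))) * ((g x : ℝ) : ℂ)
      = ((Real.cos (phase k x) * g x : ℝ) : ℂ)
        - Complex.I * ((Real.sin (phase k x) * g x : ℝ) : ℂ) := by
    intro x
    rw [exp_phase]
    push_cast
    ring
  simp only [h]
  rw [integral_sub, integral_const_mul, integral_complex_ofReal, integral_complex_ofReal]
  · exact integrable_cube' (Complex.continuous_ofReal.comp hc)
  · exact integrable_cube' (continuous_const.mul (Complex.continuous_ofReal.comp hs))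

theorem trace_smulRight_e (l : EuclideanSpace ℝ (Fin 3) →L[ℝ] ℝ) (i : Fin 3) :
    LinearMap.trace ℝ (EuclideanSpace ℝ (Fin 3)) (l.smulRight (e i) :
      EuclideanSpace ℝ (Fin 3) →L[ℝ] EuclideanSpace ℝ (Fin 3)) = l (e i) := by
  rw [trace_eq]
  fin_cases i <;> simp [e]

theorem parts_cos {g : EuclideanSpace ℝ (Fin 3) → ℝ} (hg : ContDiff ℝ 1 g) (hp : Periodic3 g)
    (k : Fin 3 → ℤ) (i : Fin 3) :
    ∫ x in cube, Real.cos (phase k x) * fderiv ℝ g x (e i)
      = (k i : ℝ) * ∫ x in cube, Real.sin (phase k x) * g x := by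
  have hg' : ∀ x, HasFDerivAt g (fderiv ℝ g x) x := fun x =>
    (hg.differentiable (by norm_num) x).hasFDerivAt
  have hcg : Continuous (fun x => fderiv ℝ g x (e i)) :=
    (hg.continuous_fderiv (by norm_num)).clm_apply continuous_const
  have hd : ∀ x, HasFDerivAt (fun x => (Real.cos (phase k x) * g x) • e i)
      ((Real.cos (phase k x) • fderiv ℝ g x
        + g x • ((-Real.sin (phase k x)) • innerSL ℝ (vec k))).smulRight (e i)) x := fun x =>
    (((hasFDerivAt_phase k x).cos).mul (hg' x)).smul_const _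
  have h1 := per_div_cube (G := fun x => (Real.cos (phase k x) * g x) • e i)
    (((Real.contDiff_cos.comp ((contDiff_phase k).of_le (by exact_mod_cast le_top))).mul hg).smul
      contDiff_const)
    (fun j x => by
      have := cos_phase_periodic k j x
      simp only at this
      simp only [this, hp j x])
  have h2 : ∀ x, LinearMap.trace ℝ (EuclideanSpace ℝ (Fin 3))
      (fderiv ℝ (fun x => (Real.cos (phase k x) * g x) • e i) x)
      = Real.cos (phase k x) * fderiv ℝ g x (e i) - (k i : ℝ) * (Real.sin (phase k x) * g x) := by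
    intro x
    rw [(hd x).fderiv, trace_smulRight_e]
    simp only [add_apply, smul_apply,
      innerSL_apply_apply, vec_inner_e, smul_eq_mul]
    ring
  simp only [h2] at h1
  rw [integral_sub, integral_const_mul] at h1
  · linarith
  · exact integrable_cube' ((Real.continuous_cos.comp (continuous_phase k)).mul hcg)
  · exact integrable_cube' (continuous_const.mul
      ((Real.continuous_sin.comp (continuous_phase k)).mul hg.continuous))

theorem parts_sin {g : EuclideanSpace ℝ (Fin 3) → ℝ} (hg : ContDiff ℝ 1 g) (hp : Periodic3 g)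
    (k : Fin 3 → ℤ) (i : Fin 3) :
    ∫ x in cube, Real.sin (phase k x) * fderiv ℝ g x (e i)
      = -((k i : ℝ) * ∫ x in cube, Real.cos (phase k x) * g x) := by
  have hg' : ∀ x, HasFDerivAt g (fderiv ℝ g x) x := fun x =>
    (hg.differentiable (by norm_num) x).hasFDerivAt
  have hcg : Continuous (fun x => fderiv ℝ g x (e i)) :=
    (hg.continuous_fderiv (by norm_num)).clm_apply continuous_const
  have hd : ∀ x, HasFDerivAt (fun x => (Real.sin (phase k x) * g x) • e i)
      ((Real.sin (phase k x) • fderiv ℝ g x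
        + g x • (Real.cos (phase k x) • innerSL ℝ (vec k))).smulRight (e i)) x := fun x =>
    (((hasFDerivAt_phase k x).sin).mul (hg' x)).smul_const _
  have h1 := per_div_cube (G := fun x => (Real.sin (phase k x) * g x) • e i)
    (((Real.contDiff_sin.comp ((contDiff_phase k).of_le (by exact_mod_cast le_top))).mul hg).smul
      contDiff_const)
    (fun j x => by
      have := sin_phase_periodic k j x
      simp only at this
      simp only [this, hp j x])
  have h2 : ∀ x, LinearMap.trace ℝ (EuclideanSpace ℝ (Fin 3))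
      (fderiv ℝ (fun x => (Real.sin (phase k x) * g x) • e i) x)
      = Real.sin (phase k x) * fderiv ℝ g x (e i) + (k i : ℝ) * (Real.cos (phase k x) * g x) := by
    intro x
    rw [(hd x).fderiv, trace_smulRight_e]
    simp only [add_apply, smul_apply,
      innerSL_apply_apply, vec_inner_e, smul_eq_mul]
    ring
  simp only [h2] at h1
  rw [integral_add, integral_const_mul] at h1
  · linarith
  · exact integrable_cube' ((Real.continuous_sin.comp (continuous_phase k)).mul hcg)
  · exact integrable_cube' (continuous_const.mul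
      ((Real.continuous_cos.comp (continuous_phase k)).mul hg.continuous))

theorem ci_deriv {g : EuclideanSpace ℝ (Fin 3) → ℝ} (hg : ContDiff ℝ 1 g) (hp : Periodic3 g)
    (k : Fin 3 → ℤ) (i : Fin 3) :
    ci (fun x => fderiv ℝ g x (e i)) k = Complex.I * (k i : ℂ) * ci g k := by
  have hc : Continuous (fun x => fderiv ℝ g x (e i)) :=
    (hg.continuous_fderiv (by norm_num)).clm_apply continuous_const
  rw [ci_eq hc, ci_eq hg.continuous, parts_cos hg hp, parts_sin hg hp]
  push_cast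
  linear_combination ((k i : ℂ) * ((∫ x in cube, Real.sin (phase k x) * g x : ℝ) : ℂ)) *
    Complex.I_sq

theorem ci_sub {g h : EuclideanSpace ℝ (Fin 3) → ℝ} (hg : Continuous g) (hh : Continuous h)
    (k : Fin 3 → ℤ) : ci (fun x => g x - h x) k = ci g k - ci h k := by
  unfold ci
  rw [← integral_sub]
  · congr 1
    funext x
    push_cast
    ring
  · refine integrable_cube' (Continuous.mul ?_ (Complex.continuous_ofReal.comp hg))
    exact Complex.continuous_exp.comp ((continuous_const.mul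
      (Complex.continuous_ofReal.comp (continuous_phase k))).neg)
  · refine integrable_cube' (Continuous.mul ?_ (Complex.continuous_ofReal.comp hh))
    exact Complex.continuous_exp.comp ((continuous_const.mul
      (Complex.continuous_ofReal.comp (continuous_phase k))).neg)

theorem fderiv_comp {u : EuclideanSpace ℝ (Fin 3) → EuclideanSpace ℝ (Fin 3)}
    (hu : ContDiff ℝ 1 u) (x y : EuclideanSpace ℝ (Fin 3)) (i : Fin 3) :
    fderiv ℝ u x y i = fderiv ℝ (fun z => u z i) x y := by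
  have h1 : HasFDerivAt u (fderiv ℝ u x) x := (hu.differentiable (by norm_num) x).hasFDerivAt
  have h2 := (EuclideanSpace.proj (𝕜 := ℝ) i).hasFDerivAt.comp x h1
  have h3 : fderiv ℝ (fun z => u z i) x = (EuclideanSpace.proj (𝕜 := ℝ) i).comp (fderiv ℝ u x) :=
    h2.fderiv
  rw [h3]
  rfl

theorem comp_contDiff {u : EuclideanSpace ℝ (Fin 3) → EuclideanSpace ℝ (Fin 3)}
    (hu : ContDiff ℝ 1 u) (i : Fin 3) : ContDiff ℝ 1 (fun z => u z i) :=
  (EuclideanSpace.proj (𝕜 := ℝ) i).contDiff.comp hu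

theorem fc_d {u : EuclideanSpace ℝ (Fin 3) → EuclideanSpace ℝ (Fin 3)}
    (hu : ContDiff ℝ 1 u) (hp : Periodic3 u) (k : Fin 3 → ℤ) (i j : Fin 3) :
    ci (fun x => fderiv ℝ u x (e j) i) k = Complex.I * (k j : ℂ) * fc u k i := by
  have h : (fun x => fderiv ℝ u x (e j) i) = fun x => fderiv ℝ (fun z => u z i) x (e j) := by
    funext x
    exact fderiv_comp hu x _ i
  rw [h, ci_deriv (comp_contDiff hu i) (fun l x => by simp only [hp l x]) k j]
  rfl

theorem cont_d {u : EuclideanSpace ℝ (Fin 3) → EuclideanSpace ℝ (Fin 3)}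
    (hu : ContDiff ℝ 1 u) (i j : Fin 3) : Continuous (fun x => fderiv ℝ u x (e j) i) :=
  (EuclideanSpace.proj (𝕜 := ℝ) i).continuous.comp
    ((hu.continuous_fderiv (by norm_num)).clm_apply continuous_const)

theorem fc_curl0 {u : EuclideanSpace ℝ (Fin 3) → EuclideanSpace ℝ (Fin 3)}
    (hu : ContDiff ℝ 1 u) (hp : Periodic3 u) (k : Fin 3 → ℤ) :
    fc (curl u) k 0 = Complex.I * ((k 1 : ℂ) * fc u k 2 - (k 2 : ℂ) * fc u k 1) := by
  have h : fc (curl u) k 0 = ci (fun x => fderiv ℝ u x (e 1) 2 - fderiv ℝ u x (e 2) 1) k := rfl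
  rw [h, ci_sub (cont_d hu 2 1) (cont_d hu 1 2), fc_d hu hp, fc_d hu hp]
  ring

theorem fc_curl1 {u : EuclideanSpace ℝ (Fin 3) → EuclideanSpace ℝ (Fin 3)}
    (hu : ContDiff ℝ 1 u) (hp : Periodic3 u) (k : Fin 3 → ℤ) :
    fc (curl u) k 1 = Complex.I * ((k 2 : ℂ) * fc u k 0 - (k 0 : ℂ) * fc u k 2) := by
  have h : fc (curl u) k 1 = ci (fun x => fderiv ℝ u x (e 2) 0 - fderiv ℝ u x (e 0) 2) k := rfl
  rw [h, ci_sub (cont_d hu 0 2) (cont_d hu 2 0), fc_d hu hp, fc_d hu hp]
  ring

theorem fc_curl2 {u : EuclideanSpace ℝ (Fin 3) → EuclideanSpace ℝ (Fin 3)}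
    (hu : ContDiff ℝ 1 u) (hp : Periodic3 u) (k : Fin 3 → ℤ) :
    fc (curl u) k 2 = Complex.I * ((k 0 : ℂ) * fc u k 1 - (k 1 : ℂ) * fc u k 0) := by
  have h : fc (curl u) k 2 = ci (fun x => fderiv ℝ u x (e 0) 1 - fderiv ℝ u x (e 1) 0) k := rfl
  rw [h, ci_sub (cont_d hu 1 0) (cont_d hu 0 1), fc_d hu hp, fc_d hu hp]
  ring

theorem continuous_curl {u : EuclideanSpace ℝ (Fin 3) → EuclideanSpace ℝ (Fin 3)}
    (hu : ContDiff ℝ 1 u) : Continuous (curl u) := by
  have h : curl u = fun x => !₂[fderiv ℝ u x (e 1) 2 - fderiv ℝ u x (e 2) 1,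
    fderiv ℝ u x (e 2) 0 - fderiv ℝ u x (e 0) 2, fderiv ℝ u x (e 0) 1 - fderiv ℝ u x (e 1) 0] := rfl
  rw [h]
  refine (PiLp.continuous_toLp 2 (fun _ : Fin 3 => ℝ)).comp ?_
  refine continuous_pi fun i => ?_
  fin_cases i
  · exact (cont_d hu 2 1).sub (cont_d hu 1 2)
  · exact (cont_d hu 0 2).sub (cont_d hu 2 0)
  · exact (cont_d hu 1 0).sub (cont_d hu 0 1)

/-! ### The pointwise identity -/

/-- The helicity contribution of a triad. -/
noncomputable def hh (u : EuclideanSpace ℝ (Fin 3) → EuclideanSpace ℝ (Fin 3))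
    (p q r : Fin 3 → ℤ) : ℂ :=
  (fc u p 0 * (q 0 : ℂ) + fc u p 1 * (q 1 : ℂ) + fc u p 2 * (q 2 : ℂ)) *
    (fc u q 0 * ((r 1 : ℂ) * fc u r 2 - (r 2 : ℂ) * fc u r 1)
      + fc u q 1 * ((r 2 : ℂ) * fc u r 0 - (r 0 : ℂ) * fc u r 2)
      + fc u q 2 * ((r 0 : ℂ) * fc u r 1 - (r 1 : ℂ) * fc u r 0))

theorem interact_curl {u : EuclideanSpace ℝ (Fin 3) → EuclideanSpace ℝ (Fin 3)}
    (hu : ContDiff ℝ 1 u) (hp : Periodic3 u) (p q r : Fin 3 → ℤ) :
    interact u u (curl u) p q r = -(hh u p q r).re / (2 * Real.pi) ^ 6 := by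
  unfold interact
  congr 1
  rw [← Complex.neg_re]
  congr 1
  rw [Fin.sum_univ_three, Fin.sum_univ_three, fc_curl0 hu hp, fc_curl1 hu hp, fc_curl2 hu hp, hh]
  linear_combination ((fc u p 0 * (q 0 : ℂ) + fc u p 1 * (q 1 : ℂ) + fc u p 2 * (q 2 : ℂ)) *
    (fc u q 0 * ((r 1 : ℂ) * fc u r 2 - (r 2 : ℂ) * fc u r 1)
      + fc u q 1 * ((r 2 : ℂ) * fc u r 0 - (r 0 : ℂ) * fc u r 2)
      + fc u q 2 * ((r 0 : ℂ) * fc u r 1 - (r 1 : ℂ) * fc u r 0))) * Complex.I_sq

theorem hh_sum (u : EuclideanSpace ℝ (Fin 3) → EuclideanSpace ℝ (Fin 3))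
    (p q r : Fin 3 → ℤ) (h : p + q + r = 0) :
    hh u p q r + hh u q r p + hh u r p q + hh u q p r + hh u r q p + hh u p r q = 0 := by
  have h0 : ∀ i, (r i : ℂ) = -(p i : ℂ) - (q i : ℂ) := by
    intro i
    have h1 : p i + q i + r i = 0 := congrFun h i
    have h2 : r i = -p i - q i := by omega
    rw [h2]
    push_cast
    ring
  unfold hh
  rw [h0 0, h0 1, h0 2]
  ring

/-- Exchange of the first two modes. -/
def sw (m : ℕ) : DD m ≃ DD m where
  toFun z := ⟨(z.1.2.1, z.1.1, z.1.2.2), DD_swap z.2⟩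
  invFun z := ⟨(z.1.2.1, z.1.1, z.1.2.2), DD_swap z.2⟩
  left_inv _ := rfl
  right_inv _ := rfl

/-- Cyclic exchange of the modes. -/
def cy (m : ℕ) : DD m ≃ DD m where
  toFun z := ⟨(z.1.2.1, z.1.2.2, z.1.1), DD_cycle z.2⟩
  invFun z := ⟨(z.1.2.2, z.1.1, z.1.2.1), DD_cycle (DD_cycle z.2)⟩
  left_inv _ := rfl
  right_inv _ := rfl

theorem tsum_perm {ι : Type} (cy sw : ι ≃ ι) (F : ι → ℝ) (hs : Summable F)
    (key : ∀ z : ι, F z + F (cy z) + F (cy (cy z)) + F (sw z) + F (sw (cy z))
      + F (sw (cy (cy z))) = 0) : ∑' z, F z = 0 := by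
  have s1 : Summable (fun z => F (cy z)) := (Equiv.summable_iff cy).mpr hs
  have s2 : Summable (fun z => F (cy (cy z))) := (Equiv.summable_iff cy).mpr s1
  have s3 : Summable (fun z => F (sw z)) := (Equiv.summable_iff sw).mpr hs
  have s4 : Summable (fun z => F (sw (cy z))) := (Equiv.summable_iff cy).mpr s3
  have s5 : Summable (fun z => F (sw (cy (cy z)))) := (Equiv.summable_iff cy).mpr s4
  have t1 : ∑' z, F (cy z) = ∑' z, F z := Equiv.tsum_eq cy F
  have t2 : ∑' z, F (cy (cy z)) = ∑' z, F z :=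
    (Equiv.tsum_eq cy (fun z => F (cy z))).trans t1
  have t3 : ∑' z, F (sw z) = ∑' z, F z := Equiv.tsum_eq sw F
  have t4 : ∑' z, F (sw (cy z)) = ∑' z, F z :=
    (Equiv.tsum_eq cy (fun z => F (sw z))).trans t3
  have t5 : ∑' z, F (sw (cy (cy z))) = ∑' z, F z :=
    (Equiv.tsum_eq cy (fun z => F (sw (cy z)))).trans t4
  have htot : HasSum (fun z => F z + F (cy z) + F (cy (cy z)) + F (sw z) + F (sw (cy z))
      + F (sw (cy (cy z)))) (∑' z, F z + ∑' z, F z + ∑' z, F z + ∑' z, F z + ∑' z, F z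
        + ∑' z, F z) := by
    have h1 := s1.hasSum
    have h2 := s2.hasSum
    have h3 := s3.hasSum
    have h4 := s4.hasSum
    have h5 := s5.hasSum
    rw [t1] at h1
    rw [t2] at h2
    rw [t3] at h3
    rw [t4] at h4
    rw [t5] at h5
    exact ((((hs.hasSum.add h1).add h2).add h3).add h4).add h5
  simp only [key] at htot
  have := htot.unique hasSum_zero
  linarith

theorem tsum_zero_of (m : ℕ) (F : (Fin 3 → ℤ) → (Fin 3 → ℤ) → (Fin 3 → ℤ) → ℝ)
    (hs : Summable (fun z : DD m => F z.1.1 z.1.2.1 z.1.2.2))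
    (key : ∀ p q r : Fin 3 → ℤ, p + q + r = 0 →
      F p q r + F q r p + F r p q + F q p r + F r q p + F p r q = 0) :
    ∑' z : DD m, F z.1.1 z.1.2.1 z.1.2.2 = 0 :=
  tsum_perm (cy m) (sw m) _ hs fun z => key z.1.1 z.1.2.1 z.1.2.2 (DD_sum z.2)

end Hel

open Hel

theorem Del_helicity (m : ℕ) {u : EuclideanSpace ℝ (Fin 3) → EuclideanSpace ℝ (Fin 3)}
    (hu : IsField u) (hu2 : ContDiff ℝ 2 u) : Del (DD m) u u (curl u) = 0 := by
  have hc := continuous_curl hu.contDiff
  refine tsum_zero_of m (interact u u (curl u))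
    (Del_summable m hu.contDiff.continuous hu.contDiff hu.periodic hc) ?_
  intro p q r h
  have h1 := hh_sum u p q r h
  have h2 := congrArg Complex.re h1
  simp only [Complex.add_re, Complex.zero_re] at h2
  simp only [interact_curl hu.contDiff hu.periodic]
  rw [← add_div, ← add_div, ← add_div, ← add_div, ← add_div, div_eq_zero_iff]
  left
  linarith

end Pool.Agent.Work.MP_b0497c_an.Tri
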