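import Mathlib
import Pool.Agent.Work.MP_b0497c_an.Tri.Defs
import Pool.Agent.Work.MP_b0497c_an.Dec.Momentum

set_option autoImplicit false

/-!
Fourier coefficients of the series of fields.
-/

namespace Pool.Agent.Work.MP_b0497c_an.Tri

open Set MeasureTheory RealInnerProductSpace Pool.Agent.Work.MP_b0497c_an Filter Topology
open Pool.Agent.Work.MP_b0497c_an.Dec
open scoped ContDiff

namespace FcU

/-- The complex coefficient in terms of the cosine and sine coefficients. -/
lemma fc_eq {f : EuclideanSpace ℝ (Fin 3) → EuclideanSpace ℝ (Fin 3)} (hf : Continuous f)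
    (p : Fin 3 → ℤ) (i : Fin 3) :
    fc f p i = (((∫ x in cube, Real.cos (phase p x) • f x) i : ℝ) : ℂ)
      - Complex.I * (((∫ x in cube, Real.sin (phase p x) • f x) i : ℝ) : ℂ) := by
  have hc : IntegrableOn (fun x => Real.cos (phase p x) • f x) cube :=
    integrable_cube ((Real.continuous_cos.comp (continuous_phase p)).smul hf)
  have hs : IntegrableOn (fun x => Real.sin (phase p x) • f x) cube :=
    integrable_cube ((Real.continuous_sin.comp (continuous_phase p)).smul hf)
  have hfi : Continuous fun x => f x i :=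
    (EuclideanSpace.proj (𝕜 := ℝ) i : EuclideanSpace ℝ (Fin 3) →L[ℝ] ℝ).continuous.comp hf
  have e1 : (∫ x in cube, Real.cos (phase p x) • f x) i
      = ∫ x in cube, Real.cos (phase p x) * f x i :=
    ((EuclideanSpace.proj (𝕜 := ℝ) i : EuclideanSpace ℝ (Fin 3) →L[ℝ] ℝ).integral_comp_comm
      hc).symm
  have e2 : (∫ x in cube, Real.sin (phase p x) • f x) i
      = ∫ x in cube, Real.sin (phase p x) * f x i :=
    ((EuclideanSpace.proj (𝕜 := ℝ) i : EuclideanSpace ℝ (Fin 3) →L[ℝ] ℝ).integral_comp_comm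
      hs).symm
  rw [e1, e2, fc, ← integral_complex_ofReal, ← integral_complex_ofReal, ← integral_const_mul,
    ← integral_sub]
  · refine integral_congr_ae (Eventually.of_forall fun x => ?_)
    simp only
    rw [show -(Complex.I * ((phase p x : ℝ) : ℂ)) = ((-phase p x : ℝ) : ℂ) * Complex.I by
      push_cast; ring, Complex.exp_mul_I, ← Complex.ofReal_cos, ← Complex.ofReal_sin,
      Real.cos_neg, Real.sin_neg]
    push_cast
    ring
  · exact (integrable_cube (F := ℂ) (Complex.continuous_ofReal.comp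
      ((Real.continuous_cos.comp (continuous_phase p)).mul hfi)))
  · exact (integrable_cube (F := ℂ) (continuous_const.mul (Complex.continuous_ofReal.comp
      ((Real.continuous_sin.comp (continuous_phase p)).mul hfi))))

/-- The negative of a signed permutation. -/
def ng (g : Sgn) : Sgn := (g.1, fun i => -g.2 i)

lemma act_ng (g : Sgn) (v : Fin 3 → ℤ) : act (ng g) v = -act g v := by
  ext i
  simp [act, ng]

lemma vec_neg (v : Fin 3 → ℤ) : vec (-v) = -vec v := by
  ext i
  fin_cases i <;> simp [vec]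

/-- The negation as an equivalence. -/
def ngE : Sgn ≃ Sgn where
  toFun := ng
  invFun := ng
  left_inv g := by
    obtain ⟨a, b⟩ := g
    simp [ng]
  right_inv g := by
    obtain ⟨a, b⟩ := g
    simp [ng]

/-- The sine coefficients of the shells. -/
lemma V_sin (m n : ℕ) (p : Fin 3 → ℤ) :
    ∫ x in cube, Real.sin (phase p x) • V m n x
      = (2 * Real.pi) ^ 3 • ∑ g : Sgn with act g (kk m n) = p, vec (act g (ev n)) := by
  have h : ∀ x, Real.sin (phase p x) • V m n x = ∑ g : Sgn,
      (Real.sin (phase p x) * Real.sin (phase (act g (kk m n)) x)) • vec (act g (ev n)) := by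
    intro x
    rw [V, Finset.smul_sum]
    exact Finset.sum_congr rfl fun g _ => by rw [smul_smul]
  simp_rw [h]
  rw [integral_finsetSum]
  swap
  · intro g _
    exact integrable_cube (((Real.continuous_sin.comp (continuous_phase _)).mul
      (Real.continuous_sin.comp (continuous_phase _))).smul continuous_const)
  have h2 : ∀ g : Sgn, ∫ x in cube, (Real.sin (phase p x) * Real.sin (phase (act g (kk m n)) x)) •
      vec (act g (ev n))
      = (1 / 2 : ℝ) • ((if act g (kk m n) = p then (2 * Real.pi) ^ 3 else 0 : ℝ) •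
          vec (act g (ev n)))
        - (1 / 2 : ℝ) • ((if act g (kk m n) = -p then (2 * Real.pi) ^ 3 else 0 : ℝ) •
          vec (act g (ev n))) := by
    intro g
    rw [integral_smul_const, integral_sin_sin]
    have a1 : (p - act g (kk m n) = 0) ↔ (act g (kk m n) = p) := by
      rw [sub_eq_zero]
      exact eq_comm
    have a2 : (p + act g (kk m n) = 0) ↔ (act g (kk m n) = -p) := by
      rw [add_eq_zero_iff_neg_eq]
      exact eq_comm
    simp only [a1, a2]
    rw [← smul_sub, ← sub_smul, smul_smul]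
  rw [Finset.sum_congr rfl fun g _ => h2 g, Finset.sum_sub_distrib]
  have h3 : ∑ g : Sgn, (1 / 2 : ℝ) • ((if act g (kk m n) = -p then (2 * Real.pi) ^ 3 else 0 : ℝ) •
      vec (act g (ev n)))
      = -∑ g : Sgn, (1 / 2 : ℝ) • ((if act g (kk m n) = p then (2 * Real.pi) ^ 3 else 0 : ℝ) •
      vec (act g (ev n))) := by
    rw [← Equiv.sum_comp ngE, ← Finset.sum_neg_distrib]
    refine Finset.sum_congr rfl fun g _ => ?_
    change (1 / 2 : ℝ) • ((if act (ng g) (kk m n) = -p then (2 * Real.pi) ^ 3 else 0 : ℝ) •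
      vec (act (ng g) (ev n))) = _
    rw [act_ng, act_ng, vec_neg, smul_neg, smul_neg]
    simp only [neg_inj]
  rw [h3, sub_neg_eq_add, ← Finset.sum_add_distrib, Finset.sum_filter, Finset.smul_sum]
  refine Finset.sum_congr rfl fun g _ => ?_
  by_cases hg : act g (kk m n) = p
  · simp only [hg, if_true]
    rw [← add_smul]
    norm_num
  · simp only [hg, if_false, zero_smul, smul_zero, add_zero]

/-- The sine coefficients of the series. -/
lemma U_sin {T : ℝ} {a a' : ℕ → ℝ → ℝ} (h : Amp T a a') (m : ℕ) {t : ℝ} (ht : t ∈ Ico 0 T)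
    (p : Fin 3 → ℤ) :
    ∫ x in cube, Real.sin (phase p x) • U m a t x = (2 * Real.pi) ^ 3 • alp m a t p := by
  obtain ⟨C, ρ, hC, hρ, hb⟩ := Momentum.V_bound m
  have hr := (Momentum.amp_rapid h ht).1
  have hcV : ∀ n, Continuous (V m n) := fun n => (V_contDiff m n).continuous
  have hs := Momentum.hasSum_cube hr (fun n x => Real.sin (phase p x) • V m n x)
    (fun n => (Real.continuous_sin.comp (continuous_phase p)).smul (hcV n)) C ρ hC hρ
    (fun n x _ => by
      rw [norm_smul]
      calc ‖Real.sin (phase p x)‖ * ‖V m n x‖ ≤ 1 * (C * ρ ^ n) :=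
            mul_le_mul (Real.abs_sin_le_one _) (hb n x).1 (norm_nonneg _) zero_le_one
        _ = C * ρ ^ n := one_mul _)
  have e : ∀ x, Real.sin (phase p x) • U m a t x =
      ∑' n, a n t • Real.sin (phase p x) • V m n x := by
    intro x
    unfold U
    rw [← tsum_const_smul'' (Real.sin (phase p x))]
    exact tsum_congr fun n => smul_comm _ _ _
  simp_rw [e]
  rw [← hs.tsum_eq, alp, ← tsum_const_smul'' ((2 * Real.pi) ^ 3)]
  refine tsum_congr fun n => ?_
  rw [V_sin, smul_comm]

/-- The cosine coefficients of the series vanish. -/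
lemma U_cos {T : ℝ} {a a' : ℕ → ℝ → ℝ} (h : Amp T a a') (m : ℕ) {t : ℝ} (ht : t ∈ Ico 0 T)
    (p : Fin 3 → ℤ) :
    ∫ x in cube, Real.cos (phase p x) • U m a t x = 0 := by
  obtain ⟨C, ρ, hC, hρ, hb⟩ := Momentum.V_bound m
  have hr := (Momentum.amp_rapid h ht).1
  have hcV : ∀ n, Continuous (V m n) := fun n => (V_contDiff m n).continuous
  have hs := Momentum.hasSum_cube hr (fun n x => Real.cos (phase p x) • V m n x)
    (fun n => (Real.continuous_cos.comp (continuous_phase p)).smul (hcV n)) C ρ hC hρ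
    (fun n x _ => by
      rw [norm_smul]
      calc ‖Real.cos (phase p x)‖ * ‖V m n x‖ ≤ 1 * (C * ρ ^ n) :=
            mul_le_mul (Real.abs_cos_le_one _) (hb n x).1 (norm_nonneg _) zero_le_one
        _ = C * ρ ^ n := one_mul _)
  have e : ∀ x, Real.cos (phase p x) • U m a t x =
      ∑' n, a n t • Real.cos (phase p x) • V m n x := by
    intro x
    unfold U
    rw [← tsum_const_smul'' (Real.cos (phase p x))]
    exact tsum_congr fun n => smul_comm _ _ _
  simp_rw [e]
  rw [← hs.tsum_eq]
  refine (tsum_congr fun n => ?_).trans tsum_zero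
  rw [V_cos_coeff, smul_zero]

end FcU

theorem fc_U {T : ℝ} {a a' : ℕ → ℝ → ℝ} (h : Amp T a a') (m : ℕ) {t : ℝ} (ht : t ∈ Ico 0 T)
    (p : Fin 3 → ℤ) (i : Fin 3) :
    fc (U m a t) p i = -Complex.I * (2 * Real.pi : ℝ) ^ 3 * ((alp m a t p i : ℝ) : ℂ) := by
  rw [FcU.fc_eq (U_smooth h m ht).continuous, FcU.U_cos h m ht, FcU.U_sin h m ht]
  simp only [PiLp.zero_apply, PiLp.smul_apply, smul_eq_mul]
  push_cast
  ring

theorem alp_zero (m : ℕ) (a : ℕ → ℝ → ℝ) (t : ℝ) {p : Fin 3 → ℤ} (hp : p ∉ X m) :
    alp m a t p = 0 := by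
  unfold alp
  refine (tsum_congr fun n => ?_).trans tsum_zero
  rw [Finset.sum_eq_zero, smul_zero]
  intro g hg
  exact absurd ⟨n, g, (Finset.mem_filter.mp hg).2.symm⟩ hp

end Pool.Agent.Work.MP_b0497c_an.Tri
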