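import Pool.Agent.Work.MP_b0497c_an.Dec.Momentum
import Pool.Agent.Work.MP_b0497c_an.Dec.Triad
import Pool.Agent.Work.MP_b0497c_an.Bd.B25
import Pool.Agent.Work.MP_b0497c_an.Tri.FcU
import Pool.Agent.Work.MP_b0497c_an.Tri.Form

set_option autoImplicit false

/-!
Evaluation of the deleted form on the series of fields.
-/

namespace Pool.Agent.Work.MP_b0497c_an.Tri

open Set MeasureTheory RealInnerProductSpace Pool.Agent.Work.MP_b0497c_an Filter Topology
open Pool.Agent.Work.MP_b0497c_an.Dec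
open scoped ContDiff

namespace EvalAux

open Classical in
/-- The orbit of the wave vector of shell `n`. -/
noncomputable def Orb (m n : ℕ) : Finset (Fin 3 → ℤ) :=
  Finset.univ.image (fun g : Sgn => act g (kk m n))

lemma mem_Orb {m n : ℕ} {p : Fin 3 → ℤ} : p ∈ Orb m n ↔ ∃ g : Sgn, act g (kk m n) = p := by
  simp [Orb]

attribute [irreducible] Orb

lemma Orb_inj {m n n' : ℕ} {p : Fin 3 → ℤ} (h : p ∈ Orb m n) (h' : p ∈ Orb m n') : n = n' := by
  obtain ⟨g, hg⟩ := mem_Orb.1 h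
  obtain ⟨g', hg'⟩ := mem_Orb.1 h'
  exact kk_inj m n n' g g' (hg.trans hg'.symm)

lemma mem_X {m : ℕ} {p : Fin 3 → ℤ} : p ∈ X m ↔ ∃ n, p ∈ Orb m n := by
  constructor
  · rintro ⟨n, g, rfl⟩
    exact ⟨n, mem_Orb.2 ⟨g, rfl⟩⟩
  · rintro ⟨n, hn⟩
    obtain ⟨g, rfl⟩ := mem_Orb.1 hn
    exact ⟨n, g, rfl⟩

lemma alp_of_mem {m n : ℕ} (a : ℕ → ℝ → ℝ) (t : ℝ) {p : Fin 3 → ℤ} (hp : p ∈ Orb m n) :
    alp m a t p = a n t • ∑ g : Sgn with act g (kk m n) = p, vec (act g (ev n)) := by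
  unfold alp
  rw [tsum_eq_single n]
  intro n' hn'
  have : (Finset.univ.filter (fun g : Sgn => act g (kk m n') = p)) = ∅ := by
    rw [Finset.filter_eq_empty_iff]
    intro g _ hg
    exact hn' (Orb_inj (mem_Orb.2 ⟨g, hg⟩) hp)
  rw [this]
  simp

lemma vec_inner_vec (k l : Fin 3 → ℤ) : ⟪vec k, vec l⟫ = (dot k l : ℝ) := by
  rw [← phase_eq_inner, phase_vec]

/-- The contribution of a pair of modes. -/
noncomputable def Bf (m : ℕ) (a : ℕ → ℝ → ℝ) (t : ℝ)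
    (S : (Fin 3 → ℤ) → EuclideanSpace ℝ (Fin 3)) (z : (Fin 3 → ℤ) × (Fin 3 → ℤ)) : ℝ :=
  ⟪alp m a t z.1, vec z.2⟫ * ⟪alp m a t z.2, S (z.1 + z.2)⟫

lemma sum_Bf (m : ℕ) (a : ℕ → ℝ → ℝ) (t : ℝ) (S : (Fin 3 → ℤ) → EuclideanSpace ℝ (Fin 3))
    (n n' : ℕ) : ∑ z ∈ Orb m n ×ˢ Orb m n', Bf m a t S z = a n t * a n' t * Tt m n n' S := by
  rw [Finset.sum_product]
  have h1 : ∀ p ∈ Orb m n, ∀ q ∈ Orb m n', Bf m a t S (p, q) =
      ∑ g : Sgn with act g (kk m n) = p, ∑ h : Sgn with act h (kk m n') = q,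
        a n t * a n' t * ((dot (act g (ev n)) (act h (kk m n')) : ℝ) *
          ⟪vec (act h (ev n')), S (act g (kk m n) + act h (kk m n'))⟫) := by
    intro p hp q hq
    unfold Bf
    rw [alp_of_mem a t hp, alp_of_mem a t hq]
    simp only [real_inner_smul_left, sum_inner]
    rw [Finset.sum_congr rfl (fun g hg => Finset.sum_congr rfl (fun h hh => ?_))]
    rotate_left
    · exact fun g h => (a n t * ⟪vec (act g (ev n)), vec q⟫) *
        (a n' t * ⟪vec (act h (ev n')), S (p + q)⟫)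
    · rw [(Finset.mem_filter.1 hg).2, (Finset.mem_filter.1 hh).2, ← vec_inner_vec]
      ring
    · rw [Finset.mul_sum, Finset.mul_sum, Finset.sum_mul_sum]
  rw [Finset.sum_congr rfl (fun p hp => Finset.sum_congr rfl (fun q hq => h1 p hp q hq))]
  unfold Tt
  rw [Finset.mul_sum]
  have h2 : ∀ p ∈ Orb m n, ∑ q ∈ Orb m n', ∑ g : Sgn with act g (kk m n) = p,
      ∑ h : Sgn with act h (kk m n') = q,
        a n t * a n' t * ((dot (act g (ev n)) (act h (kk m n')) : ℝ) *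
          ⟪vec (act h (ev n')), S (act g (kk m n) + act h (kk m n'))⟫) =
      ∑ g : Sgn with act g (kk m n) = p, ∑ h : Sgn,
        a n t * a n' t * ((dot (act g (ev n)) (act h (kk m n')) : ℝ) *
          ⟪vec (act h (ev n')), S (act g (kk m n) + act h (kk m n'))⟫) := by
    intro p _
    rw [Finset.sum_comm]
    refine Finset.sum_congr rfl fun g _ => ?_
    exact Finset.sum_fiberwise_of_maps_to (fun h _ => mem_Orb.2 ⟨h, rfl⟩) _
  rw [Finset.sum_congr rfl h2]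
  rw [Finset.sum_fiberwise_of_maps_to (fun h _ => mem_Orb.2 ⟨h, rfl⟩)]
  refine Finset.sum_congr rfl fun g _ => ?_
  rw [Finset.mul_sum]

/-- The imaginary part of a Fourier coefficient is a sine coefficient. -/
lemma fc_im {φ : EuclideanSpace ℝ (Fin 3) → EuclideanSpace ℝ (Fin 3)} (hφ : Continuous φ)
    (k : Fin 3 → ℤ) (i : Fin 3) : (fc φ (-k) i).im = sc φ k i := by
  have hc : Continuous (fun x => Complex.exp (-(Complex.I * (phase (-k) x : ℂ))) *
      ((φ x i : ℝ) : ℂ)) := by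
    have h1 : Continuous (phase (-k)) := continuous_phase _
    have h2 : Continuous (fun x => φ x i) := by fun_prop
    fun_prop
  have hint : IntegrableOn (fun x => Complex.exp (-(Complex.I * (phase (-k) x : ℂ))) *
      ((φ x i : ℝ) : ℂ)) cube := hc.continuousOn.integrableOn_compact cube_compact
  have h1 : (fc φ (-k) i).im = ∫ x in cube, (Complex.exp (-(Complex.I * (phase (-k) x : ℂ))) *
      ((φ x i : ℝ) : ℂ)).im := by
    unfold fc
    have := Complex.imCLM.integral_comp_comm hint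
    simpa using this.symm
  have hint2 : IntegrableOn (fun x => Real.sin (phase k x) • φ x) cube :=
    ((Real.continuous_sin.comp (continuous_phase k)).smul hφ).continuousOn.integrableOn_compact
      cube_compact
  have h2 : sc φ k i = ∫ x in cube, (Real.sin (phase k x) • φ x) i := by
    unfold sc
    have := (EuclideanSpace.proj (𝕜 := ℝ) i).integral_comp_comm hint2
    simpa using this.symm
  rw [h1, h2]
  congr 1
  funext x
  have e : -(Complex.I * (phase (-k) x : ℂ)) = ((phase k x : ℝ) : ℂ) * Complex.I := by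
    rw [phase_neg_left]; push_cast; ring
  rw [e, Complex.exp_mul_I]
  simp [Complex.cos_ofReal_im, Complex.sin_ofReal_re, Complex.sin_ofReal_im]

lemma interact_U {T : ℝ} {a a' : ℕ → ℝ → ℝ} (h : Amp T a a') (m : ℕ) {t : ℝ} (ht : t ∈ Ico 0 T)
    {φ : EuclideanSpace ℝ (Fin 3) → EuclideanSpace ℝ (Fin 3)} (hφ : Continuous φ)
    (p q : Fin 3 → ℤ) :
    interact (U m a t) (U m a t) φ p q (-(p + q)) = Bf m a t (sc φ) (p, q) := by
  unfold interact Bf
  simp only [fc_U h m ht]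
  have hpi : (0 : ℝ) < 2 * Real.pi := by positivity
  have e1 : (∑ i, -Complex.I * ((2 * Real.pi : ℝ) : ℂ) ^ 3 * ((alp m a t p i : ℝ) : ℂ) *
      (q i : ℂ)) = -Complex.I * ((2 * Real.pi : ℝ) : ℂ) ^ 3 *
      ((⟪alp m a t p, vec q⟫ : ℝ) : ℂ) := by
    rw [real_inner_comm, PiLp.inner_apply]
    simp only [Fin.sum_univ_three, vec]
    simp
    ring
  have e2 : (∑ j, -Complex.I * ((2 * Real.pi : ℝ) : ℂ) ^ 3 * ((alp m a t q j : ℝ) : ℂ) *
      fc φ (-(p + q)) j) = -Complex.I * ((2 * Real.pi : ℝ) : ℂ) ^ 3 *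
      ∑ j, ((alp m a t q j : ℝ) : ℂ) * fc φ (-(p + q)) j := by
    rw [Finset.mul_sum]
    refine Finset.sum_congr rfl fun j _ => ?_
    ring
  have e3 : (∑ j, ((alp m a t q j : ℝ) : ℂ) * fc φ (-(p + q)) j).im =
      ⟪alp m a t q, sc φ (p + q)⟫ := by
    rw [Complex.im_sum, real_inner_comm, PiLp.inner_apply]
    refine Finset.sum_congr rfl fun j _ => ?_
    rw [Complex.im_ofReal_mul, fc_im hφ]
    simp
  rw [e1, e2]
  set W := ∑ j, ((alp m a t q j : ℝ) : ℂ) * fc φ (-(p + q)) j with hW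
  have e4 : Complex.I * (-Complex.I * ((2 * Real.pi : ℝ) : ℂ) ^ 3 *
      ((⟪alp m a t p, vec q⟫ : ℝ) : ℂ)) * (-Complex.I * ((2 * Real.pi : ℝ) : ℂ) ^ 3 * W) =
      (((2 * Real.pi) ^ 6 * ⟪alp m a t p, vec q⟫ : ℝ) : ℂ) * (-Complex.I * W) := by
    push_cast
    linear_combination (Complex.I * (2 * (Real.pi : ℂ)) ^ 6 *
      ((⟪alp m a t p, vec q⟫ : ℝ) : ℂ) * W) * Complex.I_mul_I
  rw [e4, Complex.re_ofReal_mul]
  have e5 : (-Complex.I * W).re = W.im := by simp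
  rw [e5, e3]
  field_simp

lemma X_sub_L {m : ℕ} {p : Fin 3 → ℤ} (hp : p ∈ X m) : p ∈ L m := Or.inr (Or.inl hp)

lemma neg_mem_L {m : ℕ} {p : Fin 3 → ℤ} : -p ∈ L m ↔ p ∈ L m := by
  have := Dec.act_mem_L m ((1 : Equiv.Perm (Fin 3)), fun _ => -1) p
  have e : act ((1 : Equiv.Perm (Fin 3)), fun _ => -1) p = -p := by
    funext i; simp [act]
  rwa [e] at this

lemma mem_DD_iff {m : ℕ} {p q : Fin 3 → ℤ} (hp : p ∈ X m) (hq : q ∈ X m) :
    ((p, q, -(p + q)) : (Fin 3 → ℤ) × (Fin 3 → ℤ) × (Fin 3 → ℤ)) ∈ DD m ↔ p + q ∉ L m := by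
  show (p + q + -(p + q) = 0 ∧ ((p ∈ X m ∧ q ∈ X m ∧ -(p + q) ∉ L m) ∨
    (q ∈ X m ∧ -(p + q) ∈ X m ∧ p ∉ L m) ∨ (-(p + q) ∈ X m ∧ p ∈ X m ∧ q ∉ L m))) ↔ _
  rw [neg_mem_L]
  constructor
  · rintro ⟨-, h | h | h⟩
    · exact h.2.2
    · exact absurd (X_sub_L hp) h.2.2
    · exact absurd (X_sub_L hq) h.2.2
  · intro h
    exact ⟨by abel, Or.inl ⟨hp, hq, h⟩⟩

/-- The pairing with the cut coefficients. -/
lemma Bf_cut_of_mem (m : ℕ) (a : ℕ → ℝ → ℝ) (t : ℝ)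
    (S : (Fin 3 → ℤ) → EuclideanSpace ℝ (Fin 3)) {p q : Fin 3 → ℤ} (h : p + q ∈ L m) :
    Bf m a t (cut (L m)ᶜ S) (p, q) = 0 := by
  have e : cut (L m)ᶜ S (p + q) = 0 := by
    unfold cut
    rw [if_neg (by simpa using h)]
  unfold Bf
  rw [e]; simp

lemma Bf_cut_of_notMem (m : ℕ) (a : ℕ → ℝ → ℝ) (t : ℝ)
    (S : (Fin 3 → ℤ) → EuclideanSpace ℝ (Fin 3)) {p q : Fin 3 → ℤ} (h : p + q ∉ L m) :
    Bf m a t (cut (L m)ᶜ S) (p, q) = Bf m a t S (p, q) := by
  have e : cut (L m)ᶜ S (p + q) = S (p + q) := by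
    unfold cut
    rw [if_pos (by simpa using h)]
  unfold Bf
  rw [e]

lemma Bf_zero {m : ℕ} {a : ℕ → ℝ → ℝ} {t : ℝ} (S : (Fin 3 → ℤ) → EuclideanSpace ℝ (Fin 3))
    {p q : Fin 3 → ℤ} (h : ¬ (p ∈ X m ∧ q ∈ X m)) : Bf m a t S (p, q) = 0 := by
  unfold Bf
  rw [not_and_or] at h
  rcases h with h | h
  · rw [show alp m a t (p, q).1 = 0 from alp_zero m a t h]; simp
  · rw [show alp m a t (p, q).2 = 0 from alp_zero m a t h]; simp

/-- The pairs of modes of the chain, sorted by shells. -/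
def psi (m : ℕ) (s : Σ z : ℕ × ℕ, {x // x ∈ Orb m z.1 ×ˢ Orb m z.2}) :
    (Fin 3 → ℤ) × (Fin 3 → ℤ) := s.2.1

lemma psi_injective (m : ℕ) : Function.Injective (psi m) := by
  rintro ⟨⟨n, n'⟩, ⟨u, hu⟩⟩ ⟨⟨l, l'⟩, ⟨v, hv⟩⟩ he
  rw [psi, psi] at he
  replace he : u = v := he
  subst he
  have h1 := Finset.mem_product.1 hu
  have h2 := Finset.mem_product.1 hv
  have e1 : n = l := Orb_inj h1.1 h2.1
  have e2 : n' = l' := Orb_inj h1.2 h2.2
  subst e1
  subst e2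
  rfl

lemma mem_range_psi {m : ℕ} {p q : Fin 3 → ℤ} (hp : p ∈ X m) (hq : q ∈ X m) :
    (p, q) ∈ range (psi m) := by
  obtain ⟨n, hn⟩ := mem_X.1 hp
  obtain ⟨n', hn'⟩ := mem_X.1 hq
  exact ⟨⟨(n, n'), ⟨(p, q), Finset.mem_product.2 ⟨hn, hn'⟩⟩⟩, rfl⟩

end EvalAux

open EvalAux

theorem Del_U {T : ℝ} {a a' : ℕ → ℝ → ℝ} (h : Amp T a a') (m : ℕ) {t : ℝ} (ht : t ∈ Ico 0 T)
    {φ : EuclideanSpace ℝ (Fin 3) → EuclideanSpace ℝ (Fin 3)} (hφ : IsField φ) :
    HasSum (fun z : ℕ × ℕ => a z.1 t * a z.2 t * Tt m z.1 z.2 (cut (L m)ᶜ (sc φ)))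
      (Del (DD m) (U m a t) (U m a t) φ) := by
  classical
  have hU := U_inModes h m ht
  have hsum := Del_summable m hU.contDiff.continuous hU.contDiff hU.periodic
    hφ.contDiff.continuous
  have hs1 : HasSum (fun z : DD m => interact (U m a t) (U m a t) φ z.1.1 z.1.2.1 z.1.2.2)
      (Del (DD m) (U m a t) (U m a t) φ) := hsum.hasSum
  -- as a sum over all triples
  have hs2 : HasSum ((DD m).indicator
      (fun z => interact (U m a t) (U m a t) φ z.1 z.2.1 z.2.2))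
      (Del (DD m) (U m a t) (U m a t) φ) := by
    rw [← hasSum_subtype_iff_indicator]
    exact hs1
  -- as a sum over pairs
  have hinj : Function.Injective (fun z : (Fin 3 → ℤ) × (Fin 3 → ℤ) =>
      ((z.1, z.2, -(z.1 + z.2)) : (Fin 3 → ℤ) × (Fin 3 → ℤ) × (Fin 3 → ℤ))) := by
    rintro ⟨p, q⟩ ⟨p', q'⟩ hpq
    simp only [Prod.mk.injEq] at hpq
    exact Prod.ext hpq.1 hpq.2.1
  have hs3 : HasSum (Bf m a t (cut (L m)ᶜ (sc φ))) (Del (DD m) (U m a t) (U m a t) φ) := by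
    have h3 := (hinj.hasSum_iff (f := (DD m).indicator
      (fun z => interact (U m a t) (U m a t) φ z.1 z.2.1 z.2.2)) (a :=
        Del (DD m) (U m a t) (U m a t) φ) ?_).2 hs2
    · have e : Bf m a t (cut (L m)ᶜ (sc φ)) = ((DD m).indicator
          (fun z => interact (U m a t) (U m a t) φ z.1 z.2.1 z.2.2)) ∘
          (fun z : (Fin 3 → ℤ) × (Fin 3 → ℤ) =>
            ((z.1, z.2, -(z.1 + z.2)) : (Fin 3 → ℤ) × (Fin 3 → ℤ) × (Fin 3 → ℤ))) := by
        funext ⟨p, q⟩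
        simp only [Function.comp_apply]
        have hi := interact_U h m ht hφ.contDiff.continuous p q
        by_cases hpq : p ∈ X m ∧ q ∈ X m
        · by_cases hL : p + q ∈ L m
          · rw [Bf_cut_of_mem m a t _ hL, indicator_of_notMem]
            rw [mem_DD_iff hpq.1 hpq.2]
            exact not_not.2 hL
          · rw [Bf_cut_of_notMem m a t _ hL, indicator_of_mem, hi]
            rw [mem_DD_iff hpq.1 hpq.2]
            exact hL
        · rw [Bf_zero _ hpq]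
          by_cases hD : ((p, q, -(p + q)) : (Fin 3 → ℤ) × (Fin 3 → ℤ) × (Fin 3 → ℤ)) ∈ DD m
          · rw [indicator_of_mem hD, hi, Bf_zero _ hpq]
          · rw [indicator_of_notMem hD]
      rw [e]
      exact h3
    · rintro ⟨p, q, r⟩ hz
      apply indicator_of_notMem
      intro hD
      apply hz
      refine ⟨(p, q), ?_⟩
      have := hD.1
      simp only at this ⊢
      have e : r = -(p + q) := by
        rw [eq_neg_iff_add_eq_zero, add_comm]; exact this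
      rw [e]
  -- as a sum over pairs of shells
  have hs4 := ((psi_injective m).hasSum_iff (f := Bf m a t (cut (L m)ᶜ (sc φ)))
    (a := Del (DD m) (U m a t) (U m a t) φ) (by
      rintro ⟨p, q⟩ hz
      apply Bf_zero
      rintro ⟨hp, hq⟩
      exact hz (mem_range_psi hp hq))).2 hs3
  refine hs4.sigma fun z => ?_
  have h5 := hasSum_fintype (fun c : {x // x ∈ Orb m z.1 ×ˢ Orb m z.2} =>
    (Bf m a t (cut (L m)ᶜ (sc φ)) ∘ psi m) ⟨z, c⟩)
  have h6 : ∑ c : {x // x ∈ Orb m z.1 ×ˢ Orb m z.2},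
      (Bf m a t (cut (L m)ᶜ (sc φ)) ∘ psi m) ⟨z, c⟩ =
      a z.1 t * a z.2 t * Tt m z.1 z.2 (cut (L m)ᶜ (sc φ)) := by
    rw [← sum_Bf, ← Finset.sum_coe_sort (Orb m z.1 ×ˢ Orb m z.2)]
    rfl
  rwa [h6] at h5

end Pool.Agent.Work.MP_b0497c_an.Tri
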