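import Pool.Agent.Work.MP_b0497c_an.Tri.Defs
import Pool.Agent.Work.MP_b0497c_an.Dec.Momentum

set_option autoImplicit false

/-!
The weak form of the series of fields against an arbitrary continuous field, and the sum of the
interactions within the chain.
-/

namespace Pool.Agent.Work.MP_b0497c_an.Tri

open Set MeasureTheory RealInnerProductSpace Pool.Agent.Work.MP_b0497c_an Filter Topology
open Pool.Agent.Work.MP_b0497c_an.Dec
open scoped ContDiff

namespace Weak

open Momentum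

/-- A continuous field is bounded on the cube. -/
lemma bdd {F : Type*} [NormedAddCommGroup F] {φ : EuclideanSpace ℝ (Fin 3) → F}
    (hφ : Continuous φ) : ∃ B : ℝ, 0 ≤ B ∧ ∀ x ∈ cube, ‖φ x‖ ≤ B := by
  obtain ⟨B0, hB0⟩ := cube_compact.exists_bound_of_continuousOn hφ.continuousOn
  exact ⟨|B0|, abs_nonneg _, fun x hx => (hB0 x hx).trans (le_abs_self _)⟩

/-- Bound of the pairing with the interaction of two shells. -/
lemma Tt_sc_bound (m : ℕ) {φ : EuclideanSpace ℝ (Fin 3) → EuclideanSpace ℝ (Fin 3)}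
    (hφ : Continuous φ) {C ρ B : ℝ} (hC : 0 ≤ C) (hρ : 1 ≤ ρ)
    (hb : ∀ n x, ‖V m n x‖ ≤ C * ρ ^ n ∧ ‖fderiv ℝ (V m n) x‖ ≤ C * ρ ^ n)
    (hB : ∀ x ∈ cube, ‖φ x‖ ≤ B) (n n' : ℕ) :
    |Tt m n n' (sc φ)| ≤ (C * ρ ^ n' * (C * ρ ^ n)) * B * volume.real cube := by
  have hμ : (volume : Measure (EuclideanSpace ℝ (Fin 3))) cube ≠ ⊤ := cube_compact.measure_ne_top
  have e := V_conv m n n' φ hφ
  have e' : Tt m n n' (sc φ) = ∫ x in cube, ⟪fderiv ℝ (V m n') x (V m n x), φ x⟫ := e.symm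
  rw [e', ← Real.norm_eq_abs]
  refine norm_setIntegral_le_of_norm_le_const hμ.lt_top fun x hx => ?_
  calc ‖⟪fderiv ℝ (V m n') x (V m n x), φ x⟫‖
      ≤ ‖fderiv ℝ (V m n') x (V m n x)‖ * ‖φ x‖ := norm_inner_le_norm _ _
    _ ≤ (‖fderiv ℝ (V m n') x‖ * ‖V m n x‖) * ‖φ x‖ := by
        gcongr
        exact ContinuousLinearMap.le_opNorm _ _
    _ ≤ (C * ρ ^ n' * (C * ρ ^ n)) * B := by
        have h1 := (hb n' x).2
        have h2 := (hb n x).1
        have h3 := hB x hx
        gcongr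

/-- Squared length of an integer vector. -/
lemma norm_vec_sq (v : Fin 3 → ℤ) : ‖vec v‖ ^ 2 = (dot v v : ℝ) := by
  rw [EuclideanSpace.norm_sq_eq, Fin.sum_univ_three]
  simp only [vec, dot, Real.norm_eq_abs, sq_abs]
  push_cast
  rw [← sq, ← sq, ← sq]

lemma norm_ev (n : ℕ) (g : Sgn) : ‖vec (act g (ev n))‖ ≤ 7 := by
  have h : ‖vec (act g (ev n))‖ ^ 2 ≤ 7 ^ 2 := by
    rw [norm_vec_sq, Sums.dot_act]
    have h1 : dot (ev n) (ev n) ≤ 49 := by
      unfold ev
      split <;> simp [dot]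
    have h2 : ((dot (ev n) (ev n) : ℤ) : ℝ) ≤ 49 := by exact_mod_cast h1
    linarith
  exact (abs_le_of_sq_le_sq' h (by norm_num)).2

lemma w_bound {S : (Fin 3 → ℤ) → EuclideanSpace ℝ (Fin 3)} {B : ℝ} (hb : ∀ k, ‖S k‖ ≤ B)
    (m n : ℕ) : |w m n S| ≤ (Fintype.card Sgn : ℝ) * (7 * B) := by
  unfold w
  calc |∑ g : Sgn, ⟪vec (act g (ev n)), S (act g (kk m n))⟫|
      ≤ ∑ g : Sgn, |⟪vec (act g (ev n)), S (act g (kk m n))⟫| := Finset.abs_sum_le_sum_abs _ _
    _ ≤ ∑ _g : Sgn, 7 * B := by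
        refine Finset.sum_le_sum fun g _ => ?_
        calc |⟪vec (act g (ev n)), S (act g (kk m n))⟫|
            ≤ ‖vec (act g (ev n))‖ * ‖S (act g (kk m n))‖ := abs_real_inner_le_norm _ _
          _ ≤ 7 * B := mul_le_mul (norm_ev n g) (hb _) (norm_nonneg _) (by norm_num)
    _ = (Fintype.card Sgn : ℝ) * (7 * B) := by
        rw [Finset.sum_const, Finset.card_univ, nsmul_eq_mul]

lemma coef_bound (m n l : ℕ) : |(Q m n : ℝ) / (eps l : ℝ)| ≤ (12160 * 16 ^ m) * 16 ^ n := by
  rw [abs_div]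
  exact (div_le_self (abs_nonneg _) ((eps_pos l).trans (le_abs_self _))).trans (Q_bound m n)

end Weak

open Weak Momentum

theorem U_dt {T : ℝ} {a a' : ℕ → ℝ → ℝ} (h : Amp T a a') (m : ℕ) {t : ℝ} (ht : t ∈ Ico 0 T)
    {φ : EuclideanSpace ℝ (Fin 3) → EuclideanSpace ℝ (Fin 3)} (hφ : Continuous φ) :
    HasSum (fun n => a' n t * w m n (sc φ))
      (∫ x in cube, ⟪derivWithin (fun s => U m a s x) (Ico 0 T) t, φ x⟫) := by
  obtain ⟨C, ρ, hC, hρ, hb⟩ := V_bound m
  obtain ⟨-, hr'⟩ := amp_rapid h ht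
  have hcV : ∀ n, Continuous (V m n) := fun n => (V_contDiff m n).continuous
  obtain ⟨B, hBn, hB⟩ := bdd hφ
  have hs := hasSum_cube hr' (fun n x => ⟪V m n x, φ x⟫) (fun n => (hcV n).inner hφ)
    (C * B) ρ (by positivity) hρ (fun n x hx => by
      calc ‖⟪V m n x, φ x⟫‖ ≤ ‖V m n x‖ * ‖φ x‖ := norm_inner_le_norm _ _
        _ ≤ C * ρ ^ n * B := mul_le_mul (hb n x).1 (hB x hx) (norm_nonneg _) (by positivity)
        _ = C * B * ρ ^ n := by ring)
  have e1 : ∀ x, ⟪derivWithin (fun s => U m a s x) (Ico 0 T) t, φ x⟫ =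
      ∑' n, a' n t • ⟪V m n x, φ x⟫ := by
    intro x
    rw [U_deriv h m ht x, real_inner_comm]
    have hsum := summable_pt hr' (fun n => V m n x) C ρ hC hρ fun n => (hb n x).1
    rw [← innerSL_apply_apply ℝ, (innerSL ℝ (φ x)).map_tsum hsum]
    refine tsum_congr fun n => ?_
    rw [map_smul, innerSL_apply_apply, real_inner_comm]
  have e2 : ∀ n, a' n t • ∫ x in cube, ⟪V m n x, φ x⟫ = a' n t * w m n (sc φ) := fun n => by
    rw [V_pair m n φ hφ, smul_eq_mul]
    rfl
  simp_rw [e1]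
  simp_rw [e2] at hs
  exact hs

theorem U_conv {T : ℝ} {a a' : ℕ → ℝ → ℝ} (h : Amp T a a') (m : ℕ) {t : ℝ} (ht : t ∈ Ico 0 T)
    {φ : EuclideanSpace ℝ (Fin 3) → EuclideanSpace ℝ (Fin 3)} (hφ : Continuous φ) :
    HasSum (fun z : ℕ × ℕ => a z.1 t * a z.2 t * Tt m z.1 z.2 (sc φ))
      (∫ x in cube, ⟪fderiv ℝ (U m a t) x (U m a t x), φ x⟫) := by
  obtain ⟨C, ρ, hC, hρ, hb⟩ := V_bound m
  obtain ⟨hr, -⟩ := amp_rapid h ht
  have hcV : ∀ n, Continuous (V m n) := fun n => (V_contDiff m n).continuous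
  have hcdV : ∀ n, Continuous (fderiv ℝ (V m n)) := fun n =>
    (V_contDiff m n).continuous_fderiv (by simp)
  have hcdU : Continuous (fderiv ℝ (U m a t)) := (U_smooth h m ht).continuous_fderiv (by simp)
  obtain ⟨B, hBn, hB⟩ := bdd hφ
  obtain ⟨D, hDn, hD⟩ := bdd hcdU
  -- the inner sums
  have hinner : ∀ n, HasSum (fun n' => a n' t * Tt m n n' (sc φ))
      (∫ x in cube, ⟪fderiv ℝ (U m a t) x (V m n x), φ x⟫) := by
    intro n
    have hs := hasSum_cube hr (fun n' x => ⟪fderiv ℝ (V m n') x (V m n x), φ x⟫)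
      (fun n' => ((hcdV n').clm_apply (hcV n)).inner hφ)
      (C * (C * ρ ^ n) * B) ρ (by positivity) hρ (fun n' x hx => by
        calc ‖⟪fderiv ℝ (V m n') x (V m n x), φ x⟫‖
            ≤ ‖fderiv ℝ (V m n') x (V m n x)‖ * ‖φ x‖ := norm_inner_le_norm _ _
          _ ≤ (‖fderiv ℝ (V m n') x‖ * ‖V m n x‖) * ‖φ x‖ := by
              gcongr
              exact ContinuousLinearMap.le_opNorm _ _
          _ ≤ (C * ρ ^ n' * (C * ρ ^ n)) * B := by
              have h1 := (hb n' x).2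
              have h2 := (hb n x).1
              have h3 := hB x hx
              gcongr
          _ = C * (C * ρ ^ n) * B * ρ ^ n' := by ring)
    have e1 : ∀ x, ⟪fderiv ℝ (U m a t) x (V m n x), φ x⟫ =
        ∑' n', a n' t • ⟪fderiv ℝ (V m n') x (V m n x), φ x⟫ := by
      intro x
      have hsum := summable_pt hr (fun n' => fderiv ℝ (V m n') x) C ρ hC hρ fun n' => (hb n' x).2
      rw [U_fderiv h m ht x]
      have h1 : (∑' n', a n' t • fderiv ℝ (V m n') x) (V m n x) =
          ∑' n', a n' t • fderiv ℝ (V m n') x (V m n x) := by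
        have := ((ContinuousLinearMap.apply ℝ (EuclideanSpace ℝ (Fin 3)) (V m n x))).map_tsum hsum
        simpa using this
      have hsum2 : Summable fun n' => a n' t • fderiv ℝ (V m n') x (V m n x) := by
        have := ((ContinuousLinearMap.apply ℝ (EuclideanSpace ℝ (Fin 3)) (V m n x))).summable hsum
        simpa using this
      rw [h1, real_inner_comm, ← innerSL_apply_apply ℝ, (innerSL ℝ (φ x)).map_tsum hsum2]
      refine tsum_congr fun n' => ?_
      rw [map_smul, innerSL_apply_apply, real_inner_comm]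
    have e2 : ∀ n', a n' t • ∫ x in cube, ⟪fderiv ℝ (V m n') x (V m n x), φ x⟫ =
        a n' t * Tt m n n' (sc φ) := fun n' => by
      rw [V_conv m n n' φ hφ, smul_eq_mul]
      rfl
    simp_rw [e1]
    simp_rw [e2] at hs
    exact hs
  -- the outer sum
  have hsecond : HasSum (fun n => a n t * ∫ x in cube, ⟪fderiv ℝ (U m a t) x (V m n x), φ x⟫)
      (∫ x in cube, ⟪fderiv ℝ (U m a t) x (U m a t x), φ x⟫) := by
    have hs := hasSum_cube hr (fun n x => ⟪fderiv ℝ (U m a t) x (V m n x), φ x⟫)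
      (fun n => (hcdU.clm_apply (hcV n)).inner hφ)
      (D * C * B) ρ (by positivity) hρ (fun n x hx => by
        calc ‖⟪fderiv ℝ (U m a t) x (V m n x), φ x⟫‖
            ≤ ‖fderiv ℝ (U m a t) x (V m n x)‖ * ‖φ x‖ := norm_inner_le_norm _ _
          _ ≤ (‖fderiv ℝ (U m a t) x‖ * ‖V m n x‖) * ‖φ x‖ := by
              gcongr
              exact ContinuousLinearMap.le_opNorm _ _
          _ ≤ (D * (C * ρ ^ n)) * B := by
              have h1 := hD x hx
              have h2 := (hb n x).1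
              have h3 := hB x hx
              gcongr
          _ = D * C * B * ρ ^ n := by ring)
    have e1 : ∀ x, ⟪fderiv ℝ (U m a t) x (U m a t x), φ x⟫ =
        ∑' n, a n t • ⟪fderiv ℝ (U m a t) x (V m n x), φ x⟫ := by
      intro x
      have hsum := summable_pt hr (fun n => V m n x) C ρ hC hρ fun n => (hb n x).1
      have h1 : fderiv ℝ (U m a t) x (U m a t x) =
          ∑' n, a n t • fderiv ℝ (U m a t) x (V m n x) := by
        have h0 : U m a t x = ∑' n, a n t • V m n x := rfl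
        rw [h0, (fderiv ℝ (U m a t) x).map_tsum hsum]
        exact tsum_congr fun n => map_smul _ _ _
      have hsum2 : Summable fun n => a n t • fderiv ℝ (U m a t) x (V m n x) := by
        have := (fderiv ℝ (U m a t) x).summable hsum
        simpa using this
      rw [h1, real_inner_comm, ← innerSL_apply_apply ℝ, (innerSL ℝ (φ x)).map_tsum hsum2]
      refine tsum_congr fun n => ?_
      rw [map_smul, innerSL_apply_apply, real_inner_comm]
    simp_rw [e1]
    simp_rw [smul_eq_mul] at hs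
    simpa only [smul_eq_mul] using hs
  -- absolute summability
  have hsum : Summable fun z : ℕ × ℕ => a z.1 t * a z.2 t * Tt m z.1 z.2 (sc φ) := by
    have hvol : 0 ≤ volume.real (cube : Set (EuclideanSpace ℝ (Fin 3))) := measureReal_nonneg
    have hρ0 : 0 ≤ ρ := by linarith
    have s1 := hr.summable (C * (C * B * volume.real cube)) ρ (by positivity) hρ
    have s2 := hr.summable 1 ρ zero_le_one hρ
    refine Summable.of_norm_bounded (s1.mul_of_nonneg s2 (fun n => by positivity)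
      (fun n => by positivity)) fun z => ?_
    have hT := Tt_sc_bound m hφ hC hρ hb hB z.1 z.2
    rw [Real.norm_eq_abs, abs_mul, abs_mul]
    calc |a z.1 t| * |a z.2 t| * |Tt m z.1 z.2 (sc φ)|
        ≤ |a z.1 t| * |a z.2 t| * ((C * ρ ^ z.2 * (C * ρ ^ z.1)) * B * volume.real cube) :=
          mul_le_mul_of_nonneg_left hT (by positivity)
      _ = |a z.1 t| * (C * (C * B * volume.real cube) * ρ ^ z.1) *
          (|a z.2 t| * (1 * ρ ^ z.2)) := by ring
  have hg : ∀ n, HasSum (fun n' => a n t * a n' t * Tt m n n' (sc φ))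
      (a n t * ∫ x in cube, ⟪fderiv ℝ (U m a t) x (V m n x), φ x⟫) := by
    intro n
    have := (hinner n).mul_left (a n t)
    simpa only [mul_assoc] using this
  have h3 := hsum.hasSum.prod_fiberwise hg
  rw [← h3.unique hsecond]
  exact hsum.hasSum

theorem chain_sum {T : ℝ} {a a' : ℕ → ℝ → ℝ} (h : Amp T a a') (m : ℕ) {t : ℝ}
    (ht : t ∈ Ico 0 T)
    (hode : ∀ n, a' n t = (if n = 0 then 0 else (Q m (n - 1) : ℝ) / eps n * a (n - 1) t ^ 2)
      - (Q m n : ℝ) / eps n * a n t * a (n + 1) t)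
    (S : (Fin 3 → ℤ) → EuclideanSpace ℝ (Fin 3)) (h0 : S 0 = 0)
    (h1 : ∀ k, ⟪vec k, S k⟫ = 0) (h2 : ∀ k ∉ L m, S k = 0) (hb : ∃ B, ∀ k, ‖S k‖ ≤ B) :
    HasSum (fun z : ℕ × ℕ => a z.1 t * a z.2 t * Tt m z.1 z.2 S)
      (-(∑' n, a' n t * w m n S)) := by
  obtain ⟨B, hB⟩ := hb
  obtain ⟨hr, hr'⟩ := amp_rapid h ht
  have hBn : 0 ≤ B := (norm_nonneg _).trans (hB 0)
  set W : ℝ := (Fintype.card Sgn : ℝ) * (7 * B) with hW
  have hWn : 0 ≤ W := by positivity
  have hw : ∀ n, |w m n S| ≤ W := fun n => w_bound hB m n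
  -- the first sum
  have hfirst : HasSum (fun n => a' n t * w m n S) (∑' n, a' n t * w m n S) := by
    refine Summable.hasSum ?_
    refine Summable.of_norm_bounded (hr'.summable W 1 hWn le_rfl) fun n => ?_
    rw [Real.norm_eq_abs, abs_mul, one_pow, mul_one]
    exact mul_le_mul_of_nonneg_left (hw n) (abs_nonneg _)
  -- the double sum
  have hTt : ∀ n n', |Tt m n n' S| ≤ (12160 * 16 ^ m) * 16 ^ n * W := by
    intro n n'
    rw [Tt_eq m n n' S h0 h1 h2]
    split_ifs
    · rw [abs_mul, abs_neg]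
      exact mul_le_mul (coef_bound m n _) (hw _) (abs_nonneg _) (by positivity)
    · rw [abs_mul]
      exact mul_le_mul (coef_bound m n _) (hw _) (abs_nonneg _) (by positivity)
    · rw [abs_zero]
      positivity
  have hsum : Summable fun z : ℕ × ℕ => a z.1 t * a z.2 t * Tt m z.1 z.2 S := by
    have s1 := hr.summable ((12160 * 16 ^ m) * W) 16 (by positivity) (by norm_num)
    have s2 := hr.summable 1 1 zero_le_one le_rfl
    refine Summable.of_norm_bounded (s1.mul_of_nonneg s2 (fun n => by positivity)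
      (fun n => by positivity)) fun z => ?_
    rw [Real.norm_eq_abs, abs_mul, abs_mul]
    calc |a z.1 t| * |a z.2 t| * |Tt m z.1 z.2 S|
        ≤ |a z.1 t| * |a z.2 t| * ((12160 * 16 ^ m) * 16 ^ z.1 * W) :=
          mul_le_mul_of_nonneg_left (hTt _ _) (by positivity)
      _ = |a z.1 t| * ((12160 * 16 ^ m) * W * 16 ^ z.1) *
          (|a z.2 t| * (1 * 1 ^ z.2)) := by rw [one_pow]; ring
  have hg : ∀ n, HasSum (fun n' => a n t * a n' t * Tt m n n' S)
      (a n t * (a n t * (-((Q m n : ℝ) / (eps (n + 1) : ℝ)) * w m (n + 1) S) +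
        a (n + 1) t * (((Q m n : ℝ) / (eps n : ℝ)) * w m n S))) := by
    intro n
    have h3 : HasSum (fun n' => a n t * a n' t * Tt m n n' S)
        (∑ n' ∈ {n, n + 1}, a n t * a n' t * Tt m n n' S) := by
      refine hasSum_sum_of_ne_finset_zero fun n' hn' => ?_
      simp only [Finset.mem_insert, Finset.mem_singleton, not_or] at hn'
      rw [Tt_eq m n n' S h0 h1 h2, if_neg hn'.1, if_neg hn'.2, mul_zero]
    rw [Finset.sum_pair (by omega)] at h3
    rw [Tt_eq m n n S h0 h1 h2, if_pos rfl, Tt_eq m n (n + 1) S h0 h1 h2,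
      if_neg (by omega), if_pos rfl] at h3
    have e : a n t * (a n t * (-((Q m n : ℝ) / (eps (n + 1) : ℝ)) * w m (n + 1) S) +
        a (n + 1) t * (((Q m n : ℝ) / (eps n : ℝ)) * w m n S)) =
        a n t * a n t * (-((Q m n : ℝ) / (eps (n + 1) : ℝ)) * w m (n + 1) S) +
        a n t * a (n + 1) t * (((Q m n : ℝ) / (eps n : ℝ)) * w m n S) := by ring
    rw [e]
    exact h3
  have hsecond := hsum.hasSum.prod_fiberwise hg
  -- the total
  set f : ℕ → ℝ := fun n => if n = 0 then 0 else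
    (Q m (n - 1) : ℝ) / eps n * a (n - 1) t ^ 2 * w m n S with hf
  have htot : HasSum (fun n => f n - f (n + 1))
      ((∑' n, a' n t * w m n S) + ∑' z : ℕ × ℕ, a z.1 t * a z.2 t * Tt m z.1 z.2 S) := by
    have e : (fun n => f n - f (n + 1)) = fun n => a' n t * w m n S +
        a n t * (a n t * (-((Q m n : ℝ) / (eps (n + 1) : ℝ)) * w m (n + 1) S) +
          a (n + 1) t * (((Q m n : ℝ) / (eps n : ℝ)) * w m n S)) := by
      funext n
      have h3 : f (n + 1) = (Q m n : ℝ) / eps (n + 1) * a n t ^ 2 * w m (n + 1) S := by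
        simp [hf]
      rw [h3, hode n]
      by_cases hn : n = 0
      · subst hn
        simp only [hf, if_pos]
        ring
      · simp only [hf, if_neg hn]
        ring
    rw [e]
    exact hfirst.add hsecond
  have hlim : Tendsto f atTop (𝓝 0) := by
    rw [← tendsto_add_atTop_iff_nat 1]
    obtain ⟨K, hK⟩ := hr.bounded
    have hK0 : 0 ≤ K := (abs_nonneg _).trans (hK 0)
    have hsum' := hr.summable ((12160 * 16 ^ m) * K * W) 16 (by positivity) (by norm_num)
    refine squeeze_zero_norm (fun n => ?_) hsum'.tendsto_atTop_zero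
    have h3 : f (n + 1) = (Q m n : ℝ) / eps (n + 1) * a n t ^ 2 * w m (n + 1) S := by
      simp [hf]
    rw [h3, Real.norm_eq_abs, abs_mul, abs_mul]
    have h4 : |a n t ^ 2| ≤ K * |a n t| := by
      rw [abs_pow, sq]
      exact mul_le_mul_of_nonneg_right (hK n) (abs_nonneg _)
    have h5 := hw (n + 1)
    have h6 := coef_bound m n (n + 1)
    calc |(Q m n : ℝ) / (eps (n + 1) : ℝ)| * |a n t ^ 2| * |w m (n + 1) S|
        ≤ ((12160 * 16 ^ m) * 16 ^ n) * (K * |a n t|) * W := by gcongr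
      _ = |a n t| * ((12160 * 16 ^ m) * K * W * 16 ^ n) := by ring
  have hz := telescope hlim htot
  have hf0 : f 0 = 0 := by simp [hf]
  rw [hf0] at hz
  have h3 : (-(∑' n, a' n t * w m n S)) =
      ∑' z : ℕ × ℕ, a z.1 t * a z.2 t * Tt m z.1 z.2 S := by linarith
  rw [h3]
  exact hsum.hasSum

end Pool.Agent.Work.MP_b0497c_an.Tri
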