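import Mathlib
import Pool.Agent.Work.MP_b0497c_an.Tri.Defs
import Pool.Agent.Work.MP_b0497c_an.Tri.Eval
import Pool.Agent.Work.MP_b0497c_an.Tri.Weak
import Pool.Agent.Work.MP_b0497c_an.Dec.Momentum

set_option autoImplicit false

/-!
The series of fields solves the Euler equations with the triad interactions of `DD m` deleted.
-/

namespace Pool.Agent.Work.MP_b0497c_an.Tri

open Set MeasureTheory RealInnerProductSpace Pool.Agent.Work.MP_b0497c_an Filter Topology
open Pool.Agent.Work.MP_b0497c_an.Dec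
open scoped ContDiff

namespace Momentum

lemma cut_add (A : Set (Fin 3 → ℤ)) (S : (Fin 3 → ℤ) → EuclideanSpace ℝ (Fin 3))
    (k : Fin 3 → ℤ) : cut A S k + cut Aᶜ S k = S k := by
  unfold cut
  by_cases h : k ∈ A
  · rw [if_pos h, if_neg (fun h' => h' h), add_zero]
  · rw [if_neg h, if_pos (show k ∈ Aᶜ from h), zero_add]

lemma Tt_cut (m n n' : ℕ) (A : Set (Fin 3 → ℤ))
    (S : (Fin 3 → ℤ) → EuclideanSpace ℝ (Fin 3)) :
    Tt m n n' S = Tt m n n' (cut A S) + Tt m n n' (cut Aᶜ S) := by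
  unfold Tt
  rw [← Finset.sum_add_distrib]
  refine Finset.sum_congr rfl fun g _ => ?_
  rw [← Finset.sum_add_distrib]
  refine Finset.sum_congr rfl fun h _ => ?_
  rw [← mul_add, ← inner_add_right, cut_add]

lemma w_cut (m n : ℕ) (S : (Fin 3 → ℤ) → EuclideanSpace ℝ (Fin 3)) :
    w m n (cut (L m) S) = w m n S := by
  unfold w
  refine Finset.sum_congr rfl fun g _ => ?_
  have hk : act g (kk m n) ∈ L m := Or.inr (Or.inl ⟨n, g, rfl⟩)
  unfold cut
  rw [if_pos hk]

lemma sc_zero (φ : EuclideanSpace ℝ (Fin 3) → EuclideanSpace ℝ (Fin 3)) : sc φ 0 = 0 := by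
  have : ∀ x, phase 0 x = 0 := fun x => by simp [phase]
  simp [sc, this]

lemma sc_bound {φ : EuclideanSpace ℝ (Fin 3) → EuclideanSpace ℝ (Fin 3)} (hφ : Continuous φ)
    (k : Fin 3 → ℤ) : ‖sc φ k‖ ≤ ∫ x in cube, ‖φ x‖ := by
  have hint : IntegrableOn (fun x => ‖φ x‖) cube :=
    hφ.norm.continuousOn.integrableOn_compact cube_compact
  refine norm_integral_le_of_norm_le hint (Filter.Eventually.of_forall fun x => ?_)
  rw [norm_smul, Real.norm_eq_abs]
  calc |Real.sin (phase k x)| * ‖φ x‖ ≤ 1 * ‖φ x‖ :=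
        mul_le_mul_of_nonneg_right (Real.abs_sin_le_one _) (norm_nonneg _)
    _ = ‖φ x‖ := one_mul _

lemma cont_dt {T : ℝ} {a a' : ℕ → ℝ → ℝ} (h : Amp T a a') (m : ℕ) {t : ℝ}
    (ht : t ∈ Ico 0 T) : Continuous fun x => derivWithin (fun s => U m a s x) (Ico 0 T) t := by
  obtain ⟨C, ρ, hC, hρ, hb⟩ := Dec.Momentum.V_bound m
  obtain ⟨hr, hr'⟩ := Dec.Momentum.amp_rapid h ht
  have hcV : ∀ n, Continuous (V m n) := fun n => (V_contDiff m n).continuous
  have hc : Continuous fun x => ∑' n, a' n t • V m n x := by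
    refine continuous_tsum (fun n => (hcV n).const_smul (a' n t))
      (hr'.summable C ρ hC hρ) fun n x => ?_
    rw [norm_smul, Real.norm_eq_abs]
    exact mul_le_mul_of_nonneg_left (hb n x).1 (abs_nonneg _)
  have e : (fun x => derivWithin (fun s => U m a s x) (Ico 0 T) t) =
      fun x => ∑' n, a' n t • V m n x := by
    funext x
    rw [U_deriv h m ht x]
  rw [e]
  exact hc

end Momentum

open Momentum

theorem U_deleted {T : ℝ} {a a' : ℕ → ℝ → ℝ} (h : Amp T a a') (m : ℕ) {t : ℝ}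
    (ht : t ∈ Ico 0 T)
    (hode : ∀ n, a' n t = (if n = 0 then 0 else (Q m (n - 1) : ℝ) / eps n * a (n - 1) t ^ 2)
      - (Q m n : ℝ) / eps n * a n t * a (n + 1) t)
    {φ : EuclideanSpace ℝ (Fin 3) → EuclideanSpace ℝ (Fin 3)} (hφ : IsField φ) :
    ∫ x in cube, ⟪derivWithin (fun s => U m a s x) (Ico 0 T) t
      + fderiv ℝ (U m a t) x (U m a t x), φ x⟫ = Del (DD m) (U m a t) (U m a t) φ := by
  have hcφ : Continuous φ := hφ.contDiff.continuous
  have hcU : Continuous (U m a t) := (U_smooth h m ht).continuous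
  have hcdU : Continuous (fderiv ℝ (U m a t)) := (U_smooth h m ht).continuous_fderiv (by simp)
  have hconv := U_conv h m ht hcφ
  have hdel := Del_U h m ht hφ
  have hdt := U_dt h m ht hcφ
  have hchain := chain_sum h m ht hode (cut (L m) (sc φ))
    (by
      unfold cut
      rw [sc_zero, ite_self])
    (fun k => by
      unfold cut
      split_ifs
      · exact sin_coeff_orth hφ.contDiff hφ.periodic hφ.div_free k
      · exact inner_zero_right _)
    (fun k hk => by
      unfold cut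
      rw [if_neg hk])
    ⟨∫ x in cube, ‖φ x‖, fun k => by
      unfold cut
      split_ifs
      · exact sc_bound hcφ k
      · rw [norm_zero]
        exact integral_nonneg fun x => norm_nonneg _⟩
  have hsub := hconv.sub hdel
  have e : (fun z : ℕ × ℕ => a z.1 t * a z.2 t * Tt m z.1 z.2 (sc φ) -
      a z.1 t * a z.2 t * Tt m z.1 z.2 (cut (L m)ᶜ (sc φ))) =
      fun z : ℕ × ℕ => a z.1 t * a z.2 t * Tt m z.1 z.2 (cut (L m) (sc φ)) := by
    funext z
    rw [Tt_cut m z.1 z.2 (L m) (sc φ)]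
    ring
  rw [e] at hsub
  have h1 := hsub.unique hchain
  have h2 : ∑' n, a' n t * w m n (cut (L m) (sc φ)) =
      ∫ x in cube, ⟪derivWithin (fun s => U m a s x) (Ico 0 T) t, φ x⟫ := by
    rw [← hdt.tsum_eq]
    exact tsum_congr fun n => by rw [w_cut]
  rw [h2] at h1
  have h3 : ∫ x in cube, ⟪derivWithin (fun s => U m a s x) (Ico 0 T) t
      + fderiv ℝ (U m a t) x (U m a t x), φ x⟫ =
      (∫ x in cube, ⟪derivWithin (fun s => U m a s x) (Ico 0 T) t, φ x⟫) +
        ∫ x in cube, ⟪fderiv ℝ (U m a t) x (U m a t x), φ x⟫ := by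
    rw [← integral_add]
    · simp only [inner_add_left]
    · exact ((cont_dt h m ht).inner hcφ).continuousOn.integrableOn_compact cube_compact
    · exact ((hcdU.clm_apply hcU).inner hcφ).continuousOn.integrableOn_compact cube_compact
  rw [h3]
  linarith

end Pool.Agent.Work.MP_b0497c_an.Tri
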