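import Mathlib
import Pool.Agent.Work.MP_b0497c_an.Bd.B21
import Pool.Agent.Work.MP_b0497c_an.Tri.Defs
import Pool.Agent.Work.MP_b0497c_an.Tri.Form
import Pool.Agent.Work.MP_b0497c_an.Tri.Anti

set_option autoImplicit false

/-! Uniqueness of `C¹` solutions of the deleted Euler equations. -/

namespace Pool.Agent.Work.MP_b0497c_an.Tri

open Set MeasureTheory RealInnerProductSpace Pool.Agent.Work.MP_b0497c_an Filter Topology
open Pool.Agent.Work.MP_b0497c_an.Dec
open scoped ContDiff

namespace TUniq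

/-! ### Admissible fields -/

theorem field_sub {f g : E3 → E3} (hf : IsField f) (hg : IsField g) :
    IsField (fun x => f x - g x) where
  contDiff := hf.contDiff.sub hg.contDiff
  periodic := by
    intro i x
    show f _ - g _ = _
    rw [hf.periodic i x, hg.periodic i x]
  div_free := by
    intro x
    have h1 : fderiv ℝ (fun x => f x - g x) x = fderiv ℝ f x - fderiv ℝ g x :=
      fderiv_fun_sub (hf.contDiff.differentiable (by norm_num) x)
        (hg.contDiff.differentiable (by norm_num) x)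
    rw [h1]
    have h2 : LinearMap.trace ℝ E3 ((fderiv ℝ f x - fderiv ℝ g x : E3 →L[ℝ] E3) : E3 →ₗ[ℝ] E3)
        = LinearMap.trace ℝ E3 (fderiv ℝ f x : E3 →ₗ[ℝ] E3)
          - LinearMap.trace ℝ E3 (fderiv ℝ g x : E3 →ₗ[ℝ] E3) := by
      rw [← map_sub]; rfl
    rw [h2, hf.div_free x, hg.div_free x, sub_zero]

/-! ### Bounds for a deleted solution -/

variable {D : Set ((Fin 3 → ℤ) × (Fin 3 → ℤ) × (Fin 3 → ℤ))} {T : ℝ} {u : ℝ → E3 → E3}

theorem cont_u (h : IsDeletedSolution D T u) {β : ℝ} (hβ : β < T) :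
    ContinuousOn (fun z : ℝ × E3 => u z.1 z.2) (Icc 0 β ×ˢ univ) :=
  h.contDiff_u.continuousOn.mono (prod_mono (Uniq.sub_Ico hβ) (Subset.refl _))

theorem bound_u (h : IsDeletedSolution D T u) {β : ℝ} (hβ : β < T) :
    ∃ C : ℝ, 0 ≤ C ∧ ∀ t ∈ Icc 0 β, ∀ x, ‖u t x‖ ≤ C :=
  exists_bound (cont_u h hβ) fun t ht => (h.field t (Uniq.sub_Ico hβ ht)).periodic

theorem bound_M (h : IsDeletedSolution D T u) {β : ℝ} (hβ : β < T) :
    ∃ C : ℝ, 0 ≤ C ∧ ∀ t ∈ Icc 0 β, ∀ x, ‖fderiv ℝ (u t) x‖ ≤ C :=
  exists_bound (G := fun t x => fderiv ℝ (u t) x)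
    ((continuousOn_fderiv h.contDiff_u).mono (prod_mono (Uniq.sub_Ico hβ) (Subset.refl _)))
    fun t ht => (h.field t (Uniq.sub_Ico hβ ht)).periodic.fderiv

theorem per_dt (h : IsDeletedSolution D T u) {t : ℝ} (ht : t ∈ Ico 0 T) :
    Periodic3 (fun x => derivWithin (fun s => u s x) (Ico 0 T) t) := by
  intro i x
  apply derivWithin_congr
  · intro s hs
    exact (h.field s hs).periodic i x
  · exact (h.field t ht).periodic i x

theorem cont_dt (h : IsDeletedSolution D T u) {t : ℝ} (ht : t ∈ Ico 0 T) :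
    Continuous (fun x => derivWithin (fun s => u s x) (Ico 0 T) t) := by
  have c3 : Continuous (fun x : E3 => (t, x)) := by fun_prop
  have c4 : ContinuousOn ((fun z : ℝ × E3 => derivWithin (fun s => u s z.2) (Ico 0 T) z.1)
      ∘ (fun x : E3 => (t, x))) univ :=
    ContinuousOn.comp (continuousOn_derivWithin h.contDiff_u) c3.continuousOn
      (fun x _ => ⟨ht, mem_univ _⟩)
  exact continuousOn_univ.mp c4

theorem bound_dt (h : IsDeletedSolution D T u) {β : ℝ} (hβ : β < T) :
    ∃ C : ℝ, 0 ≤ C ∧ ∀ t ∈ Icc 0 β, ∀ x, ‖derivWithin (fun s => u s x) (Ico 0 T) t‖ ≤ C :=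
  exists_bound (G := fun t x => derivWithin (fun s => u s x) (Ico 0 T) t)
    ((continuousOn_derivWithin h.contDiff_u).mono (prod_mono (Uniq.sub_Ico hβ) (Subset.refl _)))
    fun t ht => per_dt h (Uniq.sub_Ico hβ ht)

theorem hasDerivAt_time (h : IsDeletedSolution D T u) {t : ℝ} (ht : t ∈ Ioo 0 T) (x : E3) :
    HasDerivAt (fun s => u s x) (derivWithin (fun s => u s x) (Ico 0 T) t) t := by
  have h1 := hasDerivWithinAt_along h.contDiff_u (I := Ico 0 T) (Subset.refl _)
    (t := t) ⟨ht.1.le, ht.2⟩ (X := fun _ => x) (X' := 0) (hasDerivWithinAt_const _ _ _)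
  simp only [map_zero, add_zero] at h1
  exact h1.hasDerivAt (Ico_mem_nhds ht.1 ht.2)

variable {T₁ T₂ : ℝ} {v : ℝ → E3 → E3}

/-- The derivative of the energy of the difference. -/
theorem energy_deriv (hu : IsDeletedSolution D T₁ u) (hv : IsDeletedSolution D T₂ v)
    {t : ℝ} (h0 : 0 < t) (h1 : t < T₁) (h2 : t < T₂) :
    HasDerivAt (fun s => ∫ x in cube, ‖u s x - v s x‖ ^ 2)
      (2 * (Del D (u t) (u t) (fun x => u t x - v t x)
          - Del D (v t) (v t) (fun x => u t x - v t x))
        - 2 * ∫ x in cube, ⟪fderiv ℝ (v t) x (u t x - v t x), u t x - v t x⟫) t := by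
  obtain ⟨β, hβt, hβ⟩ : ∃ β, t < β ∧ β < min T₁ T₂ := exists_between (lt_min h1 h2)
  have hβ1 : β < T₁ := hβ.trans_le (min_le_left _ _)
  have hβ2 : β < T₂ := hβ.trans_le (min_le_right _ _)
  obtain ⟨U, hU0, hU⟩ := bound_u hu hβ1
  obtain ⟨U', hU'0, hU'⟩ := bound_u hv hβ2
  obtain ⟨D1, hD0, hD⟩ := bound_dt hu hβ1
  obtain ⟨D2, hD'0, hD'⟩ := bound_dt hv hβ2
  have hfin : IsFiniteMeasure (volume.restrict cube) :=
    ⟨by rw [Measure.restrict_apply_univ]; exact cube_compact.measure_lt_top⟩
  have cu : ∀ s ∈ Icc 0 β, Continuous (u s) := fun s hs =>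
    (hu.field s (Uniq.sub_Ico hβ1 hs)).contDiff.continuous
  have cv : ∀ s ∈ Icc 0 β, Continuous (v s) := fun s hs =>
    (hv.field s (Uniq.sub_Ico hβ2 hs)).contDiff.continuous
  have htI : t ∈ Ioo 0 β := ⟨h0, hβt⟩
  have htc : t ∈ Icc 0 β := Ioo_subset_Icc_self htI
  have ht1 : t ∈ Ico 0 T₁ := ⟨h0.le, h1⟩
  have ht2 : t ∈ Ico 0 T₂ := ⟨h0.le, h2⟩
  have key := hasDerivAt_integral_of_dominated_loc_of_deriv_le (μ := volume.restrict cube)
    (F := fun s x => ‖u s x - v s x‖ ^ 2) (x₀ := t) (s := Ioo 0 β)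
    (bound := fun _ => 2 * ((U + U') * (D1 + D2)))
    (F' := fun s x => 2 * ⟪u s x - v s x, derivWithin (fun r => u r x) (Ico 0 T₁) s
      - derivWithin (fun r => v r x) (Ico 0 T₂) s⟫)
    (Ioo_mem_nhds htI.1 htI.2)
    (by filter_upwards [Ioo_mem_nhds htI.1 htI.2] with s hs
        have hs' := Ioo_subset_Icc_self hs
        exact (((cu s hs').sub (cv s hs')).norm.pow 2).aestronglyMeasurable)
    ((((cu t htc).sub (cv t htc)).norm.pow 2).continuousOn.integrableOn_compact cube_compact)
    ((continuous_const.mul (((cu t htc).sub (cv t htc)).inner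
      ((cont_dt hu ht1).sub (cont_dt hv ht2)))).aestronglyMeasurable)
    (ae_of_all _ fun x s hs => by
      rw [norm_mul, Real.norm_eq_abs, Real.norm_eq_abs, abs_of_pos (show (0:ℝ) < 2 by norm_num)]
      have hs' := Ioo_subset_Icc_self hs
      gcongr
      refine (abs_real_inner_le_norm _ _).trans (mul_le_mul ?_ ?_ (norm_nonneg _) (by positivity))
      · exact (norm_sub_le _ _).trans (add_le_add (hU s hs' x) (hU' s hs' x))
      · exact (norm_sub_le _ _).trans (add_le_add (hD s hs' x) (hD' s hs' x)))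
    (integrable_const _)
    (ae_of_all _ fun x s hs => ((hasDerivAt_time hu ⟨hs.1, hs.2.trans hβ1⟩ x).sub
      (hasDerivAt_time hv ⟨hs.1, hs.2.trans hβ2⟩ x)).norm_sq)
  have hk := key.2
  refine hk.congr_deriv ?_
  -- the two momentum equations
  have mu := hu.field t ht1
  have mv := hv.field t ht2
  have mw := field_sub mu mv
  have e1 := hu.momentum t ht1 _ mw
  have e2 := hv.momentum t ht2 _ mw
  have e3 := Uniq.transport_zero mu.contDiff mu.periodic mu.div_free mw.contDiff mw.periodic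
  have cdu := cont_dt hu ht1
  have cdv := cont_dt hv ht2
  have cMu : Continuous (fun x => fderiv ℝ (u t) x (u t x)) :=
    (mu.contDiff.continuous_fderiv (by norm_num)).clm_apply mu.contDiff.continuous
  have cMv : Continuous (fun x => fderiv ℝ (v t) x (v t x)) :=
    (mv.contDiff.continuous_fderiv (by norm_num)).clm_apply mv.contDiff.continuous
  have cMw : Continuous (fun x => fderiv ℝ (fun x => u t x - v t x) x (u t x)) :=
    (mw.contDiff.continuous_fderiv (by norm_num)).clm_apply mu.contDiff.continuous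
  have cMvw : Continuous (fun x => fderiv ℝ (v t) x (u t x - v t x)) :=
    (mv.contDiff.continuous_fderiv (by norm_num)).clm_apply mw.contDiff.continuous
  have cw : Continuous (fun x => u t x - v t x) := mw.contDiff.continuous
  have e4 : ∀ x, 2 * ⟪u t x - v t x, derivWithin (fun r => u r x) (Ico 0 T₁) t
      - derivWithin (fun r => v r x) (Ico 0 T₂) t⟫
      = 2 * (⟪derivWithin (fun s => u s x) (Ico 0 T₁) t + fderiv ℝ (u t) x (u t x),
            u t x - v t x⟫
          - ⟪derivWithin (fun s => v s x) (Ico 0 T₂) t + fderiv ℝ (v t) x (v t x),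
            u t x - v t x⟫
          - ⟪fderiv ℝ (fun x => u t x - v t x) x (u t x), u t x - v t x⟫
          - ⟪fderiv ℝ (v t) x (u t x - v t x), u t x - v t x⟫) := by
    intro x
    have hfd : fderiv ℝ (fun x => u t x - v t x) x = fderiv ℝ (u t) x - fderiv ℝ (v t) x :=
      fderiv_fun_sub (mu.contDiff.differentiable (by norm_num) x)
        (mv.contDiff.differentiable (by norm_num) x)
    rw [hfd]
    simp only [inner_add_left, inner_sub_right, inner_sub_left, map_sub,
      sub_apply]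
    rw [real_inner_comm (u t x) (derivWithin (fun r => u r x) (Ico 0 T₁) t),
      real_inner_comm (v t x) (derivWithin (fun r => u r x) (Ico 0 T₁) t),
      real_inner_comm (u t x) (derivWithin (fun r => v r x) (Ico 0 T₂) t),
      real_inner_comm (v t x) (derivWithin (fun r => v r x) (Ico 0 T₂) t)]
    ring
  simp only [e4]
  have c1 : Continuous (fun x => ⟪derivWithin (fun s => u s x) (Ico 0 T₁) t
      + fderiv ℝ (u t) x (u t x), u t x - v t x⟫) := (cdu.add cMu).inner cw
  have c2 : Continuous (fun x => ⟪derivWithin (fun s => v s x) (Ico 0 T₂) t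
      + fderiv ℝ (v t) x (v t x), u t x - v t x⟫) := (cdv.add cMv).inner cw
  have c3 : Continuous (fun x => ⟪fderiv ℝ (fun x => u t x - v t x) x (u t x),
      u t x - v t x⟫) := cMw.inner cw
  have c4 : Continuous (fun x => ⟪fderiv ℝ (v t) x (u t x - v t x), u t x - v t x⟫) :=
    cMvw.inner cw
  rw [integral_const_mul, Uniq.int4 c1 c2 c3 c4, e1, e2, e3]
  ring

/-- The gradient norm is bounded by the supremum of the derivative. -/
theorem nG_le {f : E3 → E3} {K : ℝ} (hf : ContDiff ℝ 1 f)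
    (hK : ∀ x, ‖fderiv ℝ f x‖ ≤ K) :
    nG f ≤ Real.sqrt (∫ _x in cube, 3 * K ^ 2) := by
  unfold nG
  apply Real.sqrt_le_sqrt
  have c0 : Continuous (fun x => ∑ i, ‖fderiv ℝ f x (e i)‖ ^ 2) := by
    apply continuous_finsetSum
    intro i _
    exact (((hf.continuous_fderiv (by norm_num)).clm_apply continuous_const).norm).pow 2
  apply integral_mono (c0.continuousOn.integrableOn_compact cube_compact)
    (continuous_const.continuousOn.integrableOn_compact cube_compact)
  intro x
  show ∑ i, ‖fderiv ℝ f x (e i)‖ ^ 2 ≤ 3 * K ^ 2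
  have hn : ∀ i : Fin 3, ‖(e i : E3)‖ = 1 := by
    intro i
    simp [e]
  calc ∑ i, ‖fderiv ℝ f x (e i)‖ ^ 2 ≤ ∑ _i : Fin 3, K ^ 2 := by
        apply Finset.sum_le_sum
        intro i _
        have h1 := (fderiv ℝ f x).le_of_opNorm_le (hK x) (e i)
        rw [hn i, mul_one] at h1
        exact pow_le_pow_left₀ (norm_nonneg _) h1 2
    _ = 3 * K ^ 2 := by simp

theorem nL_sq (f : E3 → E3) : nL f * nL f = ∫ x in cube, ‖f x‖ ^ 2 := by
  unfold nL
  exact Real.mul_self_sqrt (integral_nonneg fun x => by positivity)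

theorem nL_nonneg (f : E3 → E3) : 0 ≤ nL f := Real.sqrt_nonneg _

theorem nG_nonneg (f : E3 → E3) : 0 ≤ nG f := Real.sqrt_nonneg _

end TUniq

open TUniq in
theorem unique {m : ℕ} {T₁ T₂ : ℝ}
    {u v : ℝ → EuclideanSpace ℝ (Fin 3) → EuclideanSpace ℝ (Fin 3)}
    (hu : IsDeletedSolution (DD m) T₁ u) (hv : IsDeletedSolution (DD m) T₂ v) (h0 : u 0 = v 0)
    {t : ℝ} (ht : 0 ≤ t) (h1 : t < T₁) (h2 : t < T₂) : u t = v t := by
  rcases ht.eq_or_lt with rfl | hpos
  · exact h0
  have htc : t ∈ Icc 0 t := ⟨ht, le_rfl⟩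
  have ht1 : t ∈ Ico 0 T₁ := ⟨ht, h1⟩
  have ht2 : t ∈ Ico 0 T₂ := ⟨ht, h2⟩
  obtain ⟨K, hK0, hK⟩ := bound_M hv h2
  obtain ⟨U, hU0, hU⟩ := bound_u hu h1
  obtain ⟨U', hU'0, hU'⟩ := bound_u hv h2
  have hfin : IsFiniteMeasure (volume.restrict cube) :=
    ⟨by rw [Measure.restrict_apply_univ]; exact cube_compact.measure_lt_top⟩
  set E : ℝ → ℝ := fun s => ∫ x in cube, ‖u s x - v s x‖ ^ 2 with hE
  set G : ℝ := Real.sqrt (∫ _x in cube, 3 * K ^ 2) with hG
  have hG0 : 0 ≤ G := Real.sqrt_nonneg _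
  set B : ℝ := 120 * G + K with hB
  have cu : ∀ s ∈ Icc 0 t, Continuous (u s) := fun s hs =>
    (hu.field s (Uniq.sub_Ico h1 hs)).contDiff.continuous
  have cv : ∀ s ∈ Icc 0 t, Continuous (v s) := fun s hs =>
    (hv.field s (Uniq.sub_Ico h2 hs)).contDiff.continuous
  have hcont : ContinuousOn E (Icc 0 t) := by
    apply continuousOn_of_dominated (bound := fun _ => (U + U') ^ 2)
    · intro s hs
      exact (((cu s hs).sub (cv s hs)).norm.pow 2).aestronglyMeasurable
    · intro s hs
      refine ae_of_all _ fun x => ?_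
      rw [norm_pow, norm_norm]
      exact pow_le_pow_left₀ (norm_nonneg _)
        ((norm_sub_le _ _).trans (add_le_add (hU s hs x) (hU' s hs x))) 2
    · exact integrable_const _
    · refine ae_of_all _ fun x => ?_
      have c3 : ContinuousOn (fun s : ℝ => (s, x)) (Icc 0 t) := by fun_prop
      have c4 : ContinuousOn ((fun z : ℝ × E3 => u z.1 z.2) ∘ (fun s : ℝ => (s, x))) (Icc 0 t) :=
        ContinuousOn.comp (cont_u hu h1) c3 (fun s hs => ⟨hs, mem_univ _⟩)
      have c5 : ContinuousOn ((fun z : ℝ × E3 => v z.1 z.2) ∘ (fun s : ℝ => (s, x))) (Icc 0 t) :=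
        ContinuousOn.comp (cont_u hv h2) c3 (fun s hs => ⟨hs, mem_univ _⟩)
      exact ((c4.sub c5).norm).pow 2
  have hder : ∀ s ∈ Ioo 0 t, ∃ d, HasDerivAt E d s ∧ d ≤ 2 * B * E s := by
    intro s hs
    have hs1 : s < T₁ := hs.2.trans h1
    have hs2 : s < T₂ := hs.2.trans h2
    refine ⟨_, energy_deriv hu hv hs.1 hs1 hs2, ?_⟩
    have hsc : s ∈ Icc 0 t := Ioo_subset_Icc_self hs
    have mu := hu.field s (Uniq.sub_Ico h1 hsc)
    have mv := hv.field s (Uniq.sub_Ico h2 hsc)
    have cw : Continuous (fun x => u s x - v s x) :=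
      mu.contDiff.continuous.sub mv.contDiff.continuous
    have cMvw : Continuous (fun x => fderiv ℝ (v s) x (u s x - v s x)) :=
      (mv.contDiff.continuous_fderiv (by norm_num)).clm_apply cw
    have hneg : -(∫ x in cube, ⟪fderiv ℝ (v s) x (u s x - v s x), u s x - v s x⟫) ≤ K * E s := by
      rw [← integral_neg, hE]
      simp only
      rw [← integral_const_mul]
      have c1 : Continuous (fun x => -⟪fderiv ℝ (v s) x (u s x - v s x), u s x - v s x⟫) :=
        (cMvw.inner cw).neg
      have c2 : Continuous (fun x => K * ‖u s x - v s x‖ ^ 2) :=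
        continuous_const.mul (cw.norm.pow 2)
      apply integral_mono (c1.continuousOn.integrableOn_compact cube_compact)
        (c2.continuousOn.integrableOn_compact cube_compact)
      intro x
      show -⟪fderiv ℝ (v s) x (u s x - v s x), u s x - v s x⟫ ≤ K * ‖u s x - v s x‖ ^ 2
      have h5 := abs_real_inner_le_norm (fderiv ℝ (v s) x (u s x - v s x)) (u s x - v s x)
      have h6 := (fderiv ℝ (v s) x).le_of_opNorm_le (hK s hsc x) (u s x - v s x)
      have h7 := mul_le_mul_of_nonneg_right h6 (norm_nonneg (u s x - v s x))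
      have h8 := neg_abs_le ⟪fderiv ℝ (v s) x (u s x - v s x), u s x - v s x⟫
      have e5 : K * ‖u s x - v s x‖ ^ 2 = K * ‖u s x - v s x‖ * ‖u s x - v s x‖ := by ring
      rw [e5]
      linarith
    have hdel : Del (DD m) (u s) (u s) (fun x => u s x - v s x)
        - Del (DD m) (v s) (v s) (fun x => u s x - v s x) ≤ 120 * G * E s := by
      rw [Del_diff m mu mv]
      have hb := Del_bound m (u := fun x => u s x - v s x) (v := v s)
        (φ := fun x => u s x - v s x) cw mv.contDiff mv.periodic cw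
      have hg1 : nG (v s) ≤ G := nG_le mv.contDiff (hK s hsc)
      have hsq : nL (fun x => u s x - v s x) * nL (fun x => u s x - v s x) = E s := nL_sq _
      have hE0 : 0 ≤ E s := integral_nonneg fun x => by positivity
      calc Del (DD m) (fun x => u s x - v s x) (v s) (fun x => u s x - v s x)
          ≤ |Del (DD m) (fun x => u s x - v s x) (v s) (fun x => u s x - v s x)| := le_abs_self _
        _ ≤ 120 * (nL (fun x => u s x - v s x) * nG (v s) * nL (fun x => u s x - v s x)) := hb
        _ = 120 * nG (v s) * (nL (fun x => u s x - v s x) * nL (fun x => u s x - v s x)) := by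
            ring
        _ = 120 * nG (v s) * E s := by rw [hsq]
        _ ≤ 120 * G * E s := by gcongr
    have e6 : 2 * B * E s = 2 * (120 * G * E s) + 2 * (K * E s) := by rw [hB]; ring
    rw [e6]
    linarith
  set g : ℝ → ℝ := fun s => E s * Real.exp (-(2 * B * s)) with hg
  have hanti : AntitoneOn g (Icc 0 t) := by
    apply antitoneOn_of_deriv_nonpos (convex_Icc 0 t)
    · exact hcont.mul (by fun_prop)
    · rw [interior_Icc]
      intro s hs
      obtain ⟨d, hd, -⟩ := hder s hs
      exact (hd.differentiableAt.mul (by fun_prop)).differentiableWithinAt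
    · rw [interior_Icc]
      intro s hs
      obtain ⟨d, hd, hle⟩ := hder s hs
      have h5 : HasDerivAt (fun s : ℝ => Real.exp (-(2 * B * s)))
          (Real.exp (-(2 * B * s)) * (-(2 * B * 1))) s :=
        (((hasDerivAt_id s).const_mul (2 * B)).neg).exp
      have h8 : HasDerivAt g (d * Real.exp (-(2 * B * s))
          + E s * (Real.exp (-(2 * B * s)) * (-(2 * B * 1)))) s := hd.mul h5
      rw [h8.deriv]
      have h6 := Real.exp_pos (-(2 * B * s))
      nlinarith
  have h7 := hanti ⟨le_rfl, ht⟩ htc ht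
  have hE0 : E 0 = 0 := by simp [hE, h0]
  simp only [hg, hE0, zero_mul] at h7
  have h8 : E t ≤ 0 := by
    by_contra hc
    push Not at hc
    exact absurd h7 (not_le.mpr (mul_pos hc (Real.exp_pos _)))
  funext x
  have h9 := Uniq.eq_zero_of_integral (f := fun x => u t x - v t x) ((cu t htc).sub (cv t htc))
    (field_sub (hu.field t ht1) (hv.field t ht2)).periodic h8 x
  exact sub_eq_zero.mp h9

end Pool.Agent.Work.MP_b0497c_an.Tri
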