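import Mathlib
import Pool.Agent.Work.MP_b0497c_an.Tri.Struct
import Pool.Agent.Work.MP_b0497c_an.Tri.Form
import Pool.Agent.Work.MP_b0497c_an.Tri.Anti
import Pool.Agent.Work.MP_b0497c_an.Tri.Helicity
import Pool.Agent.Work.MP_b0497c_an.Tri.Momentum
import Pool.Agent.Work.MP_b0497c_an.Tri.Unique
import Pool.Agent.Work.MP_b0497c_an.Dec.Main

set_option autoImplicit false

/-! Assembly: blow-up of the Euler equations with deleted triads. -/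

namespace Pool.Agent.Work.MP_b0497c_an.Tri

open Set MeasureTheory RealInnerProductSpace Pool.Agent.Work.MP_b0497c_an Filter Topology
open Pool.Agent.Work.MP_b0497c_an.Dec
open scoped ContDiff

theorem pow_gt (M : ℕ) : (M : ℤ) < 16 ^ M := by
  exact_mod_cast Nat.lt_pow_self (by norm_num)

theorem exists_m (M : ℕ) (ε : ℝ) (hε : 0 < ε) : ∃ m : ℕ, M ≤ m ∧ 120 / ε ≤ 16 ^ m := by
  obtain ⟨n, hn⟩ := pow_unbounded_of_one_lt (120 / ε) (show (1 : ℝ) < 16 by norm_num)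
  refine ⟨max M n, le_max_left _ _, hn.le.trans ?_⟩
  exact pow_le_pow_right₀ (by norm_num) (le_max_right _ _)

theorem isField_of_inModes {Λ : Set (Fin 3 → ℤ)}
    {v : EuclideanSpace ℝ (Fin 3) → EuclideanSpace ℝ (Fin 3)} (hv : InModes Λ v) : IsField v :=
  ⟨hv.contDiff, hv.periodic, hv.div_free⟩

theorem main (M : ℕ) (ε : ℝ) (hε : 0 < ε) :
    ∃ D : Set ((Fin 3 → ℤ) × (Fin 3 → ℤ) × (Fin 3 → ℤ)),
    (∀ p q r : Fin 3 → ℤ, (p, q, r) ∈ D → p + q + r = 0 ∧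
      (∃ i, (M : ℤ) < |p i|) ∧ (∃ i, (M : ℤ) < |q i|) ∧ ∃ i, (M : ℤ) < |r i|) ∧
    (∀ p q r : Fin 3 → ℤ, (p, q, r) ∈ D → (q, p, r) ∈ D ∧ (q, r, p) ∈ D) ∧
    (∀ (σ : Equiv.Perm (Fin 3)) (s : Fin 3 → ℤˣ) (p q r : Fin 3 → ℤ),
      ((fun i => (s i : ℤ) * p (σ i)), (fun i => (s i : ℤ) * q (σ i)),
        (fun i => (s i : ℤ) * r (σ i))) ∈ D ↔ (p, q, r) ∈ D) ∧
    (∀ N : ℕ, {z : (Fin 3 → ℤ) × (Fin 3 → ℤ) × (Fin 3 → ℤ) | z ∈ D ∧
      ∀ i, |z.1 i| ≤ (N : ℤ) ∧ |z.2.1 i| ≤ (N : ℤ) ∧ |z.2.2 i| ≤ (N : ℤ)}.ncard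
      ≤ 172800 * (Nat.log 16 N + 1) ^ 2) ∧
    (∀ u v φ : EuclideanSpace ℝ (Fin 3) → EuclideanSpace ℝ (Fin 3),
      IsField u → IsField v → IsField φ →
      Summable (fun z : D => interact u v φ z.1.1 z.1.2.1 z.1.2.2) ∧
      |Del D u v φ| ≤ ε * (Real.sqrt (∫ x in cube, ∑ i, ‖fderiv ℝ u x (e i)‖ ^ 2) *
        Real.sqrt (∫ x in cube, ∑ i, ‖fderiv ℝ v x (e i)‖ ^ 2) *
        Real.sqrt (∫ x in cube, ‖φ x‖ ^ 2)) ∧
      Del D u v v = 0 ∧ (ContDiff ℝ 2 u → Del D u u (curl u) = 0)) ∧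
    ∃ (T : ℝ) (u : ℝ → EuclideanSpace ℝ (Fin 3) → EuclideanSpace ℝ (Fin 3)), 0 < T ∧
      IsDeletedSolution D T u ∧
      (∃ (s : Finset (Fin 3 → ℤ)) (A : (Fin 3 → ℤ) → EuclideanSpace ℝ (Fin 3)),
        ∀ x, u 0 x = ∑ k ∈ s, Real.sin (phase k x) • A k) ∧
      (∀ t ∈ Ico 0 T, ContDiff ℝ ∞ (u t)) ∧
      (∀ t ∈ Ico 0 T, ∫ x in cube, ‖u t x‖ ^ 2 = ∫ x in cube, ‖u 0 x‖ ^ 2) ∧
      ¬ IntegrableOn (fun t => Real.sqrt (∫ x in cube, ‖curl (u t) x‖ ^ 2)) (Ioo 0 T) ∧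
      ∀ (T' : ℝ) (u' : ℝ → EuclideanSpace ℝ (Fin 3) → EuclideanSpace ℝ (Fin 3)),
        IsDeletedSolution D T' u' → u' 0 = u 0 → T' ≤ T ∧ ∀ t ∈ Ico 0 T', u' t = u t := by
  obtain ⟨m, hMm, hm⟩ := exists_m M ε hε
  have hgt : (M : ℤ) < 16 ^ m :=
    (pow_gt M).trans_le (pow_le_pow_right₀ (by norm_num) hMm)
  refine ⟨DD m, ?_, fun p q r h => ⟨DD_swap h, DD_cycle h⟩, fun σ s p q r => DD_act m (σ, s) p q r,
    card_DD m, ?_, ?_⟩
  · intro p q r h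
    obtain ⟨⟨i, hi⟩, ⟨j, hj⟩, ⟨k, hk⟩⟩ := DD_large h
    exact ⟨DD_sum h, ⟨i, hgt.trans_le hi⟩, ⟨j, hgt.trans_le hj⟩, ⟨k, hgt.trans_le hk⟩⟩
  · intro u v φ hu hv hφ
    refine ⟨Del_summable m hu.contDiff.continuous hv.contDiff hv.periodic hφ.contDiff.continuous,
      ?_, Del_anti m hu hv, fun h2 => Del_helicity m hu h2⟩
    have h := Del_small m hu.contDiff hu.periodic hv.contDiff hv.periodic hφ.contDiff.continuous
    have hp : (0 : ℝ) < 16 ^ m := by positivity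
    have h120 : 120 ≤ ε * 16 ^ m := by
      rw [div_le_iff₀ hε] at hm
      linarith
    have hn : 0 ≤ nG u * nG v * nL φ := by
      unfold nG nL
      positivity
    have h3 : 16 ^ m * |Del (DD m) u v φ| ≤ 16 ^ m * (ε * (nG u * nG v * nL φ)) := by
      calc 16 ^ m * |Del (DD m) u v φ| ≤ 120 * (nG u * nG v * nL φ) := h
        _ ≤ (ε * 16 ^ m) * (nG u * nG v * nL φ) := mul_le_mul_of_nonneg_right h120 hn
        _ = 16 ^ m * (ε * (nG u * nG v * nL φ)) := by ring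
    exact le_of_mul_le_mul_left h3 hp
  obtain ⟨T, b, b', hT, hd, hc, hb0, hode, hdec, hblow⟩ :=
    dyadic (cc m) 5 (cc_pos m) (cc_h1 m) (cc_h2 m) (cc_h3 m)
  set a : ℕ → ℝ → ℝ := fun n t => b n t / Real.sqrt (eps n : ℝ) with ha
  set a' : ℕ → ℝ → ℝ := fun n t => b' n t / Real.sqrt (eps n : ℝ) with ha'
  have hamp : Amp T a a' := amp_of_dyadic hd hc hdec
  have hcurl : ∀ n, ∀ t ∈ Ico 0 T, cc m n * |b n t|
      ≤ 12160 * Real.sqrt (∫ x in cube, ‖curl (U m a t) x‖ ^ 2) := by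
    intro n t ht
    refine (cc_mul_le m n (b n t)).trans ?_
    exact mul_le_mul_of_nonneg_left (U_curl hamp m ht n) (by norm_num)
  have hres : IsRestrictedSolution (L m) T (U m a) := by
    refine ⟨U_contDiffOn hamp m, fun t ht => U_inModes hamp m ht, fun t ht φ hφ => ?_⟩
    exact U_momentum hamp m ht (fun n => ode_of_dyadic (fun n => hode n t ht) n) φ hφ
  have hsol : IsDeletedSolution (DD m) T (U m a) := by
    refine ⟨U_contDiffOn hamp m, fun t ht => isField_of_inModes (U_inModes_X hamp m ht),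
      fun t ht φ hφ => ?_⟩
    exact U_deleted hamp m ht (fun n => ode_of_dyadic (fun n => hode n t ht) n) hφ
  refine ⟨T, U m a, hT, hsol, ?_, fun t ht => U_smooth hamp m ht,
    fun t ht => energy_const hres ht, ?_, ?_⟩
  · obtain ⟨s, A, h⟩ := datum m (1 / Real.sqrt (eps 0 : ℝ))
    refine ⟨s, A, fun x => ?_⟩
    rw [← h x]
    unfold U
    rw [tsum_eq_single 0]
    · simp [ha, hb0]
    · intro n hn
      simp [ha, hb0, hn]
  · intro hint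
    refine hblow (fun t => 12160 * Real.sqrt (∫ x in cube, ‖curl (U m a t) x‖ ^ 2)) ?_
      (hint.const_mul _)
    intro n t ht
    exact hcurl n t ⟨ht.1.le, ht.2⟩
  · intro T' u' hu' h0
    suffices hle : T' ≤ T from
      ⟨hle, fun t ht => unique hu' hsol h0 ht.1 ht.2 (ht.2.trans_le hle)⟩
    by_contra hlt
    push Not at hlt
    obtain ⟨K, hK⟩ := curl_bound hu'.contDiff_u hlt
    refine hblow (fun _ => 12160 * K) ?_ ?_
    · intro n t ht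
      refine (hcurl n t ⟨ht.1.le, ht.2⟩).trans ?_
      have huu : u' t = U m a t := unique hu' hsol h0 ht.1.le (ht.2.trans hlt) ht.2
      have := hK t ⟨ht.1.le, ht.2.le⟩
      rw [huu] at this
      linarith
    · exact integrableOn_const (by simp)

end Pool.Agent.Work.MP_b0497c_an.Tri
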