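import Mathlib
import Pool.Agent.Work.MP_b0497c_an.Tri.Main

set_option autoImplicit false

/-! Named properties of a set of triads, and the final form of the blow-up theorem. -/

namespace Pool.Agent.Work.MP_b0497c_an.Tri

open Set MeasureTheory Pool.Agent.Work.MP_b0497c_an
open Pool.Agent.Work.MP_b0497c_an.Dec
open scoped ContDiff

/-- `D` consists of triads `(p, q, r)`, `p + q + r = 0`, of modes with a coordinate larger than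
`M` in absolute value, is closed under `(q, p, r)`, `(q, r, p)` and the `48` signed permutations
of the coordinates, and has at most `172800 (log₁₆ N + 1)²` elements in the box of size `N`. -/
structure IsSparse (M : ℕ) (D : Set ((Fin 3 → ℤ) × (Fin 3 → ℤ) × (Fin 3 → ℤ))) : Prop where
  large : ∀ p q r : Fin 3 → ℤ, (p, q, r) ∈ D → p + q + r = 0 ∧
    (∃ i, (M : ℤ) < |p i|) ∧ (∃ i, (M : ℤ) < |q i|) ∧ ∃ i, (M : ℤ) < |r i|
  swap : ∀ p q r : Fin 3 → ℤ, (p, q, r) ∈ D → (q, p, r) ∈ D ∧ (q, r, p) ∈ D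
  symm : ∀ (σ : Equiv.Perm (Fin 3)) (s : Fin 3 → ℤˣ) (p q r : Fin 3 → ℤ),
    ((fun i => (s i : ℤ) * p (σ i)), (fun i => (s i : ℤ) * q (σ i)),
      (fun i => (s i : ℤ) * r (σ i))) ∈ D ↔ (p, q, r) ∈ D
  card : ∀ N : ℕ, {z : (Fin 3 → ℤ) × (Fin 3 → ℤ) × (Fin 3 → ℤ) | z ∈ D ∧
    ∀ i, |z.1 i| ≤ (N : ℤ) ∧ |z.2.1 i| ≤ (N : ℤ) ∧ |z.2.2 i| ≤ (N : ℤ)}.ncard
    ≤ 172800 * (Nat.log 16 N + 1) ^ 2

/-- The form `Del D` converges absolutely, is bounded by `ε ‖∇u‖ ‖∇v‖ ‖φ‖` in the `L²` norms,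
and preserves energy and helicity. -/
structure IsSmall (ε : ℝ) (D : Set ((Fin 3 → ℤ) × (Fin 3 → ℤ) × (Fin 3 → ℤ))) : Prop where
  summable : ∀ u v φ, IsField u → IsField v → IsField φ →
    Summable (fun z : D => interact u v φ z.1.1 z.1.2.1 z.1.2.2)
  bound : ∀ u v φ, IsField u → IsField v → IsField φ →
    |Del D u v φ| ≤ ε * (Real.sqrt (∫ x in cube, ∑ i, ‖fderiv ℝ u x (e i)‖ ^ 2) *
      Real.sqrt (∫ x in cube, ∑ i, ‖fderiv ℝ v x (e i)‖ ^ 2) *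
      Real.sqrt (∫ x in cube, ‖φ x‖ ^ 2))
  energy : ∀ u v, IsField u → IsField v → Del D u v v = 0
  helicity : ∀ u, IsField u → ContDiff ℝ 2 u → Del D u u (curl u) = 0

theorem main_props (M : ℕ) (ε : ℝ) (hε : 0 < ε) :
    ∃ D : Set ((Fin 3 → ℤ) × (Fin 3 → ℤ) × (Fin 3 → ℤ)), IsSparse M D ∧ IsSmall ε D ∧
    ∃ (T : ℝ) (u : ℝ → EuclideanSpace ℝ (Fin 3) → EuclideanSpace ℝ (Fin 3)), 0 < T ∧
      IsDeletedSolution D T u ∧
      (∃ (s : Finset (Fin 3 → ℤ)) (A : (Fin 3 → ℤ) → EuclideanSpace ℝ (Fin 3)),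
        ∀ x, u 0 x = ∑ k ∈ s, Real.sin (phase k x) • A k) ∧
      (∀ t ∈ Ico 0 T, ContDiff ℝ ∞ (u t)) ∧
      (∀ t ∈ Ico 0 T, ∫ x in cube, ‖u t x‖ ^ 2 = ∫ x in cube, ‖u 0 x‖ ^ 2) ∧
      ¬ IntegrableOn (fun t => Real.sqrt (∫ x in cube, ‖curl (u t) x‖ ^ 2)) (Ioo 0 T) ∧
      ∀ (T' : ℝ) (u' : ℝ → EuclideanSpace ℝ (Fin 3) → EuclideanSpace ℝ (Fin 3)),
        IsDeletedSolution D T' u' → u' 0 = u 0 → T' ≤ T ∧ ∀ t ∈ Ico 0 T', u' t = u t := by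
  obtain ⟨D, h1, h2, h3, h4, h5, h6⟩ := main M ε hε
  refine ⟨D, ⟨h1, h2, h3, h4⟩, ⟨fun u v φ hu hv hφ => (h5 u v φ hu hv hφ).1,
    fun u v φ hu hv hφ => (h5 u v φ hu hv hφ).2.1,
    fun u v hu hv => (h5 u v v hu hv hv).2.2.1,
    fun u hu h => (h5 u u u hu hu hu).2.2.2 h⟩, h6⟩

end Pool.Agent.Work.MP_b0497c_an.Tri
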